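import Pool.Agent.H42.RM.EFc
import Pool.Agent.H42.RM.LOc
import Pool.Agent.H42.RM.LOe
import Pool.Agent.H42.RM.LOf
import Pool.Agent.H42.RM.FAa
import Pool.Agent.H42.PCM.B2

/-! # MP_2af937_nt, partial answer to Q1: natural density zero for all rational functions of degree
at least 2 in general position which are eventually stable at `β`; no base extension is needed
(apart from the one which makes a fixed point rational and moves it to infinity). -/

set_option autoImplicit false

open Polynomial NumberField IsDedekindDomain Filter Topology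

namespace Pool.Agent.H42.QP

open scoped Classical in
/-- The rational map `p / q` on the projective line `P¹(A) = A ∪ {∞}` (`none` is `∞`), where
`deg q < deg p`, so that `∞` is a fixed point. -/
noncomputable def rat {K : Type} [Field K] (p q : K[X]) (A : Type) [Field A] [Algebra K A] :
    Option A → Option A
  | none => none
  | some x => if aeval x q = 0 then none else some (aeval x p / aeval x q)

/-- `c` has an infinite forward orbit under `p / q`. -/
def InfOrbit {K A : Type} [Field K] [Field A] [Algebra K A] (p q : K[X]) (c : A) : Prop :=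
  (Set.range fun n : ℕ => (rat p q A)^[n] (some c)).Infinite

/-- The number of Galois orbits on the set of `n`-th preimages of `β` is bounded (an orbit
is given by the minimal polynomial of its elements). -/
def EventuallyStable {K : Type} [Field K] (p q : K[X]) (β : K) : Prop :=
  ∃ B : ℕ, ∀ n, {g : K[X] | ∃ x : AlgebraicClosure K, (rat p q (AlgebraicClosure K))^[n] (some x) =
    some (algebraMap K (AlgebraicClosure K) β) ∧ g = minpoly K x}.ncard ≤ B

/-- For some prime `v` of `K`, `p` and `q` have integral coefficients, the leading coefficient of `p`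
is a unit, and one of the following holds for the reduced polynomials:
(a) `β` is integral, `q β ≠ 0` and `p - β q = a (x - β) ^ d`, `d = deg p`;
(b) `β` is integral, `q` is a nonzero constant, `p = a x ^ d + c` and `d` is a power of the residue
characteristic;
(c) `β` is not integral and `q` is a nonzero constant. -/
def LocalCondition {K : Type} [Field K] [NumberField K] (p q : K[X]) (β : K) : Prop :=
  ∃ v : HeightOneSpectrum (𝓞 K),
    (∀ i, v.valuation K (p.coeff i) ≤ 1) ∧ (∀ i, v.valuation K (q.coeff i) ≤ 1) ∧
    v.valuation K p.leadingCoeff = 1 ∧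
    ((v.valuation K β ≤ 1 ∧ v.valuation K (q.eval β) = 1 ∧
        ∀ i < p.natDegree, v.valuation K (((p - C β * q).comp (X + C β)).coeff i) < 1) ∨
      (v.valuation K (q.coeff 0) = 1 ∧ (∀ i, 1 ≤ i → v.valuation K (q.coeff i) < 1) ∧
        ((v.valuation K β ≤ 1 ∧
            (∀ i, 1 ≤ i → i < p.natDegree → v.valuation K (p.coeff i) < 1) ∧
            ∃ l r : ℕ, l.Prime ∧ p.natDegree = l ^ r ∧ v.valuation K (l : K) < 1) ∨
          1 < v.valuation K β)))

/-- Let `p / q` be a rational function of degree `d = deg p ≥ 2` over a number field `K` which fixes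
infinity (`deg q < deg p`) and `β ∈ K` a critical point which is not periodic. Suppose
that the critical points in `K̄` with infinite forward orbit are simple (`x = c` is not a triple zero of
`q(c) p(x) - p(c) q(x)`), that the forward orbits of two different such points are disjoint, and that
`(p / q, β)` is eventually stable (or satisfies the local condition, which implies it). Then the set
of primes of `K` modulo which `β` is periodic has natural density `0`. -/
theorem dens_key (K : Type) [Field K] [NumberField K] (p q : K[X]) (β : K)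
    (hcop : IsCoprime p q) (hdeg : 2 ≤ p.natDegree) (hq : q.natDegree < p.natDegree)
    (hβ : (derivative p * q - p * derivative q).eval β = 0)
    (hper : ∀ n, 1 ≤ n → (rat p q K)^[n] (some β) ≠ some β)
    (hsimple : ∀ c : AlgebraicClosure K, aeval c (derivative p * q - p * derivative q) = 0 →
      InfOrbit p q c → ¬ (X - C c) ^ 3 ∣
        C (aeval c q) * p.map (algebraMap K (AlgebraicClosure K)) -
          C (aeval c p) * q.map (algebraMap K (AlgebraicClosure K)))
    (hdisj : ∀ c c' : AlgebraicClosure K, aeval c (derivative p * q - p * derivative q) = 0 →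
      aeval c' (derivative p * q - p * derivative q) = 0 → InfOrbit p q c → InfOrbit p q c' →
      c ≠ c' → ∀ i j : ℕ, (rat p q (AlgebraicClosure K))^[i] (some c) ≠
        (rat p q (AlgebraicClosure K))^[j] (some c'))
    (hstab : EventuallyStable p q β ∨ LocalCondition p q β) :
    Pool.Agent.H42.PC.EFinSm K {v | ∃ n, 1 ≤ n ∧ ∃ x : K,
      (rat p q K)^[n] (some β) = some x ∧ v.valuation K (x - β) < 1} := by
  have hR : ∀ (A : Type) [Field A] [Algebra K A], rat p q A = Pool.Agent.H42.RM.ratMap p q A := by
    intro A _ _
    funext x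
    cases x <;> rfl
  have hW : ∀ (A : Type) [Field A] [Algebra K A] (c : A),
      InfOrbit p q c ↔ Pool.Agent.H42.RM.Wan p q β c := by
    intro A _ _ c
    unfold InfOrbit
    rw [hR A]
    exact Pool.Agent.H42.RM.rm_wan β c
  have key : Pool.Agent.H42.PC.EFinSm K {v | ∃ n, 1 ≤ n ∧ ∃ x : K,
      (rat p q K)^[n] (some β) = some x ∧ v.valuation K (x - β) < 1} := by
    by_cases hw : InfOrbit p q β
    · have hB : Pool.Agent.H42.RM.RB p q β := ⟨hcop, hdeg, hq, hβ, (hW K β).1 hw⟩
      have hD : Pool.Agent.H42.RM.Disj p q β (AlgebraicClosure K) := by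
        intro c c' hc hc' hwc hwc' hne i j heq
        refine hdisj c c' hc hc' ((hW _ c).2 hwc) ((hW _ c').2 hwc') hne i j ?_
        rw [hR (AlgebraicClosure K),
          (Pool.Agent.H42.RM.rm_iter β i c _).2 ⟨fun k _ => hwc.1 k, rfl⟩,
          (Pool.Agent.H42.RM.rm_iter β j c' _).2 ⟨fun k _ => hwc'.1 k, rfl⟩, heq]
      have hmu : ∀ c : AlgebraicClosure K, aeval c (Pool.Agent.H42.RM.wr p q) = 0 →
          Pool.Agent.H42.RM.Wan p q β c →
          Pool.Agent.H42.RM.mu p q (AlgebraicClosure K) c = 2 := by
        intro c hc hwc
        have hqc : (q.map (algebraMap K (AlgebraicClosure K))).eval c ≠ 0 := by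
          rw [eval_map_algebraMap]
          exact hwc.1 0
        have hqd : (q.map (algebraMap K (AlgebraicClosure K))).natDegree <
            (p.map (algebraMap K (AlgebraicClosure K))).natDegree := by
          rw [natDegree_map, natDegree_map]
          exact hq
        have hwr : (Pool.Agent.H42.RM.wr (p.map (algebraMap K (AlgebraicClosure K)))
            (q.map (algebraMap K (AlgebraicClosure K)))).eval c = 0 := by
          have h1 : Pool.Agent.H42.RM.wr (p.map (algebraMap K (AlgebraicClosure K)))
              (q.map (algebraMap K (AlgebraicClosure K))) =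
              (Pool.Agent.H42.RM.wr p q).map (algebraMap K (AlgebraicClosure K)) := by
            simp only [Pool.Agent.H42.RM.wr, Polynomial.map_sub, Polynomial.map_mul,
              derivative_map]
          rw [h1, eval_map_algebraMap]
          exact hc
        have h2 := Pool.Agent.H42.RM.mlt_two hqd hqc hwr
        have h3 : ¬ 3 ≤ Pool.Agent.H42.RM.mu p q (AlgebraicClosure K) c := by
          intro h3
          refine hsimple c hc ((hW _ c).2 hwc) ?_
          have h4 := pow_rootMultiplicity_dvd
            (C ((q.map (algebraMap K (AlgebraicClosure K))).eval c) *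
              p.map (algebraMap K (AlgebraicClosure K)) -
            C ((p.map (algebraMap K (AlgebraicClosure K))).eval c) *
              q.map (algebraMap K (AlgebraicClosure K))) c
          rw [← eval_map_algebraMap, ← eval_map_algebraMap]
          exact (pow_dvd_pow _ h3).trans h4
        unfold Pool.Agent.H42.RM.mu at h3 ⊢
        omega
      have hES : Pool.Agent.H42.RM.ESR p q β := by
        rcases hstab with ⟨B, hBd⟩ | ⟨v, hpi, hqi, hl, h⟩
        · refine ⟨B, fun n => ?_⟩
          have h1 := hBd n
          rw [hR (AlgebraicClosure K), Pool.Agent.H42.RM.rm_es hB n] at h1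
          exact h1
        · rcases h with ⟨hb, hqb, hlow⟩ | ⟨hq0, hqi', ⟨hb, hpi', l, r, hlp, hdl, hvl⟩ | hb⟩
          · exact Pool.Agent.H42.RM.loc_A hB (v.valuation K) hpi hqi hb hl hqb hlow
          · exact Pool.Agent.H42.RM.loc_B hB v ⟨hlp, hdl, hvl, hl, hpi', hpi 0, hqi', hq0⟩ hb
          · exact Pool.Agent.H42.RM.loc_C hB (v.valuation K) hpi hl hq0 hqi' hb
      refine Pool.Agent.H42.PC.EFin_mono ?_ (Pool.Agent.H42.RM.r_density
        (fun E [Field E] [NumberField E] => Pool.Agent.H42.PC.pith E) hB hD hmu hES)
      rintro v ⟨n, hn, x, hx, hv⟩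
      rw [hR K, Pool.Agent.H42.RM.rm_iter β n β x] at hx
      refine ⟨n, hn, ?_⟩
      rw [hx.2]
      exact hv
    · refine Pool.Agent.H42.PC.EFin_fin (Pool.Agent.H42.PC.pith K) ?_
      have h1 := Pool.Agent.H42.RM.rm_fin (p := p) (q := q) (β := β)
        (by rw [← hR K]; exact Set.not_infinite.1 hw) (by rw [← hR K]; exact hper)
      rw [hR K]
      exact h1
  exact key

theorem efin_tendsto {K : Type} [Field K] [NumberField K] {S : Set (HeightOneSpectrum (𝓞 K))}
    (hS : Pool.Agent.H42.PC.EFinSm K S) :
    Tendsto (fun X : ℕ =>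
      ({v : HeightOneSpectrum (𝓞 K) | Ideal.absNorm v.asIdeal ≤ X ∧ v ∈ S}.ncard : ℝ) /
      ({v : HeightOneSpectrum (𝓞 K) | Ideal.absNorm v.asIdeal ≤ X}.ncard : ℝ))
      atTop (𝓝 0) := by
  refine (Pool.Agent.H42.PC.EFin_tendsto hS).congr fun X => ?_
  unfold Pool.Agent.H42.PC.prc
  congr 3
  · ext v
    constructor
    · rintro ⟨h1, h2⟩
      exact ⟨h2, h1⟩
    · rintro ⟨h1, h2⟩
      exact ⟨h2, h1⟩
  · ext v
    constructor
    · rintro ⟨h1, h2⟩
      exact h2
    · intro h2
      exact ⟨Set.mem_univ _, h2⟩

end Pool.Agent.H42.QP
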