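import Pool.Agent.H42.QP.DickF
import Pool.Agent.H42.QP.Dens
import Pool.Agent.H42.RM.LOf
import Pool.Agent.H42.ES.XBa

/-! Q1 for rational maps with Chebyshev reduction. -/

set_option autoImplicit false

open Polynomial NumberField IsDedekindDomain Filter Topology

namespace Pool.Agent.H42.QP

open Pool.Agent.H42.RM Pool.Agent.H42.PC

theorem dick_top {R : Type} [CommRing R] (n : ℕ) :
    (dickson 1 (1 : R) n).natDegree ≤ n ∧ (1 ≤ n → (dickson 1 (1 : R) n).coeff n = 1) := by
  induction n using Nat.twoStepInduction with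
  | zero =>
    refine ⟨?_, by omega⟩
    rw [dickson_zero]
    have : (3 - ((1 : ℕ) : R[X])) = C (2 : R) := by
      rw [show (C (2 : R) : R[X]) = 2 from rfl]
      push_cast
      norm_num
    rw [this, natDegree_C]
  | one =>
    rw [dickson_one]
    exact ⟨natDegree_X_le, fun _ => coeff_X_one⟩
  | more n ih0 ih1 =>
    rw [dickson_add_two, map_one, one_mul]
    refine ⟨?_, fun _ => ?_⟩
    · refine (natDegree_sub_le _ _).trans (max_le ?_ (ih0.1.trans (by omega)))
      refine natDegree_mul_le.trans ?_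
      have := natDegree_X_le (R := R)
      omega
    · rw [coeff_sub, coeff_X_mul, ih1.2 (by omega),
        coeff_eq_zero_of_natDegree_lt (lt_of_le_of_lt ih0.1 (by omega)), sub_zero]

theorem cheb_main {K : Type} [Field K] [NumberField K] {p q : K[X]} {β : K}
    (hcop : IsCoprime p q) (hd : 2 ≤ p.natDegree) (hq : q.natDegree < p.natDegree)
    (hcrit : (derivative p * q - p * derivative q).eval β = 0)
    (hper : ∀ n, 1 ≤ n → (rat p q K)^[n] (some β) ≠ some β)
    {v : HeightOneSpectrum (𝓞 K)} {ε : K} {ℓ e : ℕ} (hℓ : ℓ.Prime)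
    (hv : v.valuation K (ℓ : K) = 1) (hdeg : p.natDegree = ℓ ^ e) (hε : ε ^ 2 = 1)
    (hred : ∀ i, v.valuation K ((p - C ε * dickson 1 (1 : K) (ℓ ^ e)).coeff i) < 1)
    (hredq : ∀ i, v.valuation K ((q - 1).coeff i) < 1) :
    ∃ (K' : Type) (_ : Field K') (_ : NumberField K') (_ : Algebra K K'),
      EFinSm K' {w | ∃ n, 1 ≤ n ∧ ∃ x : K',
        (rat p q K')^[n] (some (algebraMap K K' β)) = some x ∧
          w.valuation K' (x - algebraMap K K' β) < 1} := by
  have hR : ∀ (A : Type) [Field A] [Algebra K A], rat p q A = ratMap p q A := by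
    intro A _ _
    funext x
    cases x <;> rfl
  have hVε : v.valuation K ε = 1 := by
    have h1 : v.valuation K ε ^ 2 = 1 := by rw [← map_pow, hε, map_one]
    exact (pow_eq_one_iff_of_nonneg zero_le two_ne_zero).1 h1
  have hl1 : 1 ≤ ℓ ^ e := by rw [← hdeg]; omega
  have hlc : v.valuation K p.leadingCoeff = 1 := by
    have h1 := hred (ℓ ^ e)
    rw [coeff_sub, coeff_C_mul, (dick_top (R := K) (ℓ ^ e)).2 hl1, mul_one] at h1
    rw [leadingCoeff, hdeg]
    have h2 : p.coeff (ℓ ^ e) = (p.coeff (ℓ ^ e) - ε) + ε := by ring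
    rw [h2, Valuation.map_add_eq_of_lt_right]
    · exact hVε
    · rw [hVε]; exact h1
  have hint : ∀ n i, v.valuation K ((dickson 1 (1 : K) n).coeff i) ≤ 1 := by
    intro n i
    have h1 := map_dickson (k := 1) (a := (1 : 𝓞 K)) (algebraMap (𝓞 K) K) n
    rw [map_one] at h1
    rw [← h1, coeff_map]
    exact v.valuation_le_one _
  have hpi : ∀ i, v.valuation K (p.coeff i) ≤ 1 := by
    intro i
    have h1 : p.coeff i = (p - C ε * dickson 1 (1 : K) (ℓ ^ e)).coeff i +
        ε * (dickson 1 (1 : K) (ℓ ^ e)).coeff i := by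
      rw [coeff_sub, coeff_C_mul]; ring
    rw [h1]
    refine (v.valuation K).map_add_le (hred i).le ?_
    rw [map_mul, hVε, one_mul]
    exact hint _ _
  obtain ⟨K', i1, i2, i3, h⟩ := Pool.Agent.H42.ES.x_main
    (fun E [Field E] [NumberField E] => pith E) hcop hd hq hcrit
    (fun n hn => by rw [← hR K]; exact hper n hn) (fun hB => by
      by_cases hβ : v.valuation K β ≤ 1
      · exact cheb_esr v hℓ hv hdeg hq hε hred hlc hredq hβ hcrit
      · refine loc_C hB (v.valuation K) hpi hlc ?_ ?_ (not_le.1 hβ)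
        · have h1 := hredq 0
          rw [coeff_sub, coeff_one_zero] at h1
          have h2 : q.coeff 0 = (q.coeff 0 - 1) + 1 := by ring
          rw [h2, Valuation.map_add_eq_of_lt_right]
          · exact map_one _
          · rw [map_one]; exact h1
        · intro i hi
          have h1 := hredq i
          rw [coeff_sub, coeff_one, if_neg (by omega), sub_zero] at h1
          exact h1)
  refine ⟨K', i1, i2, i3, ?_⟩
  have hR' : rat p q K' = ratMap p q K' := hR K'
  rw [hR']
  exact h

end Pool.Agent.H42.QP
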