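import Pool.Agent.H42.QP.DickI
import Pool.Agent.H42.QP.ChebFin

/-! Q1 for rational maps with Chebyshev reduction, all degrees. -/

set_option autoImplicit false

open Polynomial NumberField IsDedekindDomain Filter Topology

namespace Pool.Agent.H42.QP

open Pool.Agent.H42.RM Pool.Agent.H42.PC

theorem cheb_es_all {K : Type} [Field K] [NumberField K] {p q : K[X]} {β : K} {d : ℕ} (hd : 2 ≤ d)
    (hdeg : p.natDegree = d) (hq : q.natDegree < d)
    (hcrit : (derivative p * q - p * derivative q).eval β = 0)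
    {v : HeightOneSpectrum (𝓞 K)} {ε : K} (hv : v.valuation K (d : K) = 1) (hε : ε ^ 2 = 1)
    (hred : ∀ i, v.valuation K ((p - C ε * dickson 1 (1 : K) d).coeff i) < 1)
    (hredq : ∀ i, v.valuation K ((q - 1).coeff i) < 1)
    (hprim : v.valuation K β ≤ 1 → ∀ ℓ a m : ℕ, ℓ.Prime → 1 ≤ a → d = ℓ ^ a * m → ¬ ℓ ∣ m →
      v.valuation K ((derivative (dickson 1 (1 : K) m)).eval β) = 1)
    (hB : RB p q β) : ESR p q β := by
  have hVε : v.valuation K ε = 1 := by
    have h1 : v.valuation K ε ^ 2 = 1 := by rw [← map_pow, hε, map_one]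
    exact (pow_eq_one_iff_of_nonneg zero_le two_ne_zero).1 h1
  have hlc : v.valuation K p.leadingCoeff = 1 := by
    have h1 := hred d
    rw [coeff_sub, coeff_C_mul, (dick_top (R := K) d).2 (by omega), mul_one] at h1
    rw [leadingCoeff, hdeg]
    have h2 : p.coeff d = (p.coeff d - ε) + ε := by ring
    rw [h2, Valuation.map_add_eq_of_lt_right]
    · exact hVε
    · rw [hVε]; exact h1
  have hint : ∀ n i, v.valuation K ((dickson 1 (1 : K) n).coeff i) ≤ 1 := by
    intro n i
    have h1 := map_dickson (k := 1) (a := (1 : 𝓞 K)) (algebraMap (𝓞 K) K) n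
    rw [map_one] at h1
    rw [← h1, coeff_map]
    exact v.valuation_le_one _
  have hpi : ∀ i, v.valuation K (p.coeff i) ≤ 1 := by
    intro i
    have h1 : p.coeff i = (p - C ε * dickson 1 (1 : K) d).coeff i +
        ε * (dickson 1 (1 : K) d).coeff i := by
      rw [coeff_sub, coeff_C_mul]; ring
    rw [h1]
    refine (v.valuation K).map_add_le (hred i).le ?_
    rw [map_mul, hVε, one_mul]
    exact hint _ _
  by_cases hβ : v.valuation K β ≤ 1
  · exact cheb_esr' v (by omega) hv hdeg (by rw [hdeg]; exact hq) hε hred hlc hredq hβ hcrit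
      (hprim hβ)
  · refine loc_C hB (v.valuation K) hpi hlc ?_ ?_ (not_le.1 hβ)
    · have h1 := hredq 0
      rw [coeff_sub, coeff_one_zero] at h1
      have h2 : q.coeff 0 = (q.coeff 0 - 1) + 1 := by ring
      rw [h2, Valuation.map_add_eq_of_lt_right]
      · exact map_one _
      · rw [map_one]; exact h1
    · intro i hi
      have h1 := hredq i
      rw [coeff_sub, coeff_one, if_neg (by omega), sub_zero] at h1
      exact h1

theorem cheb_main' {K : Type} [Field K] [NumberField K] {p q : K[X]} {β : K} {d : ℕ}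
    (hcop : IsCoprime p q) (hd : 2 ≤ d) (hdeg : p.natDegree = d) (hq : q.natDegree < d)
    (hcrit : (derivative p * q - p * derivative q).eval β = 0)
    (hper : ∀ n, 1 ≤ n → (rat p q K)^[n] (some β) ≠ some β)
    {v : HeightOneSpectrum (𝓞 K)} {ε : K} (hv : v.valuation K (d : K) = 1) (hε : ε ^ 2 = 1)
    (hred : ∀ i, v.valuation K ((p - C ε * dickson 1 (1 : K) d).coeff i) < 1)
    (hredq : ∀ i, v.valuation K ((q - 1).coeff i) < 1)
    (hprim : v.valuation K β ≤ 1 → ∀ ℓ a m : ℕ, ℓ.Prime → 1 ≤ a → d = ℓ ^ a * m → ¬ ℓ ∣ m →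
      v.valuation K ((derivative (dickson 1 (1 : K) m)).eval β) = 1) :
    ∃ (K' : Type) (_ : Field K') (_ : NumberField K') (_ : Algebra K K'),
      EFinSm K' {w | ∃ n, 1 ≤ n ∧ ∃ x : K',
        (rat p q K')^[n] (some (algebraMap K K' β)) = some x ∧
          w.valuation K' (x - algebraMap K K' β) < 1} := by
  have hR : ∀ (A : Type) [Field A] [Algebra K A], rat p q A = ratMap p q A := by
    intro A _ _
    funext x
    cases x <;> rfl
  obtain ⟨K', i1, i2, i3, h⟩ := Pool.Agent.H42.ES.x_main
    (fun E [Field E] [NumberField E] => pith E) hcop (by rw [hdeg]; exact hd)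
    (by rw [hdeg]; exact hq) hcrit
    (fun n hn => by rw [← hR K]; exact hper n hn) (fun hB =>
      cheb_es_all hd hdeg hq hcrit hv hε hred hredq hprim hB)
  refine ⟨K', i1, i2, i3, ?_⟩
  have hR' : rat p q K' = ratMap p q K' := hR K'
  rw [hR']
  exact h

end Pool.Agent.H42.QP
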