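import Pool.Agent.H42.QP.Dens

/-! ROW Cub (helper71). The odd cubic polynomial `f = X^3 + a X` with critical points `± β`, `3 β^2 = -a`, `β` not periodic. Apply
`dens_key` (Dens.lean) with `p = X^3 + C a * X`, `q = 1`. `rat p 1 A` is `some x ↦ some (x^3 + a x)`.
 * `a ≠ 0` (else `β = 0` is fixed), `β ≠ 0`.
 * critical points in `K̄`: `3 c^2 + a = 0`, so `c = β` or `c = -β` (`c^2 = β^2`).
 * simple: `(X - c)^3 ∣ f - f(c)` would give `f - f(c) = (X - c)^3`, coefficient of `X^2`: `3 c = 0`, no (`X^3 + aX - f(c)` is monic of degree `3`);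
   or: `(X - c)^2 ∣ f'`, `f' = 3 (X - c)(X + c)`.
 * disjoint: `f` is odd, so `f^i(-β) = - f^i(β)`. Suppose `f^i(c) = f^j(c')` with `c ≠ c'`, i.e. `c' = -c` and `f^i(c) = - f^j(c)`. If `i = j`:
   `f^i(c) = 0`, fixed point, so the orbit of `c` is finite, contradiction to InfOrbit. If `i > j` put `y = f^j(c)`, `k = i - j`:
   `f^k(y) = -y`, `f^(2k)(y) = f^k(-y) = -f^k(y) = y`, so the orbit of `c` is finite. `i < j`: symmetric (`f^j(c) = -f^i(c)`).
The conclusion of `dens_key` is for `rat`; translate. -/

set_option autoImplicit false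

open Polynomial NumberField IsDedekindDomain

namespace Pool.Agent.H42.QP

open scoped Classical in
private theorem cub_rat {K : Type} [Field K] (a : K) (A : Type) [Field A] [Algebra K A] (x : A) :
    rat (X ^ 3 + C a * X) 1 A (some x) = some (x ^ 3 + algebraMap K A a * x) := by
  have h1 : aeval x (1 : K[X]) = 1 := map_one _
  have h2 : aeval x (X ^ 3 + C a * X : K[X]) = x ^ 3 + algebraMap K A a * x := by
    simp
  change (if aeval x (1 : K[X]) = 0 then none
    else some (aeval x (X ^ 3 + C a * X : K[X]) / aeval x (1 : K[X]))) = _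
  rw [h1, h2, if_neg one_ne_zero, div_one]

private theorem cub_iter {K : Type} [Field K] (a : K) (A : Type) [Field A] [Algebra K A] (n : ℕ)
    (x : A) : (rat (X ^ 3 + C a * X) 1 A)^[n] (some x) =
      some ((fun y : A => y ^ 3 + algebraMap K A a * y)^[n] x) := by
  induction n generalizing x with
  | zero => rfl
  | succ n ih =>
    rw [Function.iterate_succ_apply, Function.iterate_succ_apply, cub_rat, ih]

private theorem cub_fin {A : Type} (f : A → A) (x : A) {m m' : ℕ} (hm : m < m')
    (h : f^[m] x = f^[m'] x) (n : ℕ) : ∃ k < m', f^[n] x = f^[k] x := by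
  induction n using Nat.strong_induction_on with
  | _ n ih =>
    by_cases hn : n < m'
    · exact ⟨n, hn, rfl⟩
    · obtain ⟨t, rfl⟩ := Nat.exists_eq_add_of_le (not_lt.1 hn)
      have h1 : f^[m' + t] x = f^[m + t] x := by
        rw [add_comm m', add_comm m, Function.iterate_add_apply, Function.iterate_add_apply, h]
      obtain ⟨k, hk, hk'⟩ := ih (m + t) (by omega)
      exact ⟨k, hk, h1.trans hk'⟩

private theorem cub_not_inf {K : Type} [Field K] (a : K) (A : Type) [Field A] [Algebra K A] (c : A)
    {m m' : ℕ} (hm : m < m')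
    (h : (fun y : A => y ^ 3 + algebraMap K A a * y)^[m] c =
      (fun y : A => y ^ 3 + algebraMap K A a * y)^[m'] c) :
    ¬ InfOrbit (X ^ 3 + C a * X) 1 c := by
  unfold InfOrbit
  rw [Set.not_infinite]
  refine Set.Finite.subset (((Finset.range m').finite_toSet).image
    (fun k => some ((fun y : A => y ^ 3 + algebraMap K A a * y)^[k] c))) ?_
  rintro _ ⟨n, rfl⟩
  obtain ⟨k, hk, hk'⟩ := cub_fin _ c hm h n
  refine ⟨k, Finset.mem_coe.2 (Finset.mem_range.2 hk), ?_⟩
  change some _ = (rat (X ^ 3 + C a * X) 1 A)^[n] (some c)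
  rw [cub_iter, hk']

private theorem cub_odd {A : Type} [Field A] (b : A) (n : ℕ) (x : A) :
    (fun y : A => y ^ 3 + b * y)^[n] (-x) = -(fun y : A => y ^ 3 + b * y)^[n] x := by
  induction n generalizing x with
  | zero => rfl
  | succ n ih =>
    rw [Function.iterate_succ_apply, Function.iterate_succ_apply, ← ih]
    congr 1
    ring

private theorem cub_meet {A : Type} [Field A] [CharZero A] (b c : A) {i j : ℕ} (hij : j ≤ i)
    (h : (fun y : A => y ^ 3 + b * y)^[i] c = -(fun y : A => y ^ 3 + b * y)^[j] c) :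
    ∃ m m' : ℕ, m < m' ∧ (fun y : A => y ^ 3 + b * y)^[m] c = (fun y : A => y ^ 3 + b * y)^[m'] c := by
  obtain ⟨k, rfl⟩ := Nat.exists_eq_add_of_le hij
  rcases Nat.eq_zero_or_pos k with rfl | hk
  · rw [add_zero] at h
    have h0 : (fun y : A => y ^ 3 + b * y)^[j] c = 0 := by
      have h2 : (2 : A) * (fun y : A => y ^ 3 + b * y)^[j] c = 0 := by linear_combination h
      exact (mul_eq_zero.1 h2).resolve_left two_ne_zero
    refine ⟨j, j + 1, Nat.lt_succ_self j, ?_⟩
    rw [Function.iterate_succ_apply', h0]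
    ring
  · refine ⟨j, j + k + k, by omega, ?_⟩
    rw [add_comm j k, Function.iterate_add_apply] at h
    have h2 : (fun y : A => y ^ 3 + b * y)^[j + k + k] c =
        (fun y : A => y ^ 3 + b * y)^[k] ((fun y : A => y ^ 3 + b * y)^[k]
          ((fun y : A => y ^ 3 + b * y)^[j] c)) := by
      rw [← Function.iterate_add_apply, ← Function.iterate_add_apply]
      congr 1
      omega
    rw [h2, h, cub_odd, h, neg_neg]

private theorem cub_wr {K : Type} [Field K] (a : K) {A : Type} [Field A] [Algebra K A] (c : A) :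
    aeval c (derivative (X ^ 3 + C a * X : K[X]) * 1 - (X ^ 3 + C a * X) * derivative 1) =
      3 * c ^ 2 + algebraMap K A a := by
  simp
  left
  rw [map_ofNat]
  norm_num

theorem cubic_key {K : Type} [Field K] [NumberField K] {a β : K} (hβ : 3 * β ^ 2 + a = 0)
    (hper : ∀ n, 1 ≤ n → (fun x : K => x ^ 3 + a * x)^[n] β ≠ β)
    (hstab : EventuallyStable (X ^ 3 + C a * X) 1 β ∨ LocalCondition (X ^ 3 + C a * X) 1 β) :
    Pool.Agent.H42.PC.EFinSm K
      {v | ∃ n, 1 ≤ n ∧ v.valuation K ((fun x : K => x ^ 3 + a * x)^[n] β - β) < 1} := by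
  have hdeg : (X ^ 3 + C a * X : K[X]).natDegree = 3 := by compute_degree!
  have hitK : ∀ n : ℕ, (rat (X ^ 3 + C a * X) 1 K)^[n] (some β) =
      some ((fun x : K => x ^ 3 + a * x)^[n] β) := fun n => cub_iter a K n β
  have key := dens_key K (X ^ 3 + C a * X) 1 β isCoprime_one_right (by rw [hdeg]; norm_num)
    (by rw [hdeg, natDegree_one]; norm_num)
    (by
      rw [← coe_aeval_eq_eval]
      exact (cub_wr a β).trans hβ)
    (by
      intro n hn h
      rw [hitK] at h
      exact hper n hn (Option.some_injective _ h))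
    (by
      intro c hc hinf hdvd
      have hc0 : c = 0 := by
        obtain ⟨g, hg⟩ := hdvd
        have h1 := congrArg (fun g => (derivative (derivative g)).eval c) hg
        simp [derivative_pow] at h1
        exact h1
      refine cub_not_inf a (AlgebraicClosure K) c (m := 0) (m' := 1) (by norm_num) ?_ hinf
      rw [hc0]
      simp)
    (by
      intro c c' hc hc' hinf hinf' hne i j h
      rw [cub_wr] at hc hc'
      have h1 : (c - c') * (c + c') = 0 := by
        have h3 : (3 : AlgebraicClosure K) ≠ 0 := three_ne_zero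
        have h2 : (3 : AlgebraicClosure K) * ((c - c') * (c + c')) = 0 := by
          linear_combination hc - hc'
        exact (mul_eq_zero.1 h2).resolve_left h3
      have h2 : c' = -c := by
        rcases mul_eq_zero.1 h1 with h | h
        · exact absurd (sub_eq_zero.1 h) hne
        · exact eq_neg_of_add_eq_zero_right h
      subst h2
      rw [cub_iter, cub_iter] at h
      have h4 := Option.some_injective _ h
      rw [cub_odd] at h4
      rcases le_total j i with hij | hij
      · obtain ⟨m, m', hm, he⟩ := cub_meet _ c hij h4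
        exact cub_not_inf a _ c hm he hinf
      · have h5 : (fun y : AlgebraicClosure K => y ^ 3 + algebraMap K _ a * y)^[j] c =
            -(fun y : AlgebraicClosure K => y ^ 3 + algebraMap K _ a * y)^[i] c := by
          rw [h4, neg_neg]
        obtain ⟨m, m', hm, he⟩ := cub_meet _ c hij h5
        exact cub_not_inf a _ c hm he hinf)
    hstab
  have hset : {v : HeightOneSpectrum (𝓞 K) | ∃ n, 1 ≤ n ∧
      v.valuation K ((fun x : K => x ^ 3 + a * x)^[n] β - β) < 1} =
      {v | ∃ n, 1 ≤ n ∧ ∃ x : K, (rat (X ^ 3 + C a * X) 1 K)^[n] (some β) = some x ∧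
        v.valuation K (x - β) < 1} := by
    ext v
    constructor
    · rintro ⟨n, hn, h⟩
      exact ⟨n, hn, _, hitK n, h⟩
    · rintro ⟨n, hn, x, hx, h⟩
      rw [hitK] at hx
      have := Option.some_injective _ hx
      subst this
      exact ⟨n, hn, h⟩
  rw [hset]
  exact key

end Pool.Agent.H42.QP
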