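import Pool.Agent.H42.QP.DickC
import Pool.Agent.H42.QP.Dens

/-! Dickson reduction implies eventual stability. -/

set_option autoImplicit false

open Polynomial NumberField IsDedekindDomain

namespace Pool.Agent.H42.QP

theorem rat_one {K : Type} [Field K] (f : K[X]) (A : Type) [Field A] [Algebra K A] (n : ℕ)
    (x : A) : (rat f 1 A)^[n] (some x) = some ((fun y => aeval y f)^[n] x) := by
  induction n with
  | zero => rfl
  | succ n ih =>
    rw [Function.iterate_succ_apply', ih, Function.iterate_succ_apply']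
    simp [rat]

/-- counting: if all points of level `n` of the backward tree have large degree, then there are few
minimal polynomials -/
theorem es_of_lower {K : Type} [Field K] {f : K[X]} {β : K} {ℓ e C0 : ℕ} (hℓ : 1 ≤ ℓ)
    (hdeg : f.natDegree = ℓ ^ e)
    (h : ∀ (n : ℕ) (x : AlgebraicClosure K),
      (fun y => aeval y f)^[n] x = algebraMap K (AlgebraicClosure K) β →
      ℓ ^ (e * n + 1) ≤ C0 * (minpoly K x).natDegree) : EventuallyStable f 1 β := by
  classical
  refine ⟨C0, fun n => ?_⟩
  obtain ⟨S, hS⟩ : ∃ S : Set K[X], S = {g : K[X] | ∃ x : AlgebraicClosure K,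
    (rat f 1 (AlgebraicClosure K))^[n] (some x) =
    some (algebraMap K (AlgebraicClosure K) β) ∧ g = minpoly K x} := ⟨_, rfl⟩
  rw [← hS]
  by_cases hfin : S.Finite
  · rw [Set.ncard_eq_toFinset_card _ hfin]
    obtain ⟨s, hs⟩ : ∃ s, s = hfin.toFinset := ⟨_, rfl⟩
    rw [← hs]
    have hmem : ∀ g ∈ s, ∃ x : AlgebraicClosure K,
        (fun y => aeval y f)^[n] x = algebraMap K (AlgebraicClosure K) β ∧ g = minpoly K x := by
      intro g hg
      rw [hs, Set.Finite.mem_toFinset, hS] at hg
      obtain ⟨x, hx, rfl⟩ := hg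
      rw [rat_one, Option.some_inj] at hx
      exact ⟨x, hx, rfl⟩
    have hmon : ∀ g ∈ s, g.Monic := by
      intro g hg
      obtain ⟨x, _, rfl⟩ := hmem g hg
      exact minpoly.monic (Algebra.IsIntegral.isIntegral x)
    have hirr : ∀ g ∈ s, Irreducible g := by
      intro g hg
      obtain ⟨x, _, rfl⟩ := hmem g hg
      exact minpoly.irreducible (Algebra.IsIntegral.isIntegral x)
    have hlow : ∀ g ∈ s, ℓ ^ (e * n + 1) ≤ C0 * g.natDegree := by
      intro g hg
      obtain ⟨x, hx, rfl⟩ := hmem g hg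
      exact h n x hx
    obtain ⟨F, hF⟩ : ∃ F, F = (f.comp)^[n] X - C β := ⟨_, rfl⟩
    have hFdeg' : ((f.comp)^[n] X).natDegree = ℓ ^ (e * n) := by
      have : ∀ j, ((f.comp)^[j] X).natDegree = ℓ ^ (e * j) := by
        intro j
        induction j with
        | zero => simp
        | succ j ih =>
          rw [Function.iterate_succ_apply', natDegree_comp, ih, hdeg, ← pow_add, mul_add, mul_one,
            add_comm]
      exact this n
    have hFdeg : F.natDegree = ℓ ^ (e * n) := by
      rw [hF, natDegree_sub_C, hFdeg']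
    have hF0 : F ≠ 0 := by
      intro h0
      rw [h0, natDegree_zero] at hFdeg
      have : 0 < ℓ ^ (e * n) := by positivity
      omega
    have hdvd : ∀ g ∈ s, g ∣ F := by
      intro g hg
      obtain ⟨x, hx, rfl⟩ := hmem g hg
      apply minpoly.dvd
      rw [hF, map_sub, aeval_C, ← hx, sub_eq_zero]
      have h3 : aeval x ((f.comp)^[n] X) = (((f.map (algebraMap K (AlgebraicClosure K))).comp)^[n]
          X).eval x := by
        rw [← map_iter, eval_map_algebraMap]
      rw [h3, iterate_comp_eval, eval_X]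
      congr 1
      funext y
      rw [eval_map_algebraMap]
    have hprod : ∏ g ∈ s, g ∣ F := by
      refine Finset.prod_dvd_of_coprime ?_ hdvd
      intro g hg g' hg' hne
      refine (hirr g hg).coprime_iff_not_dvd.2 ?_
      intro hd
      apply hne
      exact eq_of_monic_of_associated (hmon g hg) (hmon g' hg')
        ((hirr g hg).associated_of_dvd (hirr g' hg') hd)
    have hsum : ∑ g ∈ s, g.natDegree ≤ ℓ ^ (e * n) := by
      rw [← natDegree_prod_of_monic s (fun g => g) hmon, ← hFdeg]
      exact natDegree_le_of_dvd hprod hF0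
    have hcard : s.card * ℓ ^ (e * n + 1) ≤ C0 * ℓ ^ (e * n) := by
      calc s.card * ℓ ^ (e * n + 1) = ∑ g ∈ s, ℓ ^ (e * n + 1) := by
            rw [Finset.sum_const, smul_eq_mul]
        _ ≤ ∑ g ∈ s, C0 * g.natDegree := Finset.sum_le_sum hlow
        _ = C0 * ∑ g ∈ s, g.natDegree := by rw [Finset.mul_sum]
        _ ≤ C0 * ℓ ^ (e * n) := Nat.mul_le_mul_left _ hsum
    have hpos : 0 < ℓ ^ (e * n) := by positivity
    have h1 : s.card * ℓ ≤ C0 := by
      have h2 : (s.card * ℓ) * ℓ ^ (e * n) ≤ C0 * ℓ ^ (e * n) := by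
        calc (s.card * ℓ) * ℓ ^ (e * n) = s.card * ℓ ^ (e * n + 1) := by rw [pow_succ]; ring
          _ ≤ _ := hcard
      exact Nat.le_of_mul_le_mul_right h2 hpos
    calc s.card = s.card * 1 := (mul_one _).symm
      _ ≤ s.card * ℓ := Nat.mul_le_mul_left _ hℓ
      _ ≤ C0 := h1
  · have : S.ncard = 0 := Set.Infinite.ncard hfin
    omega

/-- Dickson (Chebyshev) reduction of prime power degree implies eventual stability -/
theorem dick_stable {K : Type} [Field K] [NumberField K] (v : HeightOneSpectrum (𝓞 K)) {f : K[X]}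
    {β : K} {ℓ e : ℕ} (hℓ : ℓ.Prime) (hv : v.valuation K (ℓ : K) = 1)
    (hdeg : f.natDegree = ℓ ^ e) (hlc : v.valuation K f.leadingCoeff = 1)
    (hred : ∀ i, v.valuation K ((f - dickson 1 (1 : K) (ℓ ^ e)).coeff i) < 1)
    (hβ : v.valuation K β ≤ 1) (hcrit : (derivative f).eval β = 0) :
    EventuallyStable f 1 β := by
  obtain ⟨C0, hC⟩ := dick_lower v hℓ hv hdeg hlc hred hβ hcrit
  exact es_of_lower hℓ.one_le hdeg hC

end Pool.Agent.H42.QP
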