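import Mathlib

/-! ROW Unit (helper5). Unit exception. `q` prime, `c ≠ 0` in the number field `K`, all absolute values finite:
`u = 1 + q / c = (c + q) / c` has `v u = 1` for every `v`:
 * `v q = 1`: `1 ≤ v c`, `1 ≤ v (c + q)`. If `1 < v c` then `v (c + q) = v c`. If `v c = 1` then `v (c + q) ≤ 1`, so `= 1 = v c`.
 * `v q < 1`: `1 < v c`, so `v (c + q) = v c`.
So `u` is a unit. Infinite order: choose `v` with `v q < 1`; then `u ≠ 1` and `v (u - 1) < v q`. For a prime `r`,
`u ^ r - 1 = (u - 1) S`, `S = ∑_{i<r} u ^ i`, `v (S - r) ≤ v (u - 1) < v q ≤ v r`, so `v S = v r ≠ 0`: the two properties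
pass from `u` to `u ^ r`, hence to all powers `u ^ n`, `n ≥ 1`. -/

set_option autoImplicit false

open NumberField IsDedekindDomain

namespace Pool.Agent.H42.QP

private theorem unit_int_le {K : Type} [Field K] [NumberField K] (v : HeightOneSpectrum (𝓞 K)) (n : ℤ) :
    v.valuation K (n : K) ≤ 1 := by
  have h := v.valuation_le_one (K := K) (n : 𝓞 K)
  simpa using h

private theorem unit_exists {K : Type} [Field K] [NumberField K] {q : ℕ} (hq : q.Prime) :
    ∃ v : HeightOneSpectrum (𝓞 K), v.valuation K (q : K) < 1 := by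
  by_contra hcon
  push Not at hcon
  have h1 : ∀ v : HeightOneSpectrum (𝓞 K), v.valuation K ((q : K)⁻¹) ≤ 1 := by
    intro v
    have h3 := unit_int_le v (q : ℤ)
    rw [Int.cast_natCast] at h3
    rw [map_inv₀, le_antisymm h3 (hcon v), inv_one]
  obtain ⟨z, hz⟩ := HeightOneSpectrum.mem_integers_of_valuation_le_one K _ h1
  have h5 : IsIntegral ℤ ((q : K)⁻¹) := by
    rw [← hz]
    exact RingOfIntegers.isIntegral_coe z
  have h6 : IsIntegral ℤ ((q : ℚ)⁻¹) := by
    have h7 : (algebraMap ℚ K) ((q : ℚ)⁻¹) = (q : K)⁻¹ := by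
      rw [map_inv₀, map_natCast]
    rw [← h7] at h5
    exact (isIntegral_algebraMap_iff (algebraMap ℚ K).injective).1 h5
  obtain ⟨y, hy⟩ := IsIntegrallyClosed.isIntegral_iff.1 h6
  have hq0 : (q : ℚ) ≠ 0 := by exact_mod_cast hq.ne_zero
  have h8 : (y : ℚ) * (q : ℚ) = 1 := by
    have h9 : (y : ℚ) = (q : ℚ)⁻¹ := hy
    rw [h9, inv_mul_cancel₀ hq0]
  have h9 : y * (q : ℤ) = 1 := by exact_mod_cast h8
  have h10 : (q : ℤ) ∣ 1 := ⟨y, by rw [mul_comm]; exact h9.symm⟩
  have h11 : q ∣ 1 := by exact_mod_cast h10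
  exact hq.one_lt.ne' (Nat.dvd_one.1 h11)

private theorem unit_step {K : Type} [Field K] [CharZero K] {G : Type} [LinearOrderedCommGroupWithZero G]
    (v : Valuation K G) {q : ℕ} (hq : q.Prime) (hv : ∀ n : ℤ, v (n : K) ≤ 1) (hvq : v (q : K) < 1)
    {r : ℕ} (hr : r.Prime) {u : K} (hu : v (u - 1) < v (q : K)) (hu1 : u ≠ 1) :
    v (u ^ r - 1) < v (q : K) ∧ u ^ r ≠ 1 := by
  have hu0 : v u ≤ 1 := by
    have e : u = 1 + (u - 1) := by ring
    rw [e]
    refine (v.map_add _ _).trans (max_le (by rw [map_one]) ((hu.trans hvq).le))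
  have hpow : ∀ i : ℕ, v (u ^ i - 1) ≤ v (u - 1) := by
    intro i
    induction i with
    | zero => simp
    | succ i ih =>
      have e : u ^ (i + 1) - 1 = u ^ i * (u - 1) + (u ^ i - 1) := by ring
      rw [e]
      refine (v.map_add _ _).trans (max_le ?_ ih)
      rw [map_mul, map_pow]
      exact mul_le_of_le_one_left' (pow_le_one' hu0 i)
  set S : K := ∑ i ∈ Finset.range r, u ^ i with hS
  have hSr : v (S - r) ≤ v (u - 1) := by
    have e : S - r = ∑ i ∈ Finset.range r, (u ^ i - 1) := by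
      rw [Finset.sum_sub_distrib, Finset.sum_const, Finset.card_range, nsmul_eq_mul, mul_one]
    rw [e]
    exact v.map_sum_le fun i _ => hpow i
  have hrq : v (q : K) ≤ v (r : K) := by
    by_cases h : r = q
    · rw [h]
    · have hcop : IsCoprime (r : ℤ) (q : ℤ) := by
        rw [Nat.isCoprime_iff_coprime]
        exact (Nat.coprime_primes hr hq).2 h
      obtain ⟨a, b, hab⟩ := hcop
      have h1 : (a : K) * (r : K) + (b : K) * (q : K) = 1 := by exact_mod_cast congrArg (fun t : ℤ => (t : K)) hab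
      by_contra hlt
      push Not at hlt
      have h2 : v ((a : K) * (r : K)) < 1 := by
        rw [map_mul]
        exact (mul_le_of_le_one_left' (hv a)).trans_lt (hlt.trans hvq)
      have h3 : v ((b : K) * (q : K)) < 1 := by
        rw [map_mul]
        exact (mul_le_of_le_one_left' (hv b)).trans_lt hvq
      have h4 := v.map_add_lt h2 h3
      rw [h1, map_one] at h4
      exact lt_irrefl _ h4
  have hr0 : v (r : K) ≠ 0 := by
    rw [Valuation.ne_zero_iff]
    exact_mod_cast hr.ne_zero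
  have hSv : v S = v (r : K) := Valuation.map_eq_of_sub_lt v ((hSr.trans_lt hu).trans_le hrq)
  have hmul : u ^ r - 1 = S * (u - 1) := (geom_sum_mul u r).symm
  have hr1 : v (r : K) ≤ 1 := by
    have h := hv (r : ℤ)
    rw [Int.cast_natCast] at h
    exact h
  refine ⟨?_, ?_⟩
  · rw [hmul, map_mul, hSv]
    exact (mul_le_of_le_one_left' hr1).trans_lt hu
  · intro h
    have h1 : S * (u - 1) = 0 := by rw [← hmul, h, sub_self]
    rcases mul_eq_zero.1 h1 with h2 | h2
    · rw [h2, map_zero] at hSv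
      exact hr0 hSv.symm
    · exact hu1 (sub_eq_zero.1 h2)

private theorem unit_pow {K : Type} [Field K] [CharZero K] {G : Type} [LinearOrderedCommGroupWithZero G]
    (v : Valuation K G) {q : ℕ} (hq : q.Prime) (hv : ∀ n : ℤ, v (n : K) ≤ 1) (hvq : v (q : K) < 1)
    (n : ℕ) : 1 ≤ n → ∀ u : K, v (u - 1) < v (q : K) → u ≠ 1 → v (u ^ n - 1) < v (q : K) ∧ u ^ n ≠ 1 := by
  induction n using Nat.recOnMul with
  | zero => intro h; omega
  | one => intro _ u h1 h2; rw [pow_one]; exact ⟨h1, h2⟩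
  | prime p hp => intro _ u h1 h2; exact unit_step v hq hv hvq hp h1 h2
  | mul a b iha ihb =>
    intro h u h1 h2
    have ha : 1 ≤ a := Nat.one_le_iff_ne_zero.2 (fun h0 => by rw [h0, zero_mul] at h; omega)
    have hb : 1 ≤ b := Nat.one_le_iff_ne_zero.2 (fun h0 => by rw [h0, mul_zero] at h; omega)
    obtain ⟨h3, h4⟩ := iha ha u h1 h2
    obtain ⟨h5, h6⟩ := ihb hb (u ^ a) h3 h4
    rw [pow_mul]
    exact ⟨h5, h6⟩

theorem unit_of_bad {K : Type} [Field K] [NumberField K] {q : ℕ} (hq : q.Prime) {c : K}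
    (hc : c ≠ 0)
    (h1 : ∀ v : HeightOneSpectrum (𝓞 K), v.valuation K (q : K) = 1 → 1 ≤ v.valuation K c)
    (h2 : ∀ v : HeightOneSpectrum (𝓞 K), v.valuation K (q : K) < 1 → 1 < v.valuation K c)
    (h3 : ∀ v : HeightOneSpectrum (𝓞 K), v.valuation K (q : K) = 1 →
      1 ≤ v.valuation K (c + q)) :
    ∃ u : (𝓞 K)ˣ, ((u : 𝓞 K) : K) = 1 + q / c ∧ ∀ n : ℕ, 1 ≤ n → u ^ n ≠ 1 := by
  have hq0 : (q : K) ≠ 0 := by exact_mod_cast hq.ne_zero
  have hvle : ∀ v : HeightOneSpectrum (𝓞 K), v.valuation K (q : K) ≤ 1 := by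
    intro v
    have h := unit_int_le v (q : ℤ)
    rw [Int.cast_natCast] at h
    exact h
  have hval : ∀ v : HeightOneSpectrum (𝓞 K), v.valuation K (c + q) = v.valuation K c := by
    intro v
    rcases (hvle v).lt_or_eq with h | h
    · exact Valuation.map_add_eq_of_lt_left _ (h.trans (h2 v h))
    · rcases (h1 v h).lt_or_eq with h4 | h4
      · exact Valuation.map_add_eq_of_lt_left _ (by rw [h]; exact h4)
      · refine le_antisymm ?_ ?_
        · rw [← h4]
          refine ((v.valuation K).map_add _ _).trans (max_le h4.symm.le (hvle v))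
        · rw [← h4]
          exact h3 v h
  have hcv : ∀ v : HeightOneSpectrum (𝓞 K), v.valuation K c ≠ 0 := fun v =>
    (Valuation.ne_zero_iff _).2 hc
  set x : K := 1 + q / c with hx
  have hxc : x = (c + q) / c := by
    rw [hx]
    field_simp
  have hxv : ∀ v : HeightOneSpectrum (𝓞 K), v.valuation K x = 1 := by
    intro v
    rw [hxc, map_div₀, hval v, div_self (hcv v)]
  have hx0 : x ≠ 0 := by
    obtain ⟨v, -⟩ := unit_exists (K := K) hq
    intro h
    have h4 := hxv v
    rw [h, map_zero] at h4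
    exact zero_ne_one h4
  obtain ⟨z, hz⟩ := HeightOneSpectrum.mem_integers_of_valuation_le_one K x fun v => (hxv v).le
  obtain ⟨z', hz'⟩ := HeightOneSpectrum.mem_integers_of_valuation_le_one K x⁻¹ fun v => by
    rw [map_inv₀, hxv v, inv_one]
  have hzz : z * z' = 1 := by
    apply FaithfulSMul.algebraMap_injective (𝓞 K) K
    rw [map_mul, hz, hz', map_one, mul_inv_cancel₀ hx0]
  refine ⟨Units.mkOfMulEqOne z z' hzz, hz, fun n hn hun => ?_⟩
  obtain ⟨v, hv⟩ := unit_exists (K := K) hq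
  have h4 : v.valuation K (x - 1) < v.valuation K (q : K) := by
    have e : x - 1 = q * c⁻¹ := by
      rw [hx]
      field_simp
      ring
    rw [e, map_mul, map_inv₀]
    have h5 : (v.valuation K c)⁻¹ < 1 := inv_lt_one_of_one_lt₀ (h2 v hv)
    have h6 : v.valuation K (q : K) ≠ 0 := (Valuation.ne_zero_iff _).2 hq0
    exact mul_lt_of_lt_one_right (zero_lt_iff.2 h6) h5
  have h5 : x ≠ 1 := by
    intro h
    have e : (q : K) / c = 0 := by
      have : (1 : K) + q / c = 1 := by rw [← hx, h]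
      linear_combination this
    rcases div_eq_zero_iff.1 e with h6 | h6
    · exact hq0 h6
    · exact hc h6
  have h6 := (unit_pow (v.valuation K) hq (fun n => unit_int_le v n) hv n hn x h4 h5).2
  apply h6
  have h7 := congrArg (fun w : (𝓞 K)ˣ => algebraMap (𝓞 K) K (w : 𝓞 K)) hun
  simp only [Units.val_pow_eq_pow_val, Units.val_mkOfMulEqOne, map_pow, Units.val_one, map_one] at h7
  rw [hz] at h7
  exact h7

end Pool.Agent.H42.QP
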