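import Pool.Agent.H42.QP.Cub
import Pool.Agent.H42.QP.DickD
import Pool.Agent.H42.QP.Unit

/-! ROW Cub2 (helper71). Model: `quad_stab` in Quad.lean (same structure, `q = 2`). `p = X^3 + C a * X`, `3 β^2 = -a`, `a ≠ 0`.
 * Case A: some `v` with `v 3 = 1`, `v a < 1`: LocalCondition first alternative: `v (β)^2 = v a < 1`, so `v β < 1`; `(p - C β).comp (X + C β) =
   X^3 + 3 β X^2 + (3 β^2 + a) X + (β^3 + a β - β)`, coefficients of degree `< 3` of value `< 1` (`3 β^2 + a = 0`).
 * Case B: some `v` with `v 3 < 1`, `v a ≤ 1`. If `v β ≤ 1` then `v a = v 3 * v β ^ 2 < 1`: alternative (b) with `l = 3`, `r = 1` (coefficients of degree `1 ≤ i < 3`: `a` and `0`).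
   If `1 < v β`: alternative (c).
 * Case C: some `v` with `v 3 = 1`, `v (a + 3) < 1`: `dick_stable` (DickD) with `ℓ = 3`, `e = 1`: `dickson 1 1 3 = X^3 - 3 X` (dickson_add_two, dickson_two, dickson_one), so
   `p - dickson = C (a + 3) * X`. `v β ≤ 1` as `v (β)^2 = v a ≤ 1`.
 * Otherwise `unit_of_bad` (Unit.lean) with `q = 3`, `c = a` contradicts `hu`. -/

set_option autoImplicit false

open Polynomial NumberField IsDedekindDomain

namespace Pool.Agent.H42.QP

section cubic

variable {K : Type} [Field K] [NumberField K]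

private theorem cub2_deg (a : K) : (X ^ 3 + C a * X : K[X]).natDegree = 3 := by
  compute_degree!

private theorem cub2_lc (a : K) : (X ^ 3 + C a * X : K[X]).leadingCoeff = 1 := by
  rw [leadingCoeff, cub2_deg, coeff_add, coeff_X_pow, coeff_C_mul, coeff_X]
  norm_num

private theorem cub2_coeff (a : K) (i : ℕ) :
    (X ^ 3 + C a * X : K[X]).coeff i = (if i = 3 then 1 else 0) + if i = 1 then a else 0 := by
  rw [coeff_add, coeff_X_pow, coeff_C_mul, coeff_X]
  by_cases h : i = 1
  · subst h
    simp
  · rw [if_neg h, if_neg (Ne.symm h), mul_zero]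

private theorem cub2_int (v : HeightOneSpectrum (𝓞 K)) {a : K} (ha : v.valuation K a ≤ 1) (i : ℕ) :
    v.valuation K ((X ^ 3 + C a * X : K[X]).coeff i) ≤ 1 := by
  rw [cub2_coeff]
  refine (v.valuation K).map_add_le ?_ ?_
  · split_ifs <;> simp
  · split_ifs
    · exact ha
    · simp

private theorem cub2_one (v : HeightOneSpectrum (𝓞 K)) (i : ℕ) :
    v.valuation K ((1 : K[X]).coeff i) ≤ 1 := by
  rw [coeff_one]
  split_ifs <;> simp

private theorem cub2_val (v : HeightOneSpectrum (𝓞 K)) {a β : K} (hβ : 3 * β ^ 2 + a = 0) :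
    v.valuation K a = v.valuation K ((3 : ℕ) : K) * v.valuation K β ^ 2 := by
  have h1 : a = -(((3 : ℕ) : K) * β ^ 2) := by
    push_cast
    linear_combination hβ
  rw [h1, Valuation.map_neg, map_mul, map_pow]

private theorem cub2_sq {G : Type} [LinearOrderedCommGroupWithZero G] {x : G} (h : x ^ 2 < 1) :
    x < 1 := by
  by_contra hc
  exact absurd h (not_lt.2 (one_le_pow₀ (not_lt.1 hc)))

private theorem cub2_sq' {G : Type} [LinearOrderedCommGroupWithZero G] {x : G} (h : x ^ 2 ≤ 1) :
    x ≤ 1 := by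
  by_contra hc
  exact absurd h (not_le.2 (one_lt_pow₀ (not_le.1 hc) (by norm_num)))

theorem cubic_stab {K : Type} [Field K] [NumberField K] {a β : K} (hβ : 3 * β ^ 2 + a = 0)
    (ha : a ≠ 0)
    (hu : ∀ u : (𝓞 K)ˣ, ((u : 𝓞 K) : K) = 1 + 3 / a → ∃ n : ℕ, 1 ≤ n ∧ u ^ n = 1) :
    EventuallyStable (X ^ 3 + C a * X) 1 β ∨ LocalCondition (X ^ 3 + C a * X) 1 β := by
  by_cases hA : ∃ v : HeightOneSpectrum (𝓞 K), v.valuation K ((3 : ℕ) : K) = 1 ∧
      v.valuation K a < 1
  · obtain ⟨v, hv3, hv⟩ := hA
    have hb : v.valuation K β < 1 := by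
      apply cub2_sq
      have h := cub2_val v hβ
      rw [hv3, one_mul] at h
      rwa [← h]
    refine Or.inr ⟨v, cub2_int v hv.le, cub2_one v, ?_, Or.inl ⟨hb.le, ?_, ?_⟩⟩
    · rw [cub2_lc, map_one]
    · simp
    · intro i hi
      rw [cub2_deg] at hi
      have h1 : (X ^ 3 + C a * X - C β * 1 : K[X]).comp (X + C β) =
          X ^ 3 + C (3 * β) * X ^ 2 + C (β ^ 3 + a * β - β) := by
        have h2 : a = -(3 * β ^ 2) := by linear_combination hβ
        subst h2
        simp only [sub_comp, add_comp, mul_comp, pow_comp, X_comp, C_comp, one_comp, map_add,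
          map_sub, map_mul, map_pow, map_neg, neg_comp]
        rw [show (C (3 : K) : K[X]) = 3 from rfl]
        ring
      rw [h1, coeff_add, coeff_add, coeff_X_pow, coeff_C_mul, coeff_X_pow, coeff_C,
        if_neg (by omega), zero_add]
      refine (v.valuation K).map_add_lt ?_ ?_
      · split_ifs
        · rw [mul_one, map_mul]
          have h3 : v.valuation K (3 : K) = 1 := by
            rw [← hv3]
            norm_cast
          rw [h3, one_mul]
          exact hb
        · simp
      · split_ifs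
        · have h4 : v.valuation K (β ^ 3) < 1 := by
            rw [map_pow]
            exact pow_lt_one₀ zero_le' hb (by norm_num)
          have h5 : v.valuation K (a * β) < 1 := by
            rw [map_mul]
            exact mul_lt_one_of_lt_of_le hv hb.le
          exact (v.valuation K).map_sub_lt ((v.valuation K).map_add_lt h4 h5) hb
        · simp
  by_cases hB : ∃ v : HeightOneSpectrum (𝓞 K), v.valuation K ((3 : ℕ) : K) < 1 ∧
      v.valuation K a ≤ 1
  · obtain ⟨v, hv3, hv⟩ := hB
    have ho : ∀ i, 1 ≤ i → v.valuation K ((1 : K[X]).coeff i) < 1 := by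
      intro i hi
      rw [coeff_one, if_neg (by omega)]
      simp
    refine Or.inr ⟨v, cub2_int v hv, cub2_one v, ?_, Or.inr ⟨?_, ho, ?_⟩⟩
    · rw [cub2_lc, map_one]
    · simp
    · by_cases hb : v.valuation K β ≤ 1
      · refine Or.inl ⟨hb, ?_, 3, 1, Nat.prime_three, ?_, hv3⟩
        · intro i hi hi2
          rw [cub2_deg] at hi2
          rw [cub2_coeff, if_neg (by omega), zero_add]
          split_ifs
          · rw [cub2_val v hβ]
            exact mul_lt_one_of_lt_of_le hv3 (pow_le_one₀ zero_le' hb)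
          · simp
        · rw [cub2_deg, pow_one]
      · exact Or.inr (not_le.1 hb)
  by_cases hC : ∃ v : HeightOneSpectrum (𝓞 K), v.valuation K ((3 : ℕ) : K) = 1 ∧
      v.valuation K (a + (3 : ℕ)) < 1
  · obtain ⟨v, hv3, hv⟩ := hC
    have hva : v.valuation K a ≤ 1 := by
      have h1 : a = (a + (3 : ℕ)) - (3 : ℕ) := by ring
      rw [h1]
      exact (v.valuation K).map_sub_le hv.le hv3.le
    have hb : v.valuation K β ≤ 1 := by
      apply cub2_sq'
      have h := cub2_val v hβ
      rw [hv3, one_mul] at h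
      rwa [← h]
    refine Or.inl (dick_stable v (ℓ := 3) (e := 1) Nat.prime_three hv3 ?_ ?_ ?_ hb ?_)
    · rw [cub2_deg, pow_one]
    · rw [cub2_lc, map_one]
    · intro i
      have h1 : (X ^ 3 + C a * X - dickson 1 (1 : K) (3 ^ 1) : K[X]) = C (a + (3 : ℕ)) * X := by
        rw [pow_one, show 3 = 1 + 2 from rfl, dickson_add_two, dickson_two, dickson_one]
        rw [map_one, map_add]
        rw [show (C ((3 : ℕ) : K) : K[X]) = 3 from map_natCast C 3]
        push_cast
        ring
      rw [h1, coeff_C_mul, coeff_X]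
      split_ifs
      · rw [mul_one]
        exact hv
      · simp
    · simp
      linear_combination hβ
  · exfalso
    push Not at hA hB hC
    obtain ⟨u, hu1, hu2⟩ := unit_of_bad (K := K) Nat.prime_three ha
      (fun v hv => hA v hv) (fun v hv => hB v hv) (fun v hv => hC v hv)
    obtain ⟨n, hn, hun⟩ := hu u (by rw [hu1]; push_cast; rfl)
    exact hu2 n hn hun

end cubic

end Pool.Agent.H42.QP
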