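import Mathlib

/-! Finite field part: the points `ξ` with `D_{ℓ^(e n)}(ξ) = z0 + 1/z0` have large degree. -/

set_option autoImplicit false

open Polynomial

namespace Pool.Agent.H42.QP

/-- lifting the exponent, as an inequality -/
theorem lte_ineq {ℓ N s m : ℕ} (hℓ : ℓ.Prime) (hN : ¬ ℓ ∣ N) (hN2 : 2 ≤ N) (hm : 1 ≤ m)
    (h : ℓ ^ s ∣ N ^ (2 * m) - 1) : ℓ ^ s ≤ (N ^ (2 * (ℓ - 1)) - 1) * m := by
  have : Fact ℓ.Prime := ⟨hℓ⟩
  have hl2 := hℓ.two_le
  have hcop : Nat.Coprime N ℓ := ((Nat.Prime.coprime_iff_not_dvd hℓ).2 hN).symm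
  set A := N ^ (2 * (ℓ - 1)) with hA
  have hA1 : 1 < A := Nat.one_lt_pow (by omega) (by omega)
  have hAl : ℓ ∣ A - 1 := by
    have h1 : N ^ (ℓ - 1) ≡ 1 [MOD ℓ] := by
      have := Nat.ModEq.pow_totient hcop
      rwa [Nat.totient_prime hℓ] at this
    have h2 : A ≡ 1 [MOD ℓ] := by
      have := h1.pow 2
      rw [← pow_mul, one_pow, mul_comm] at this
      exact this
    exact (Nat.modEq_iff_dvd' hA1.le).1 h2.symm
  have hdvd : ℓ ^ s ∣ A ^ m - 1 := by
    refine h.trans ?_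
    have h1 : A ^ m = (N ^ (2 * m)) ^ (ℓ - 1) := by
      rw [hA, ← pow_mul, ← pow_mul]
      congr 1
      ring
    rw [h1]
    simpa using Nat.sub_dvd_pow_sub_pow (N ^ (2 * m)) 1 (ℓ - 1)
  have hnl : ¬ ℓ ∣ A := by
    intro h1
    exact hN (hℓ.dvd_of_dvd_pow h1)
  have hne : A ^ m - 1 ≠ 0 := by
    have : 1 < A ^ m := Nat.one_lt_pow (by omega) hA1
    omega
  have hv : padicValNat ℓ (A ^ m - 1) = padicValNat ℓ (A - 1) + padicValNat ℓ m := by
    rcases hℓ.eq_two_or_odd' with rfl | hodd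
    · have hA' : A = N ^ 2 := by rw [hA]
      have h1 : A ^ m - 1 = N ^ (2 * m) - 1 ^ (2 * m) := by
        rw [hA', ← pow_mul, one_pow]
      have hNodd : ¬ 2 ∣ N := hN
      have hN1 : 2 ∣ N - 1 := by omega
      have h2 := padicValNat.pow_two_sub_pow (x := N) (y := 1) (by omega) hN1 hNodd
        (n := 2 * m) (by omega) (even_two_mul m)
      have h3 := padicValNat.pow_two_sub_pow (x := N) (y := 1) (by omega) hN1 hNodd
        (n := 2) (by omega) even_two
      rw [h1]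
      have h4 : padicValNat 2 (2 * m) = 1 + padicValNat 2 m := by
        rw [padicValNat.mul (by omega) (by omega), padicValNat_self]
      have h5 : A - 1 = N ^ 2 - 1 ^ 2 := by rw [hA', one_pow]
      rw [h5]
      have h6 : padicValNat 2 2 = 1 := padicValNat_self
      omega
    · have h1 := padicValNat.pow_sub_pow (p := ℓ) hodd (x := A) (y := 1) hA1 hAl hnl (n := m)
        (by omega)
      simpa using h1
  have h1 : s ≤ padicValNat ℓ (A ^ m - 1) := (padicValNat_dvd_iff_le hne).1 hdvd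
  rw [hv] at h1
  have h2 : ℓ ^ padicValNat ℓ (A - 1) ≤ A - 1 :=
    Nat.le_of_dvd (by omega) pow_padicValNat_dvd
  have h3 : ℓ ^ padicValNat ℓ m ≤ m := Nat.le_of_dvd (by omega) pow_padicValNat_dvd
  calc ℓ ^ s ≤ ℓ ^ (padicValNat ℓ (A - 1) + padicValNat ℓ m) :=
        Nat.pow_le_pow_right (by omega) h1
    _ = ℓ ^ padicValNat ℓ (A - 1) * ℓ ^ padicValNat ℓ m := pow_add _ _ _
    _ ≤ (A - 1) * m := Nat.mul_le_mul h2 h3

theorem inv_eq_of_add {F : Type} [Field F] {a b : F} (ha : a ≠ 0) (hb : b ≠ 0)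
    (h : a + a⁻¹ = b + b⁻¹) : a = b ∨ a = b⁻¹ := by
  have h1 : (a - b) * (a - b⁻¹) = 0 := by
    have h2 : a * a + 1 = (b + b⁻¹) * a := by
      rw [← h]
      field_simp
    have h3 : (a - b) * (a - b⁻¹) = a * a + 1 - (b + b⁻¹) * a := by
      have : b * b⁻¹ = 1 := mul_inv_cancel₀ hb
      linear_combination (1 : F) * this
    rw [h3, h2, sub_self]
  rcases mul_eq_zero.1 h1 with h2 | h2
  · exact Or.inl (sub_eq_zero.1 h2)
  · exact Or.inr (sub_eq_zero.1 h2)

/-- every element of an algebraically closed field is `z + 1/z` -/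
theorem exists_add_inv {F : Type} [Field F] [IsAlgClosed F] (ξ : F) :
    ∃ z : F, z ≠ 0 ∧ ξ = z + z⁻¹ := by
  have hdeg : (X ^ 2 - C ξ * X + 1 : F[X]).degree = 2 := by
    have : (X ^ 2 - C ξ * X + 1 : F[X]) = C 1 * X ^ 2 + C (-ξ) * X + C 1 := by
      simp only [C_neg, map_one]
      ring
    rw [this]
    exact degree_quadratic one_ne_zero
  obtain ⟨z, hz⟩ := IsAlgClosed.exists_root (X ^ 2 - C ξ * X + 1 : F[X]) (by rw [hdeg]; decide)
  have hz' : z ^ 2 - ξ * z + 1 = 0 := by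
    simpa [IsRoot, eval_add, eval_sub, eval_mul] using hz
  have hz0 : z ≠ 0 := by
    rintro rfl
    simp at hz'
  refine ⟨z, hz0, ?_⟩
  field_simp
  linear_combination -hz'

/-- an element of degree `m` over a finite field of `N` elements is fixed by `x ↦ x ^ (N ^ m)` -/
theorem pow_card_pow {k : Type} [Field k] [Finite k] (ξ : AlgebraicClosure k) :
    ξ ^ (Nat.card k ^ (minpoly k ξ).natDegree) = ξ := by
  classical
  have hint : IsIntegral k ξ := Algebra.IsIntegral.isIntegral ξ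
  have : FiniteDimensional k (IntermediateField.adjoin k {ξ}) :=
    IntermediateField.adjoin.finiteDimensional hint
  have : Finite (IntermediateField.adjoin k {ξ}) := Module.finite_of_finite k
  have : Fintype (IntermediateField.adjoin k {ξ}) := Fintype.ofFinite _
  have h1 : Nat.card (IntermediateField.adjoin k {ξ}) =
      Nat.card k ^ (minpoly k ξ).natDegree := by
    rw [Module.natCard_eq_pow_finrank (K := k), IntermediateField.adjoin.finrank hint]
  have h2 := FiniteField.pow_card (IntermediateField.AdjoinSimple.gen k ξ)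
  rw [← Nat.card_eq_fintype_card, h1] at h2
  have h3 := congrArg (fun y : IntermediateField.adjoin k {ξ} => (y : AlgebraicClosure k)) h2
  simpa using h3

theorem core {k : Type} [Field k] [Finite k] {ℓ e : ℕ} (hℓ : ℓ.Prime) (hk : (ℓ : k) ≠ 0)
    {z0 : AlgebraicClosure k} (h1 : z0 ^ (2 * ℓ ^ e) = 1) (h2 : z0 ^ 2 ≠ 1) (n : ℕ)
    {ξ : AlgebraicClosure k}
    (hξ : (dickson 1 (1 : AlgebraicClosure k) (ℓ ^ (e * n))).eval ξ = z0 + z0⁻¹) :
    ℓ ^ (e * n + 1) ≤ (Nat.card k ^ (2 * (ℓ - 1)) - 1) * (minpoly k ξ).natDegree := by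
  classical
  have : Fintype k := Fintype.ofFinite k
  have hpos : 0 < ℓ := hℓ.pos
  have hz00 : z0 ≠ 0 := by
    rintro rfl
    rw [zero_pow (by positivity)] at h1
    exact zero_ne_one h1
  obtain ⟨z, hz0, rfl⟩ := exists_add_inv ξ
  rw [dickson_one_one_eval_add_inv z z⁻¹ (mul_inv_cancel₀ hz0), inv_pow] at hξ
  have hM := inv_eq_of_add (pow_ne_zero _ hz0) hz00 hξ
  set m := (minpoly k (z + z⁻¹)).natDegree with hm
  have hm1 : 1 ≤ m := minpoly.natDegree_pos (Algebra.IsIntegral.isIntegral _)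
  set N := Nat.card k with hN
  have hN2 : 2 ≤ N := by
    rw [hN, Nat.card_eq_fintype_card]
    exact Fintype.one_lt_card
  -- Frobenius
  have hfrob : z ^ (N ^ m) + (z ^ (N ^ m))⁻¹ = z + z⁻¹ := by
    have h3 := pow_card_pow (k := k) (z + z⁻¹)
    rw [← hm, ← hN] at h3
    have h4 : ∀ y : AlgebraicClosure k,
        ((FiniteField.frobeniusAlgHom k (AlgebraicClosure k)) ^ m) y = y ^ (N ^ m) := by
      intro y
      have : ∀ j : ℕ, ((FiniteField.frobeniusAlgHom k (AlgebraicClosure k)) ^ j) y =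
          y ^ (N ^ j) := by
        intro j
        induction j with
        | zero => simp
        | succ j ih =>
          rw [pow_succ', AlgHom.mul_apply, ih, FiniteField.coe_frobeniusAlgHom]
          change (y ^ N ^ j) ^ Fintype.card k = _
          rw [← pow_mul, hN, Nat.card_eq_fintype_card, pow_succ]
      exact this m
    rw [← h4, map_add, map_inv₀, h4] at h3
    exact h3
  have hw := inv_eq_of_add (pow_ne_zero _ hz0) hz0 hfrob
  have hNm : 1 ≤ N ^ m := Nat.one_le_pow _ _ (by omega)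
  have hzN : z ^ (N ^ (2 * m) - 1) = 1 := by
    have h5 : z ^ (N ^ m - 1) = 1 ∨ z ^ (N ^ m + 1) = 1 := by
      rcases hw with h | h
      · left
        have : z ^ (N ^ m - 1) * z = 1 * z := by
          rw [← pow_succ, Nat.sub_add_cancel hNm, one_mul, h]
        exact mul_right_cancel₀ hz0 this
      · right
        rw [pow_succ, h, inv_mul_cancel₀ hz0]
    have h6 : N ^ (2 * m) - 1 = (N ^ m + 1) * (N ^ m - 1) := by
      rw [← Nat.sq_sub_sq, one_pow, ← pow_mul, mul_comm m 2]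
    rw [h6]
    rcases h5 with h | h
    · rw [mul_comm, pow_mul, h, one_pow]
    · rw [pow_mul, h, one_pow]
  -- the order of y = z^2
  have hy1 : (z ^ 2) ^ (ℓ ^ (e * n)) ≠ 1 := by
    rw [← pow_mul, mul_comm, pow_mul]
    rcases hM with h | h
    · rw [h]; exact h2
    · rw [h, inv_pow]
      intro h7
      exact h2 (inv_eq_one.1 h7)
  have hy2 : (z ^ 2) ^ (ℓ ^ (e * n + e)) = 1 := by
    have : (z ^ 2) ^ (ℓ ^ (e * n + e)) = (z ^ (ℓ ^ (e * n))) ^ (2 * ℓ ^ e) := by
      rw [← pow_mul, ← pow_mul, pow_add]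
      congr 1
      ring
    rw [this]
    rcases hM with h | h
    · rw [h]; exact h1
    · rw [h, inv_pow, h1, inv_one]
  obtain ⟨j, hj, hoj⟩ := (Nat.dvd_prime_pow hℓ).1 (orderOf_dvd_of_pow_eq_one hy2)
  have hj1 : e * n < j := by
    by_contra hcon
    apply hy1
    rw [← orderOf_dvd_iff_pow_eq_one, hoj]
    exact pow_dvd_pow _ (by omega)
  have hdvd : ℓ ^ (e * n + 1) ∣ N ^ (2 * m) - 1 := by
    refine (pow_dvd_pow ℓ (Nat.succ_le_of_lt hj1)).trans ?_
    rw [← hoj]
    apply orderOf_dvd_of_pow_eq_one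
    rw [← pow_mul, mul_comm, pow_mul, hzN, one_pow]
  have hNl : ¬ ℓ ∣ N := by
    intro h7
    obtain ⟨p, hp⟩ := CharP.exists k
    have := hp
    have : Fact p.Prime := ⟨CharP.char_is_prime k p⟩
    obtain ⟨f, hf⟩ := FiniteField.card k p
    rw [hN, Nat.card_eq_fintype_card, hf.2] at h7
    have h8 := (Nat.prime_dvd_prime_iff_eq hℓ hf.1).1 (hℓ.dvd_of_dvd_pow h7)
    apply hk
    rw [h8]
    exact CharP.cast_eq_zero k p
  exact lte_ineq hℓ hNl hN2 hm1 hdvd

end Pool.Agent.H42.QP
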