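import Mathlib
import Pool.Agent.H42.QP.DickA

/-! Lifting part: roots over `K̄` of a polynomial with Dickson reduction have large degree. -/

set_option autoImplicit false

open Polynomial NumberField IsDedekindDomain

namespace Pool.Agent.H42.QP

section val

variable {K : Type} [Field K] {Γ : Type} [LinearOrderedCommGroupWithZero Γ] (V : Valuation K Γ)

theorem res_zero {a : V.valuationSubring} (h : V (a : K) < 1) :
    IsLocalRing.residue V.valuationSubring a = 0 := by
  rw [IsLocalRing.residue_eq_zero_iff, IsLocalRing.mem_maximalIdeal, mem_nonunits_iff]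
  intro hu
  obtain ⟨u, rfl⟩ := hu
  have h1 : V ((u : V.valuationSubring) : K) * V (((u⁻¹ : (V.valuationSubring)ˣ) :
      V.valuationSubring) : K) = 1 := by
    rw [← map_mul]
    have : ((u : V.valuationSubring) : K) * (((u⁻¹ : (V.valuationSubring)ˣ) :
      V.valuationSubring) : K) = 1 := by
      exact congrArg Subtype.val (Units.mul_inv u)
    rw [this, map_one]
  have h2 : V (((u⁻¹ : (V.valuationSubring)ˣ) : V.valuationSubring) : K) ≤ 1 :=
    (V.mem_valuationSubring_iff _).1 (SetLike.coe_mem _)
  have h3 := mul_lt_one_of_lt_of_le h h2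
  rw [h1] at h3
  exact lt_irrefl _ h3

theorem unit_of_val {a : V.valuationSubring} (h : V (a : K) = 1) : IsUnit a := by
  have ha : (a : K) ≠ 0 := by
    intro h0
    rw [h0, map_zero] at h
    exact zero_ne_one h
  have h1 : (a : K)⁻¹ ∈ V.valuationSubring := by
    rw [V.mem_valuationSubring_iff, map_inv₀, h, inv_one]
  refine IsUnit.of_mul_eq_one ⟨(a : K)⁻¹, h1⟩ ?_
  ext
  simp [ha]

/-- a root over `K̄` gives a root of the reduction of at most the same degree -/
theorem lift_root {F : V.valuationSubring[X]} (hF : IsUnit F.leadingCoeff)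
    {x : AlgebraicClosure K} (hx : aeval x F = 0) :
    ∃ ξ : AlgebraicClosure (IsLocalRing.ResidueField V.valuationSubring),
      aeval ξ (F.map (IsLocalRing.residue V.valuationSubring)) = 0 ∧
      (minpoly (IsLocalRing.ResidueField V.valuationSubring) ξ).natDegree ≤
        (minpoly K x).natDegree := by
  classical
  have hinj : Function.Injective (algebraMap V.valuationSubring (AlgebraicClosure K)) := by
    rw [IsScalarTower.algebraMap_eq V.valuationSubring K (AlgebraicClosure K)]
    exact (FaithfulSMul.algebraMap_injective K (AlgebraicClosure K)).comp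
      (FaithfulSMul.algebraMap_injective V.valuationSubring K)
  have htf : Module.IsTorsionFree V.valuationSubring (AlgebraicClosure K) :=
    Module.isTorsionFree_iff_algebraMap_injective.2 hinj
  obtain ⟨u, hu⟩ := hF
  have hmon : (C ((u⁻¹ : (V.valuationSubring)ˣ) : V.valuationSubring) * F).Monic := by
    rw [Monic, leadingCoeff_mul, leadingCoeff_C, ← hu, Units.inv_mul]
  have hxm : aeval x (C ((u⁻¹ : (V.valuationSubring)ˣ) : V.valuationSubring) * F) = 0 := by
    rw [map_mul, hx, mul_zero]
  have hint : IsIntegral V.valuationSubring x := ⟨_, hmon, by simpa [aeval_def] using hxm⟩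
  obtain ⟨G, hG⟩ : ∃ G, G = minpoly V.valuationSubring x := ⟨_, rfl⟩
  have hGm : G.Monic := hG ▸ minpoly.monic hint
  have hGd : G ∣ F := by
    rw [hG]
    exact minpoly.isIntegrallyClosed_dvd hint hx
  have hGK : minpoly K x = G.map (algebraMap V.valuationSubring K) := by
    rw [hG]
    exact minpoly.isIntegrallyClosed_eq_field_fractions' K hint
  have hdeg : (minpoly K x).natDegree = G.natDegree := by
    rw [hGK]
    exact hGm.natDegree_map _
  have hpos : 0 < G.natDegree := hG ▸ minpoly.natDegree_pos hint
  have hdR : (G.map (IsLocalRing.residue V.valuationSubring)).natDegree = G.natDegree :=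
    hGm.natDegree_map _
  obtain ⟨ξ, hξ⟩ := IsAlgClosed.exists_aeval_eq_zero
    (AlgebraicClosure (IsLocalRing.ResidueField V.valuationSubring))
    (G.map (IsLocalRing.residue V.valuationSubring)) (by
      intro h0
      have := natDegree_eq_of_degree_eq_some (n := 0) (by simpa using h0)
      omega)
  refine ⟨ξ, ?_, ?_⟩
  · obtain ⟨H, hH⟩ := hGd
    rw [hH, Polynomial.map_mul, map_mul, hξ, zero_mul]
  · rw [hdeg, ← hdR]
    refine natDegree_le_of_dvd (minpoly.dvd _ _ hξ) ?_
    exact (hGm.map _).ne_zero

end val

theorem finite_res {K : Type} [Field K] [NumberField K] (v : HeightOneSpectrum (𝓞 K)) :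
    Finite (IsLocalRing.ResidueField (v.valuation K).valuationSubring) := by
  classical
  have hfin : Finite (𝓞 K ⧸ v.asIdeal) := Ring.HasFiniteQuotients.finiteQuotient v.ne_bot
  let φ : 𝓞 K →+* (v.valuation K).valuationSubring :=
    (algebraMap (𝓞 K) K).codRestrict (v.valuation K).valuationSubring.toSubring (fun a => by
      exact ((v.valuation K).mem_valuationSubring_iff _).2 (v.valuation_le_one a))
  have hφ : ∀ a, ((φ a : (v.valuation K).valuationSubring) : K) = algebraMap (𝓞 K) K a := fun a => rfl
  let ψ : 𝓞 K ⧸ v.asIdeal →+* IsLocalRing.ResidueField (v.valuation K).valuationSubring :=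
    Ideal.Quotient.lift v.asIdeal ((IsLocalRing.residue _).comp φ) (fun a ha => by
      rw [RingHom.comp_apply]
      apply res_zero
      rw [hφ]
      exact (v.valuation_lt_one_iff_mem _).2 ha)
  refine Finite.of_surjective ψ ?_
  intro y
  obtain ⟨r, rfl⟩ := IsLocalRing.residue_surjective y
  obtain ⟨a, ha⟩ := v.exists_valuation_sub_lt_of_integer
    (((v.valuation K).mem_valuationSubring_iff _).1 r.2) 1
  refine ⟨Ideal.Quotient.mk _ a, ?_⟩
  rw [Ideal.Quotient.lift_mk, RingHom.comp_apply, ← sub_eq_zero, ← map_sub]
  apply res_zero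
  have : ((φ a - r : (v.valuation K).valuationSubring) : K) = algebraMap (𝓞 K) K a - (r : K) := rfl
  rw [this]
  simpa using ha

end Pool.Agent.H42.QP
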