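import Mathlib
import Pool.Agent.H42.QP.DickB

/-! Dickson reduction: the points of the backward tree have large degree. -/

set_option autoImplicit false

open Polynomial NumberField IsDedekindDomain

namespace Pool.Agent.H42.QP

section der

variable {F : Type} [Field F]

theorem dick_der {z : F} (hz : z ≠ 0) (n : ℕ) :
    (z - z⁻¹) * (derivative (dickson 1 (1 : F) n)).eval (z + z⁻¹) =
      n * (z ^ n - z⁻¹ ^ n) := by
  induction n using Nat.twoStepInduction with
  | zero =>
    rw [dickson_zero]
    have : derivative (3 - ((1 : ℕ) : F[X])) = 0 := by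
      rw [derivative_sub, derivative_natCast]
      have : (3 : F[X]) = ((3 : ℕ) : F[X]) := by norm_num
      rw [this, derivative_natCast, sub_zero]
    rw [this]
    simp
  | one =>
    rw [dickson_one]
    simp
  | more n ih0 ih1 =>
    rw [dickson_add_two, derivative_sub, derivative_mul, derivative_X, map_one, one_mul, one_mul,
      eval_sub, eval_add, eval_mul, eval_X, dickson_one_one_eval_add_inv z z⁻¹ (mul_inv_cancel₀ hz)]
    have h1 : z * z⁻¹ = 1 := mul_inv_cancel₀ hz
    have e1 : (z - z⁻¹) * (z ^ (n + 1) + z⁻¹ ^ (n + 1) + (z + z⁻¹) *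
        (derivative (dickson 1 (1 : F) (n + 1))).eval (z + z⁻¹) -
        (derivative (dickson 1 (1 : F) n)).eval (z + z⁻¹)) =
        (z - z⁻¹) * (z ^ (n + 1) + z⁻¹ ^ (n + 1)) + (z + z⁻¹) *
        (((n + 1 : ℕ) : F) * (z ^ (n + 1) - z⁻¹ ^ (n + 1))) -
        (n : F) * (z ^ n - z⁻¹ ^ n) := by
      rw [← ih0, ← ih1]
      ring
    rw [e1]
    push_cast
    linear_combination ((-z ^ n + z⁻¹ ^ n) + ((n : F) + 1) * (z ^ n - z⁻¹ ^ n)) * h1

theorem dick_two {z : F} (hz : z * z = 1) (n : ℕ) :
    (dickson 1 (1 : F) n).eval (z + z) = 2 * z ^ n := by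
  rw [dickson_one_one_eval_add_inv z z hz]
  ring

theorem dick_der2 {z : F} (hz : z * z = 1) (n : ℕ) :
    (derivative (dickson 1 (1 : F) n)).eval (z + z) = (n : F) ^ 2 * z ^ (n + 1) := by
  induction n using Nat.twoStepInduction with
  | zero =>
    rw [dickson_zero]
    have : derivative (3 - ((1 : ℕ) : F[X])) = 0 := by
      rw [derivative_sub, derivative_natCast]
      have : (3 : F[X]) = ((3 : ℕ) : F[X]) := by norm_num
      rw [this, derivative_natCast, sub_zero]
    rw [this]
    simp
  | one =>
    rw [dickson_one, derivative_X, eval_one]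
    push_cast
    linear_combination (-1 : F) * hz
  | more n ih0 ih1 =>
    rw [dickson_add_two, derivative_sub, derivative_mul, derivative_X, map_one, one_mul, one_mul,
      eval_sub, eval_add, eval_mul, eval_X, dick_two hz, ih0, ih1]
    push_cast
    linear_combination (z ^ (n + 1) * (2 * ((n : F) + 1) ^ 2 - ((n : F) + 2) ^ 2)) * hz

end der

theorem dick_iter {R : Type} [CommRing R] (d n : ℕ) :
    ((dickson 1 (1 : R) d).comp)^[n] X = dickson 1 (1 : R) (d ^ n) := by
  induction n with
  | zero => rw [pow_zero, dickson_one]; rfl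
  | succ n ih => rw [Function.iterate_succ_apply', ih, pow_succ', dickson_one_one_mul]

theorem lc_iter {R : Type} [CommRing R] [IsDomain R] {f : R[X]} (hf : IsUnit f.leadingCoeff)
    (hd : 1 ≤ f.natDegree) (n : ℕ) :
    ((f.comp)^[n] X).natDegree = f.natDegree ^ n ∧ IsUnit ((f.comp)^[n] X).leadingCoeff := by
  induction n with
  | zero =>
    refine ⟨?_, ?_⟩
    · simp
    · simp
  | succ n ih =>
    rw [Function.iterate_succ_apply']
    refine ⟨?_, ?_⟩
    · rw [natDegree_comp, ih.1, pow_succ']
    · rw [leadingCoeff_comp (by rw [ih.1]; positivity)]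
      exact hf.mul (ih.2.pow _)

theorem map_iter {R S : Type} [CommRing R] [CommRing S] (φ : R →+* S) (f : R[X]) (n : ℕ) :
    ((f.comp)^[n] X).map φ = ((f.map φ).comp)^[n] X := by
  induction n with
  | zero => simp
  | succ n ih => rw [Function.iterate_succ_apply', Function.iterate_succ_apply', Polynomial.map_comp, ih]

theorem dick_lower {K : Type} [Field K] [NumberField K] (v : HeightOneSpectrum (𝓞 K)) {f : K[X]}
    {β : K} {ℓ e : ℕ} (hℓ : ℓ.Prime) (hv : v.valuation K (ℓ : K) = 1)
    (hdeg : f.natDegree = ℓ ^ e) (hlc : v.valuation K f.leadingCoeff = 1)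
    (hred : ∀ i, v.valuation K ((f - dickson 1 (1 : K) (ℓ ^ e)).coeff i) < 1)
    (hβ : v.valuation K β ≤ 1) (hcrit : (derivative f).eval β = 0) :
    ∃ C : ℕ, ∀ (n : ℕ) (x : AlgebraicClosure K),
      (fun y => aeval y f)^[n] x = algebraMap K (AlgebraicClosure K) β →
      ℓ ^ (e * n + 1) ≤ C * (minpoly K x).natDegree := by
  classical
  obtain ⟨V, hV⟩ : ∃ V : Valuation K (WithZero (Multiplicative ℤ)), V = v.valuation K := ⟨_, rfl⟩
  have hfin : Finite (IsLocalRing.ResidueField V.valuationSubring) := hV ▸ finite_res v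
  rw [← hV] at hv hlc hβ
  have hred' : ∀ i, V ((f - dickson 1 (1 : K) (ℓ ^ e)).coeff i) < 1 := fun i => by
    rw [hV]; exact hred i
  -- lift f to the valuation ring
  have hDc : ∀ i, (dickson 1 (1 : K) (ℓ ^ e)).coeff i =
      (((dickson 1 (1 : V.valuationSubring) (ℓ ^ e)).coeff i : V.valuationSubring) : K) := by
    intro i
    have h1 := map_dickson (k := 1) (a := (1 : V.valuationSubring))
      (algebraMap V.valuationSubring K) (ℓ ^ e)
    rw [map_one] at h1
    rw [← h1, coeff_map]
    rfl
  have hfi : ∀ i, V (f.coeff i) ≤ 1 := by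
    intro i
    have h1 : f.coeff i = (f - dickson 1 (1 : K) (ℓ ^ e)).coeff i +
        (dickson 1 (1 : K) (ℓ ^ e)).coeff i := by
      rw [coeff_sub]; ring
    rw [h1]
    refine V.map_add_le (hred' i).le ?_
    rw [hDc]
    exact (V.mem_valuationSubring_iff _).1 (SetLike.coe_mem _)
  obtain ⟨fR, hfR⟩ : ∃ fR : V.valuationSubring[X], fR.map (algebraMap V.valuationSubring K) = f := by
    have h1 : f ∈ lifts (algebraMap V.valuationSubring K) := by
      rw [lifts_iff_coeff_lifts]
      intro i
      exact ⟨⟨f.coeff i, (V.mem_valuationSubring_iff _).2 (hfi i)⟩, rfl⟩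
    exact (mem_lifts f).1 h1
  have hinjK : Function.Injective (algebraMap V.valuationSubring K) :=
    FaithfulSMul.algebraMap_injective _ _
  have hfc : ∀ i, ((fR.coeff i : V.valuationSubring) : K) = f.coeff i := by
    intro i
    rw [← hfR, coeff_map]
    rfl
  have hfRd : fR.natDegree = ℓ ^ e := by
    rw [← hdeg, ← hfR]
    exact (natDegree_map_eq_of_injective hinjK fR).symm
  have hfRl : IsUnit fR.leadingCoeff := by
    apply unit_of_val V
    rw [leadingCoeff, hfc, hfRd, ← hdeg]
    exact hlc
  obtain ⟨bR, hbR⟩ : ∃ bR : V.valuationSubring, (bR : K) = β :=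
    ⟨⟨β, (V.mem_valuationSubring_iff _).2 hβ⟩, rfl⟩
  -- the reduction
  have hredk : fR.map (IsLocalRing.residue V.valuationSubring) =
      dickson 1 (1 : IsLocalRing.ResidueField V.valuationSubring) (ℓ ^ e) := by
    have h1 := map_dickson (k := 1) (a := (1 : V.valuationSubring))
      (IsLocalRing.residue V.valuationSubring) (ℓ ^ e)
    rw [map_one] at h1
    rw [← h1, ← sub_eq_zero, ← Polynomial.map_sub]
    ext i
    rw [coeff_map, coeff_zero]
    apply res_zero
    have h2 : (((fR - dickson 1 (1 : V.valuationSubring) (ℓ ^ e)).coeff i :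
        V.valuationSubring) : K) = (f - dickson 1 (1 : K) (ℓ ^ e)).coeff i := by
      rw [coeff_sub, coeff_sub, hDc, ← hfc]
      rfl
    rw [h2]
    exact hred' i
  have hl1 : (ℓ : IsLocalRing.ResidueField V.valuationSubring) ≠ 0 := by
    intro h0
    have hu : IsUnit (ℓ : V.valuationSubring) := by
      apply unit_of_val V
      have : ((ℓ : V.valuationSubring) : K) = (ℓ : K) := by push_cast; rfl
      rw [this]
      exact hv
    have h1 : IsLocalRing.residue V.valuationSubring (ℓ : V.valuationSubring) = 0 := by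
      rw [map_natCast]
      exact h0
    exact (hu.map (IsLocalRing.residue V.valuationSubring)).ne_zero h1
  -- the residue of β
  obtain ⟨z0, hz00, hz0⟩ := exists_add_inv (algebraMap (IsLocalRing.ResidueField V.valuationSubring)
    (AlgebraicClosure (IsLocalRing.ResidueField V.valuationSubring))
    (IsLocalRing.residue V.valuationSubring bR))
  have hl2 : (ℓ : AlgebraicClosure (IsLocalRing.ResidueField V.valuationSubring)) ≠ 0 := by
    intro h0
    apply hl1
    have := (algebraMap (IsLocalRing.ResidueField V.valuationSubring)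
      (AlgebraicClosure (IsLocalRing.ResidueField V.valuationSubring))).injective
    apply this
    rw [map_natCast, map_zero]
    exact h0
  have hcr : (derivative (dickson 1 (1 : AlgebraicClosure
      (IsLocalRing.ResidueField V.valuationSubring)) (ℓ ^ e))).eval (z0 + z0⁻¹) = 0 := by
    have h1 : (derivative fR).eval bR = 0 := by
      apply hinjK
      rw [map_zero, ← eval_map_apply, ← derivative_map, hfR]
      have hb' : algebraMap V.valuationSubring K bR = β := hbR
      rw [hb']
      exact hcrit
    have h2 : (derivative (dickson 1 (1 : IsLocalRing.ResidueField V.valuationSubring)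
        (ℓ ^ e))).eval (IsLocalRing.residue V.valuationSubring bR) = 0 := by
      rw [← hredk, derivative_map, eval_map_apply, h1, map_zero]
    have h3 := map_dickson (k := 1) (a := (1 : IsLocalRing.ResidueField V.valuationSubring))
      (algebraMap (IsLocalRing.ResidueField V.valuationSubring)
        (AlgebraicClosure (IsLocalRing.ResidueField V.valuationSubring))) (ℓ ^ e)
    rw [map_one] at h3
    rw [← hz0, ← h3, derivative_map, eval_map_apply, h2, map_zero]
  have hz1 : z0 ^ 2 ≠ 1 := by
    intro h0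
    have h1 : z0 * z0 = 1 := by rw [← pow_two]; exact h0
    have h2 : z0⁻¹ = z0 := by
      exact inv_eq_of_mul_eq_one_left h1
    rw [h2, dick_der2 h1] at hcr
    rcases mul_eq_zero.1 hcr with h3 | h3
    · have h4 := pow_eq_zero_iff (two_ne_zero) |>.1 h3
      push_cast at h4
      exact hl2 (eq_zero_of_pow_eq_zero h4)
    · exact hz00 (eq_zero_of_pow_eq_zero h3)
  have hz2 : z0 ^ (2 * ℓ ^ e) = 1 := by
    have h1 := dick_der hz00 (ℓ ^ e)
    rw [hcr, mul_zero] at h1
    rcases mul_eq_zero.1 h1.symm with h3 | h3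
    · exfalso
      push_cast at h3
      exact hl2 (eq_zero_of_pow_eq_zero h3)
    · have h4 : z0 ^ ℓ ^ e * z0 ^ ℓ ^ e = 1 := by
        have h5 : z0 ^ ℓ ^ e = (z0 ^ ℓ ^ e)⁻¹ := by
          rw [← inv_pow]
          exact sub_eq_zero.1 h3
        nth_rewrite 2 [h5]
        exact mul_inv_cancel₀ (pow_ne_zero _ hz00)
      rw [two_mul, pow_add, h4]
  refine ⟨Nat.card (IsLocalRing.ResidueField V.valuationSubring) ^ (2 * (ℓ - 1)) - 1, ?_⟩
  intro n x hx
  -- F = f^n - β over the valuation ring
  have hd1 : 1 ≤ fR.natDegree := by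
    rw [hfRd]
    exact Nat.one_le_pow _ _ hℓ.pos
  obtain ⟨hI1, hI2⟩ := lc_iter hfRl hd1 n
  obtain ⟨C0, hC0⟩ : ∃ C0, C0 = Nat.card (IsLocalRing.ResidueField V.valuationSubring) ^
    (2 * (ℓ - 1)) - 1 := ⟨_, rfl⟩
  have hpos : 0 < ((fR.comp)^[n] X).natDegree := by
    rw [hI1]; positivity
  have hFl : IsUnit ((fR.comp)^[n] X - C bR).leadingCoeff := by
    rw [leadingCoeff_sub_of_degree_lt]
    · exact hI2
    · exact lt_of_le_of_lt degree_C_le (natDegree_pos_iff_degree_pos.1 hpos)
  have hFx : aeval x ((fR.comp)^[n] X - C bR) = 0 := by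
    have h1 : aeval x ((fR.comp)^[n] X - C bR) =
        aeval x ((f.comp)^[n] X - C β) := by
      have h2 : (f.comp)^[n] X - C β = ((fR.comp)^[n] X - C bR).map
          (algebraMap V.valuationSubring K) := by
        rw [Polynomial.map_sub, map_iter, hfR, map_C]
        rw [← hbR]
        rfl
      rw [h2, aeval_map_algebraMap]
    rw [h1, map_sub, aeval_C, ← hx, sub_eq_zero]
    have h3 : aeval x ((f.comp)^[n] X) = (((f.map (algebraMap K (AlgebraicClosure K))).comp)^[n]
        X).eval x := by
      rw [← map_iter, eval_map_algebraMap]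
    rw [h3, iterate_comp_eval, eval_X]
    congr 1
    funext y
    rw [eval_map_algebraMap]
  obtain ⟨ξ, hξ, hξd⟩ := lift_root V hFl hFx
  have hξ' : (dickson 1 (1 : AlgebraicClosure (IsLocalRing.ResidueField V.valuationSubring))
      (ℓ ^ (e * n))).eval ξ = z0 + z0⁻¹ := by
    rw [Polynomial.map_sub, map_iter, hredk, dick_iter, map_C, map_sub, aeval_C,
      sub_eq_zero] at hξ
    have h3 := map_dickson (k := 1) (a := (1 : IsLocalRing.ResidueField V.valuationSubring))
      (algebraMap (IsLocalRing.ResidueField V.valuationSubring)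
        (AlgebraicClosure (IsLocalRing.ResidueField V.valuationSubring))) (ℓ ^ (e * n))
    rw [map_one] at h3
    rw [← h3, eval_map_algebraMap, pow_mul, hξ]
    exact hz0
  have h9 := core hℓ hl1 hz2 hz1 n hξ'
  exact h9.trans (Nat.mul_le_mul_left _ hξd)

end Pool.Agent.H42.QP
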