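import Pool.Agent.H42.QP.DickC
import Pool.Agent.H42.RM.LOd
import Pool.Agent.H42.PCM.E4

/-! Chebyshev reduction of a rational map `p / q` (`p ≡ ε D_d`, `q ≡ 1`, `ε = ± 1`, `d` a prime power). -/

set_option autoImplicit false

open Polynomial NumberField IsDedekindDomain

namespace Pool.Agent.H42.QP

open Pool.Agent.H42.RM Pool.Agent.H42.PC

theorem core2 {k : Type} [Field k] [Finite k] {ℓ e : ℕ} (hℓ : ℓ.Prime) (hk : (ℓ : k) ≠ 0)
    {z0 : AlgebraicClosure k} (h1 : z0 ^ (2 * ℓ ^ e) = 1) (h2 : z0 ^ 2 ≠ 1) (n : ℕ)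
    {z : AlgebraicClosure k} (hz0 : z ≠ 0)
    (hM : (z ^ 2) ^ (ℓ ^ (e * n)) = z0 ^ 2 ∨ (z ^ 2) ^ (ℓ ^ (e * n)) = (z0 ^ 2)⁻¹) :
    ℓ ^ (e * n + 1) ≤ (Nat.card k ^ (2 * (ℓ - 1)) - 1) * (minpoly k (z + z⁻¹)).natDegree := by
  classical
  have : Fintype k := Fintype.ofFinite k
  have hpos : 0 < ℓ := hℓ.pos
  set m := (minpoly k (z + z⁻¹)).natDegree with hm
  have hm1 : 1 ≤ m := minpoly.natDegree_pos (Algebra.IsIntegral.isIntegral _)
  set N := Nat.card k with hN
  have hN2 : 2 ≤ N := by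
    rw [hN, Nat.card_eq_fintype_card]
    exact Fintype.one_lt_card
  -- Frobenius
  have hfrob : z ^ (N ^ m) + (z ^ (N ^ m))⁻¹ = z + z⁻¹ := by
    have h3 := pow_card_pow (k := k) (z + z⁻¹)
    rw [← hm, ← hN] at h3
    have h4 : ∀ y : AlgebraicClosure k,
        ((FiniteField.frobeniusAlgHom k (AlgebraicClosure k)) ^ m) y = y ^ (N ^ m) := by
      intro y
      have : ∀ j : ℕ, ((FiniteField.frobeniusAlgHom k (AlgebraicClosure k)) ^ j) y =
          y ^ (N ^ j) := by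
        intro j
        induction j with
        | zero => simp
        | succ j ih =>
          rw [pow_succ', AlgHom.mul_apply, ih, FiniteField.coe_frobeniusAlgHom]
          change (y ^ N ^ j) ^ Fintype.card k = _
          rw [← pow_mul, hN, Nat.card_eq_fintype_card, pow_succ]
      exact this m
    rw [← h4, map_add, map_inv₀, h4] at h3
    exact h3
  have hw := inv_eq_of_add (pow_ne_zero _ hz0) hz0 hfrob
  have hNm : 1 ≤ N ^ m := Nat.one_le_pow _ _ (by omega)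
  have hzN : z ^ (N ^ (2 * m) - 1) = 1 := by
    have h5 : z ^ (N ^ m - 1) = 1 ∨ z ^ (N ^ m + 1) = 1 := by
      rcases hw with h | h
      · left
        have : z ^ (N ^ m - 1) * z = 1 * z := by
          rw [← pow_succ, Nat.sub_add_cancel hNm, one_mul, h]
        exact mul_right_cancel₀ hz0 this
      · right
        rw [pow_succ, h, inv_mul_cancel₀ hz0]
    have h6 : N ^ (2 * m) - 1 = (N ^ m + 1) * (N ^ m - 1) := by
      rw [← Nat.sq_sub_sq, one_pow, ← pow_mul, mul_comm m 2]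
    rw [h6]
    rcases h5 with h | h
    · rw [mul_comm, pow_mul, h, one_pow]
    · rw [pow_mul, h, one_pow]
  -- the order of y = z^2
  have hy1 : (z ^ 2) ^ (ℓ ^ (e * n)) ≠ 1 := by
    rcases hM with h | h
    · rw [h]; exact h2
    · rw [h]
      intro h7
      exact h2 (inv_eq_one.1 h7)
  have hy2 : (z ^ 2) ^ (ℓ ^ (e * n + e)) = 1 := by
    have : (z ^ 2) ^ (ℓ ^ (e * n + e)) = ((z ^ 2) ^ (ℓ ^ (e * n))) ^ (ℓ ^ e) := by
      rw [← pow_mul (z ^ 2), pow_add]
    rw [this]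
    rcases hM with h | h
    · rw [h, ← pow_mul]; exact h1
    · rw [h, inv_pow, ← pow_mul, h1, inv_one]
  obtain ⟨j, hj, hoj⟩ := (Nat.dvd_prime_pow hℓ).1 (orderOf_dvd_of_pow_eq_one hy2)
  have hj1 : e * n < j := by
    by_contra hcon
    apply hy1
    rw [← orderOf_dvd_iff_pow_eq_one, hoj]
    exact pow_dvd_pow _ (by omega)
  have hdvd : ℓ ^ (e * n + 1) ∣ N ^ (2 * m) - 1 := by
    refine (pow_dvd_pow ℓ (Nat.succ_le_of_lt hj1)).trans ?_
    rw [← hoj]
    apply orderOf_dvd_of_pow_eq_one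
    rw [← pow_mul, mul_comm, pow_mul, hzN, one_pow]
  have hNl : ¬ ℓ ∣ N := by
    intro h7
    obtain ⟨p, hp⟩ := CharP.exists k
    have := hp
    have : Fact p.Prime := ⟨CharP.char_is_prime k p⟩
    obtain ⟨f, hf⟩ := FiniteField.card k p
    rw [hN, Nat.card_eq_fintype_card, hf.2] at h7
    have h8 := (Nat.prime_dvd_prime_iff_eq hℓ hf.1).1 (hℓ.dvd_of_dvd_pow h7)
    apply hk
    rw [h8]
    exact CharP.cast_eq_zero k p
  exact lte_ineq hℓ hNl hN2 hm1 hdvd

/-- iterates of `ε D_d` on `z + 1/z` -/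
theorem cheb_iter {F : Type} [Field F] {ε : F} (hε : ε ^ 2 = 1) (d : ℕ) (n : ℕ) {z : F}
    (hz : z ≠ 0) : ∃ w : F, w ≠ 0 ∧ w ^ 2 = (z ^ 2) ^ (d ^ n) ∧
      (fun y => ε * (dickson 1 (1 : F) d).eval y)^[n] (z + z⁻¹) = w + w⁻¹ := by
  have hε0 : ε ≠ 0 := by
    rintro rfl
    simp at hε
  have hεi : ε⁻¹ = ε := by
    field_simp
    exact hε.symm
  induction n with
  | zero => exact ⟨z, hz, by simp, rfl⟩
  | succ n ih =>
    obtain ⟨w, hw0, hw, h⟩ := ih
    refine ⟨ε * w ^ d, mul_ne_zero hε0 (pow_ne_zero _ hw0), ?_, ?_⟩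
    · have e1 : (ε * w ^ d) ^ 2 = (w ^ 2) ^ d := by
        rw [mul_pow, hε, one_mul, ← pow_mul, ← pow_mul, mul_comm]
      rw [e1, hw, ← pow_mul (z ^ 2), ← pow_succ]
    · rw [Function.iterate_succ_apply', h, dickson_one_one_eval_add_inv w w⁻¹
        (mul_inv_cancel₀ hw0), mul_inv, hεi, inv_pow]
      ring

theorem lodH_comp {R : Type} [CommRing R] {D : ℕ} {g : R[X]} (hg : g.natDegree ≤ D) (P : R[X]) :
    lodH D g P 1 = g.comp P := by
  unfold lodH
  rw [comp_eq_sum_left, sum_over_range' (n := D + 1) g (fun i => by simp) (by omega)]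
  refine Finset.sum_congr rfl fun i _ => ?_
  rw [one_pow, mul_one]

theorem lodPQ_comp {R : Type} [CommRing R] {D : ℕ} {g : R[X]} (hg : g.natDegree ≤ D) (n : ℕ) :
    lodPQ D g 1 n = ((g.comp)^[n] X, 1) := by
  induction n with
  | zero => rfl
  | succ n ih =>
    have h1 : lodH D (1 : R[X]) ((g.comp)^[n] X) 1 = 1 := by
      have := lodH_const D (1 : R) ((g.comp)^[n] X) 1
      rwa [C_1, one_pow, mul_one] at this
    rw [lodPQ, ih]
    simp only []
    rw [h1, lodH_comp hg, Function.iterate_succ_apply']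

end Pool.Agent.H42.QP
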