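import Pool.Agent.H42.QP.DickE

/-! Composite degrees. -/

set_option autoImplicit false

open Polynomial

namespace Pool.Agent.H42.QP

/-- lifting the exponent, one prime -/
theorem lte_prime {ℓ N t m : ℕ} (hℓ : ℓ.Prime) (hN : ¬ ℓ ∣ N) (hN2 : 2 ≤ N) (hm : 1 ≤ m)
    (ht : 1 ≤ t) (hNt : ℓ ∣ N ^ (2 * t) - 1) :
    padicValNat ℓ ((N ^ (2 * t)) ^ m - 1) = padicValNat ℓ (N ^ (2 * t) - 1) + padicValNat ℓ m := by
  have : Fact ℓ.Prime := ⟨hℓ⟩
  have hl2 := hℓ.two_le
  have hA1 : 1 < N ^ (2 * t) := Nat.one_lt_pow (by omega) (by omega)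
  have hnl : ¬ ℓ ∣ N ^ (2 * t) := by
    intro h1
    exact hN (hℓ.dvd_of_dvd_pow h1)
  rcases hℓ.eq_two_or_odd' with rfl | hodd
  · have hB : ¬ 2 ∣ N ^ t := fun h => hN (hℓ.dvd_of_dvd_pow h)
    have hB1 : 1 < N ^ t := Nat.one_lt_pow (by omega) (by omega)
    have hB2 : 2 ∣ N ^ t - 1 := by omega
    have h2 := padicValNat.pow_two_sub_pow (x := N ^ t) (y := 1) hB1 hB2 hB
      (n := 2 * m) (by omega) (even_two_mul m)
    have h3 := padicValNat.pow_two_sub_pow (x := N ^ t) (y := 1) hB1 hB2 hB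
      (n := 2) (by omega) even_two
    have h4 : padicValNat 2 (2 * m) = 1 + padicValNat 2 m := by
      rw [padicValNat.mul (by omega) (by omega), padicValNat_self]
    have h6 : padicValNat 2 2 = 1 := padicValNat_self
    have e1 : (N ^ t) ^ (2 * m) - 1 ^ (2 * m) = (N ^ (2 * t)) ^ m - 1 := by
      rw [one_pow, ← pow_mul, ← pow_mul]
      congr 2
      ring
    have e2 : (N ^ t) ^ 2 - 1 ^ 2 = N ^ (2 * t) - 1 := by
      rw [one_pow, ← pow_mul, mul_comm]
    rw [e1] at h2
    rw [e2] at h3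
    omega
  · have h1 := padicValNat.pow_sub_pow (p := ℓ) hodd (x := N ^ (2 * t)) (y := 1) hA1 hNt hnl
      (n := m) (by omega)
    simpa using h1

theorem dvd_of_vals {d N o n m : ℕ} (hd : 1 ≤ d) (hN : Nat.Coprime N d) (hN2 : 2 ≤ N)
    (hm : 1 ≤ m) (ho : o ∣ N ^ (2 * m) - 1)
    (hv : ∀ ℓ, ℓ.Prime → ℓ ∣ d → n * padicValNat ℓ d ≤ padicValNat ℓ o) :
    d ^ n ≤ (N ^ (2 * d.totient) - 1) * m := by
  have ht : 1 ≤ d.totient := Nat.totient_pos.2 hd
  set A := N ^ (2 * d.totient) with hA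
  have hA1 : 1 < A := Nat.one_lt_pow (by omega) (by omega)
  have hne : A ^ m - 1 ≠ 0 := by
    have : 1 < A ^ m := Nat.one_lt_pow (by omega) hA1
    omega
  have hdvd : o ∣ A ^ m - 1 := by
    refine ho.trans ?_
    have h1 : A ^ m = (N ^ (2 * m)) ^ d.totient := by
      rw [hA, ← pow_mul, ← pow_mul]
      congr 1
      ring
    rw [h1]
    simpa using Nat.sub_dvd_pow_sub_pow (N ^ (2 * m)) 1 d.totient
  have hAd : d ∣ A - 1 := by
    have h1 : N ^ d.totient ≡ 1 [MOD d] := Nat.ModEq.pow_totient hN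
    have h2 : A ≡ 1 [MOD d] := by
      have := h1.pow 2
      rw [← pow_mul, one_pow, mul_comm] at this
      exact this
    exact (Nat.modEq_iff_dvd' hA1.le).1 h2.symm
  have hmul : (A - 1) * m ≠ 0 := Nat.mul_ne_zero (by omega) (by omega)
  refine Nat.le_of_dvd (Nat.pos_of_ne_zero hmul) ?_
  rw [← Nat.factorization_le_iff_dvd (pow_ne_zero _ (by omega)) hmul]
  intro ℓ
  rw [Nat.factorization_pow, Nat.factorization_mul (by omega) (by omega)]
  simp only [Finsupp.smul_apply, Finsupp.add_apply, smul_eq_mul]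
  by_cases hℓ : ℓ.Prime
  · by_cases hℓd : ℓ ∣ d
    · have : Fact ℓ.Prime := ⟨hℓ⟩
      have hNl : ¬ ℓ ∣ N := by
        intro h
        have := Nat.dvd_gcd h hℓd
        rw [hN] at this
        exact hℓ.one_lt.ne' (Nat.dvd_one.1 this)
      have h1 := lte_prime hℓ hNl hN2 hm ht (hℓd.trans hAd)
      rw [← hA] at h1
      have h2 := hv ℓ hℓ hℓd
      have h3 : padicValNat ℓ o ≤ padicValNat ℓ (A ^ m - 1) := by
        rw [← padicValNat_dvd_iff_le hne]
        exact pow_padicValNat_dvd.trans hdvd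
      rw [Nat.factorization_def _ hℓ, Nat.factorization_def _ hℓ, Nat.factorization_def _ hℓ]
      omega
    · rw [Nat.factorization_eq_zero_of_not_dvd hℓd, mul_zero]
      exact Nat.zero_le _
  · rw [Nat.factorization_eq_zero_of_not_prime _ hℓ, mul_zero]
    exact Nat.zero_le _

/-- orders of `d^n`-th roots of an element of order dividing `d` and divisible by `ℓ` -/
theorem val_order {G : Type} [Monoid G] {y y0 : G} {d n ℓ a m : ℕ} (hd : 1 ≤ d) (hℓ : ℓ.Prime)
    (hda : d = ℓ ^ a * m) (hm : ¬ ℓ ∣ m) (hy : y ^ (d ^ n) = y0) (h0 : y0 ^ d = 1)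
    (h1 : y0 ^ m ≠ 1) : n * padicValNat ℓ d ≤ padicValNat ℓ (orderOf y) := by
  have : Fact ℓ.Prime := ⟨hℓ⟩
  have hfin : y ^ (d ^ (n + 1)) = 1 := by
    rw [pow_succ, pow_mul, hy, h0]
  have hopos : 0 < orderOf y := by
    refine orderOf_pos_iff.2 (isOfFinOrder_iff_pow_eq_one.2 ⟨d ^ (n + 1), ?_, hfin⟩)
    positivity
  have hm0 : m ≠ 0 := by
    rintro rfl
    rw [mul_zero] at hda
    omega
  have hva : padicValNat ℓ d = a := by
    rw [hda, padicValNat.mul (pow_ne_zero _ hℓ.ne_zero) hm0, padicValNat.prime_pow,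
      padicValNat.eq_zero_of_not_dvd hm, add_zero]
  rw [hva]
  by_contra hcon
  push Not at hcon
  apply h1
  -- y ^ (d^n * m) = 1 : order of y divides d^n * m
  rw [← hy, ← pow_mul, ← orderOf_dvd_iff_pow_eq_one]
  have hdv : orderOf y ∣ d ^ (n + 1) := orderOf_dvd_of_pow_eq_one hfin
  have hdn : d ^ n * m ≠ 0 := Nat.mul_ne_zero (pow_ne_zero _ (by omega)) hm0
  rw [← Nat.factorization_le_iff_dvd hopos.ne' hdn]
  intro r
  by_cases hr : r.Prime
  · by_cases hrl : r = ℓ
    · subst hrl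
      rw [Nat.factorization_def _ hr, Nat.factorization_def _ hr,
        padicValNat.mul (pow_ne_zero _ (by omega)) hm0]
      have h5 : padicValNat r (d ^ n) = n * padicValNat r d := padicValNat.pow d n
      rw [h5, hva]
      omega
    · have h2 : (orderOf y).factorization r ≤ (d ^ (n + 1)).factorization r :=
        (Nat.factorization_le_iff_dvd hopos.ne' (pow_ne_zero _ (by omega))).2 hdv r
      refine h2.trans ?_
      have h3 : d.factorization r = m.factorization r := by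
        rw [hda, Nat.factorization_mul (pow_ne_zero _ hℓ.ne_zero) hm0, Nat.factorization_pow]
        simp only [Finsupp.add_apply, Finsupp.smul_apply, smul_eq_mul]
        rw [hℓ.factorization, Finsupp.single_apply, if_neg (fun h => hrl h.symm), mul_zero,
          zero_add]
      rw [Nat.factorization_pow, Nat.factorization_mul (pow_ne_zero _ (by omega)) hm0,
        Nat.factorization_pow]
      simp only [Finsupp.add_apply, Finsupp.smul_apply, smul_eq_mul]
      rw [← h3]
      ring_nf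
      omega
  · rw [Nat.factorization_eq_zero_of_not_prime _ hr]
    exact Nat.zero_le _

end Pool.Agent.H42.QP
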