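import Pool.Agent.H42.QP.DickF
import Pool.Agent.H42.QP.DickG

/-! Chebyshev reduction, all degrees. -/

set_option autoImplicit false

open Polynomial NumberField IsDedekindDomain

namespace Pool.Agent.H42.QP

open Pool.Agent.H42.RM Pool.Agent.H42.PC

theorem core3 {k : Type} [Field k] [Finite k] {d : ℕ} (hd : 1 ≤ d) (hk : (d : k) ≠ 0)
    {z0 : AlgebraicClosure k} (h1 : z0 ^ (2 * d) = 1)
    (h2 : ∀ ℓ a m : ℕ, ℓ.Prime → 1 ≤ a → d = ℓ ^ a * m → ¬ ℓ ∣ m → (z0 ^ 2) ^ m ≠ 1) (n : ℕ)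
    {z : AlgebraicClosure k} (hz0 : z ≠ 0)
    (hM : (z ^ 2) ^ (d ^ n) = z0 ^ 2 ∨ (z ^ 2) ^ (d ^ n) = (z0 ^ 2)⁻¹) :
    d ^ n ≤ (Nat.card k ^ (2 * d.totient) - 1) * (minpoly k (z + z⁻¹)).natDegree := by
  classical
  have : Fintype k := Fintype.ofFinite k
  set m := (minpoly k (z + z⁻¹)).natDegree with hm
  have hm1 : 1 ≤ m := minpoly.natDegree_pos (Algebra.IsIntegral.isIntegral _)
  set N := Nat.card k with hN
  have hN2 : 2 ≤ N := by
    rw [hN, Nat.card_eq_fintype_card]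
    exact Fintype.one_lt_card
  -- Frobenius
  have hfrob : z ^ (N ^ m) + (z ^ (N ^ m))⁻¹ = z + z⁻¹ := by
    have h3 := pow_card_pow (k := k) (z + z⁻¹)
    rw [← hm, ← hN] at h3
    have h4 : ∀ y : AlgebraicClosure k,
        ((FiniteField.frobeniusAlgHom k (AlgebraicClosure k)) ^ m) y = y ^ (N ^ m) := by
      intro y
      have : ∀ j : ℕ, ((FiniteField.frobeniusAlgHom k (AlgebraicClosure k)) ^ j) y =
          y ^ (N ^ j) := by
        intro j
        induction j with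
        | zero => simp
        | succ j ih =>
          rw [pow_succ', AlgHom.mul_apply, ih, FiniteField.coe_frobeniusAlgHom]
          change (y ^ N ^ j) ^ Fintype.card k = _
          rw [← pow_mul, hN, Nat.card_eq_fintype_card, pow_succ]
      exact this m
    rw [← h4, map_add, map_inv₀, h4] at h3
    exact h3
  have hw := inv_eq_of_add (pow_ne_zero _ hz0) hz0 hfrob
  have hNm : 1 ≤ N ^ m := Nat.one_le_pow _ _ (by omega)
  have hzN : z ^ (N ^ (2 * m) - 1) = 1 := by
    have h5 : z ^ (N ^ m - 1) = 1 ∨ z ^ (N ^ m + 1) = 1 := by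
      rcases hw with h | h
      · left
        have : z ^ (N ^ m - 1) * z = 1 * z := by
          rw [← pow_succ, Nat.sub_add_cancel hNm, one_mul, h]
        exact mul_right_cancel₀ hz0 this
      · right
        rw [pow_succ, h, inv_mul_cancel₀ hz0]
    have h6 : N ^ (2 * m) - 1 = (N ^ m + 1) * (N ^ m - 1) := by
      rw [← Nat.sq_sub_sq, one_pow, ← pow_mul, mul_comm m 2]
    rw [h6]
    rcases h5 with h | h
    · rw [mul_comm, pow_mul, h, one_pow]
    · rw [pow_mul, h, one_pow]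
  have ho : orderOf (z ^ 2) ∣ N ^ (2 * m) - 1 := by
    apply orderOf_dvd_of_pow_eq_one
    rw [← pow_mul, mul_comm, pow_mul, hzN, one_pow]
  have hNd : Nat.Coprime N d := by
    obtain ⟨p, hp⟩ := CharP.exists k
    have := hp
    have hpp : p.Prime := CharP.char_is_prime k p
    have : Fact p.Prime := ⟨hpp⟩
    obtain ⟨f, hf⟩ := FiniteField.card k p
    rw [hN, Nat.card_eq_fintype_card, hf.2]
    refine Nat.Coprime.pow_left _ ((Nat.Prime.coprime_iff_not_dvd hpp).2 ?_)
    intro h7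
    exact hk ((CharP.cast_eq_zero_iff k p d).2 h7)
  refine dvd_of_vals hd hNd hN2 hm1 ho ?_
  intro ℓ hℓ hℓd
  obtain ⟨m', hm'1, hm'2⟩ := Nat.exists_eq_pow_mul_and_not_dvd (n := d) (by omega) ℓ hℓ.ne_one
  obtain ⟨hnd, hda⟩ := hm'2
  have ha : 1 ≤ m' := by
    rcases Nat.eq_zero_or_pos m' with h | h
    · exfalso
      rw [h, pow_zero, one_mul] at hda
      rw [← hda] at hnd
      exact hnd hℓd
    · exact h
  have hz2d : (z0 ^ 2) ^ d = 1 := by rw [← pow_mul]; exact h1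
  rcases hM with h | h
  · exact val_order hd hℓ hda hnd h hz2d (h2 ℓ m' hm'1 hℓ ha hda hnd)
  · refine val_order hd hℓ hda hnd h ?_ ?_
    · rw [inv_pow, hz2d, inv_one]
    · rw [inv_pow]
      intro h8
      exact h2 ℓ m' hm'1 hℓ ha hda hnd (inv_eq_one.1 h8)

end Pool.Agent.H42.QP
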