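import Pool.Agent.H42.QP.DickH

/-! Chebyshev reduction in all degrees implies eventual stability. -/

set_option autoImplicit false

open Polynomial NumberField IsDedekindDomain

namespace Pool.Agent.H42.QP

open Pool.Agent.H42.RM Pool.Agent.H42.PC

theorem cheb_lower' {K : Type} [Field K] [NumberField K] (v : HeightOneSpectrum (𝓞 K)) {p q : K[X]}
    {β ε : K} {d : ℕ} (hd : 1 ≤ d) (hv : v.valuation K (d : K) = 1)
    (hdeg : p.natDegree = d) (hq : q.natDegree < p.natDegree) (hε : ε ^ 2 = 1)
    (hred : ∀ i, v.valuation K ((p - C ε * dickson 1 (1 : K) d).coeff i) < 1)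
    (hlc : v.valuation K p.leadingCoeff = 1)
    (hredq : ∀ i, v.valuation K ((q - 1).coeff i) < 1)
    (hβ : v.valuation K β ≤ 1)
    (hcrit : (derivative p * q - p * derivative q).eval β = 0)
    (hprim : ∀ ℓ a m : ℕ, ℓ.Prime → 1 ≤ a → d = ℓ ^ a * m → ¬ ℓ ∣ m →
      v.valuation K ((derivative (dickson 1 (1 : K) m)).eval β) = 1) :
    ∃ C0 : ℕ, ∀ (n : ℕ) (g : K[X]), g.Monic → Irreducible g → g ∣ RP p q β n →
      d ^ n ≤ C0 * g.natDegree := by
  classical
  obtain ⟨V, hV⟩ : ∃ V : Valuation K (WithZero (Multiplicative ℤ)), V = v.valuation K := ⟨_, rfl⟩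
  have hfin : Finite (IsLocalRing.ResidueField V.valuationSubring) := hV ▸ finite_res v
  rw [← hV] at hv hlc hβ
  have hprim' : ∀ ℓ a m : ℕ, ℓ.Prime → 1 ≤ a → d = ℓ ^ a * m → ¬ ℓ ∣ m →
      V ((derivative (dickson 1 (1 : K) m)).eval β) = 1 := fun ℓ a m h1 h2 h3 h4 => by
    rw [hV]; exact hprim ℓ a m h1 h2 h3 h4
  have hred' : ∀ i, V ((p - C ε * dickson 1 (1 : K) d).coeff i) < 1 := fun i => by
    rw [hV]; exact hred i
  have hredq' : ∀ i, V ((q - 1).coeff i) < 1 := fun i => by
    rw [hV]; exact hredq i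
  have hVε : V ε = 1 := by
    have h1 : V ε ^ 2 = 1 := by rw [← map_pow, hε, map_one]
    exact (pow_eq_one_iff_of_nonneg zero_le two_ne_zero).1 h1
  have hinjK : Function.Injective (algebraMap V.valuationSubring K) :=
    FaithfulSMul.algebraMap_injective _ _
  obtain ⟨εR, hεR⟩ : ∃ εR : V.valuationSubring, algebraMap V.valuationSubring K εR = ε :=
    ⟨⟨ε, (V.mem_valuationSubring_iff _).2 hVε.le⟩, rfl⟩
  have hεR2 : εR ^ 2 = 1 := by
    apply hinjK
    rw [map_pow, hεR, hε, map_one]
  -- the Dickson polynomial over the valuation ring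
  obtain ⟨D, hD⟩ : ∃ D : V.valuationSubring[X], D = C εR *
    dickson 1 (1 : V.valuationSubring) d := ⟨_, rfl⟩
  have hDK : D.map (algebraMap V.valuationSubring K) = C ε * dickson 1 (1 : K) d := by
    rw [hD, Polynomial.map_mul, map_C, hεR]
    have h1 := map_dickson (k := 1) (a := (1 : V.valuationSubring))
      (algebraMap V.valuationSubring K) d
    rw [map_one] at h1
    rw [h1]
  have hpi : ∀ i, V (p.coeff i) ≤ 1 := by
    intro i
    have h1 : p.coeff i = (p - C ε * dickson 1 (1 : K) d).coeff i +
        (C ε * dickson 1 (1 : K) d).coeff i := by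
      rw [coeff_sub]; ring
    rw [h1]
    refine V.map_add_le (hred' i).le ?_
    rw [← hDK, coeff_map]
    exact (V.mem_valuationSubring_iff _).1 (SetLike.coe_mem _)
  have hqi : ∀ i, V (q.coeff i) ≤ 1 := by
    intro i
    have h1 : q.coeff i = (q - 1).coeff i + (1 : K[X]).coeff i := by
      rw [coeff_sub]; ring
    rw [h1]
    refine V.map_add_le (hredq' i).le ?_
    rw [coeff_one]
    split_ifs <;> simp
  obtain ⟨pR, hpR⟩ := lod_lift hpi
  obtain ⟨qR, hqR⟩ := lod_lift hqi
  obtain ⟨bR, hbR⟩ : ∃ bR : V.valuationSubring, algebraMap V.valuationSubring K bR = β :=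
    ⟨⟨β, (V.mem_valuationSubring_iff _).2 hβ⟩, rfl⟩
  have hpc : ∀ i, ((pR.coeff i : V.valuationSubring) : K) = p.coeff i := by
    intro i
    rw [← hpR, coeff_map]
    rfl
  have hpRd : pR.natDegree = d := by
    rw [← hdeg, ← hpR]
    exact (natDegree_map_eq_of_injective hinjK pR).symm
  -- reductions
  obtain ⟨εk, hεk⟩ : ∃ x, x = IsLocalRing.residue V.valuationSubring εR := ⟨_, rfl⟩
  obtain ⟨bk, hbk⟩ : ∃ x, x = IsLocalRing.residue V.valuationSubring bR := ⟨_, rfl⟩
  have hεk2 : εk ^ 2 = 1 := by rw [hεk, ← map_pow, hεR2, map_one]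
  have hredk : pR.map (IsLocalRing.residue V.valuationSubring) =
      C εk * dickson 1 (1 : IsLocalRing.ResidueField V.valuationSubring) d := by
    have h1 := map_dickson (k := 1) (a := (1 : V.valuationSubring))
      (IsLocalRing.residue V.valuationSubring) d
    rw [map_one] at h1
    have h2 : D.map (IsLocalRing.residue V.valuationSubring) = C εk *
        dickson 1 (1 : IsLocalRing.ResidueField V.valuationSubring) d := by
      rw [hD, Polynomial.map_mul, map_C, h1, hεk]
    rw [← h2, ← sub_eq_zero, ← Polynomial.map_sub]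
    ext i
    rw [coeff_map, coeff_zero]
    apply res_zero
    have h3 : (((pR - D).coeff i : V.valuationSubring) : K) =
        (p - C ε * dickson 1 (1 : K) d).coeff i := by
      rw [← hDK, ← hpR, ← Polynomial.map_sub, coeff_map]
      rfl
    rw [h3]
    exact hred' i
  have hredqk : qR.map (IsLocalRing.residue V.valuationSubring) = 1 := by
    rw [← Polynomial.map_one (IsLocalRing.residue V.valuationSubring), ← sub_eq_zero,
      ← Polynomial.map_sub]
    ext i
    rw [coeff_map, coeff_zero]
    apply res_zero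
    have h3 : (((qR - 1).coeff i : V.valuationSubring) : K) = (q - 1).coeff i := by
      rw [← hqR, ← Polynomial.map_one (algebraMap V.valuationSubring K), ← Polynomial.map_sub,
        coeff_map]
      rfl
    rw [h3]
    exact hredq' i
  have hpkl : (pR.map (IsLocalRing.residue V.valuationSubring)).natDegree = d ∧
      IsUnit (pR.map (IsLocalRing.residue V.valuationSubring)).leadingCoeff := by
    have hu : IsUnit pR.leadingCoeff := by
      apply unit_of_val V
      rw [leadingCoeff, hpc, hpRd, ← hdeg]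
      exact hlc
    have h1 : IsLocalRing.residue V.valuationSubring pR.leadingCoeff ≠ 0 :=
      (hu.map (IsLocalRing.residue V.valuationSubring)).ne_zero
    refine ⟨?_, ?_⟩
    · rw [natDegree_map_of_leadingCoeff_ne_zero _ h1, hpRd]
    · rw [leadingCoeff_map_of_leadingCoeff_ne_zero _ h1]
      exact h1.isUnit
  have hl1 : (d : IsLocalRing.ResidueField V.valuationSubring) ≠ 0 := by
    intro h0
    have hu : IsUnit (d : V.valuationSubring) := by
      apply unit_of_val V
      have : ((d : V.valuationSubring) : K) = (d : K) := by push_cast; rfl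
      rw [this]
      exact hv
    have h1 : IsLocalRing.residue V.valuationSubring (d : V.valuationSubring) = 0 := by
      rw [map_natCast]
      exact h0
    exact (hu.map (IsLocalRing.residue V.valuationSubring)).ne_zero h1
  obtain ⟨z0, hz00, hz0⟩ := exists_add_inv (algebraMap (IsLocalRing.ResidueField V.valuationSubring)
    (AlgebraicClosure (IsLocalRing.ResidueField V.valuationSubring)) bk)
  have hl2 : (d : AlgebraicClosure (IsLocalRing.ResidueField V.valuationSubring)) ≠ 0 := by
    intro h0
    apply hl1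
    have := (algebraMap (IsLocalRing.ResidueField V.valuationSubring)
      (AlgebraicClosure (IsLocalRing.ResidueField V.valuationSubring))).injective
    apply this
    rw [map_natCast, map_zero]
    exact h0
  have hcr : (derivative (dickson 1 (1 : AlgebraicClosure
      (IsLocalRing.ResidueField V.valuationSubring)) d)).eval (z0 + z0⁻¹) = 0 := by
    have h1 : (derivative pR * qR - pR * derivative qR).eval bR = 0 := by
      apply hinjK
      rw [map_zero, ← eval_map_apply, Polynomial.map_sub, Polynomial.map_mul, Polynomial.map_mul,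
        ← derivative_map, ← derivative_map, hpR, hqR, hbR]
      exact hcrit
    have h2 : (derivative (dickson 1 (1 : IsLocalRing.ResidueField V.valuationSubring)
        d)).eval bk = 0 := by
      have h4 : ((derivative pR * qR - pR * derivative qR).map
          (IsLocalRing.residue V.valuationSubring)).eval bk = 0 := by
        rw [hbk, eval_map_apply, h1, map_zero]
      rw [Polynomial.map_sub, Polynomial.map_mul, Polynomial.map_mul, ← derivative_map,
        ← derivative_map, hredk, hredqk, derivative_one, mul_zero, sub_zero, mul_one,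
        derivative_C_mul, eval_C_mul] at h4
      rcases mul_eq_zero.1 h4 with h5 | h5
      · exfalso
        rw [h5] at hεk2
        simp at hεk2
      · exact h5
    have h3 := map_dickson (k := 1) (a := (1 : IsLocalRing.ResidueField V.valuationSubring))
      (algebraMap (IsLocalRing.ResidueField V.valuationSubring)
        (AlgebraicClosure (IsLocalRing.ResidueField V.valuationSubring))) d
    rw [map_one] at h3
    rw [← hz0, ← h3, derivative_map, eval_map_apply, h2, map_zero]
  have hz1 : z0 ^ 2 ≠ 1 := by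
    intro h0
    have h1 : z0 * z0 = 1 := by rw [← pow_two]; exact h0
    have h2 : z0⁻¹ = z0 := by
      exact inv_eq_of_mul_eq_one_left h1
    rw [h2, dick_der2 h1] at hcr
    rcases mul_eq_zero.1 hcr with h3 | h3
    · exact hl2 (eq_zero_of_pow_eq_zero h3)
    · exact hz00 (eq_zero_of_pow_eq_zero h3)
  have hz2 : z0 ^ (2 * d) = 1 := by
    have h1 := dick_der hz00 d
    rw [hcr, mul_zero] at h1
    rcases mul_eq_zero.1 h1.symm with h3 | h3
    · exfalso
      exact hl2 h3
    · have h4 : z0 ^ d * z0 ^ d = 1 := by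
        have h5 : z0 ^ d = (z0 ^ d)⁻¹ := by
          rw [← inv_pow]
          exact sub_eq_zero.1 h3
        nth_rewrite 2 [h5]
        exact mul_inv_cancel₀ (pow_ne_zero _ hz00)
      rw [two_mul, pow_add, h4]
  have hz3 : ∀ ℓ a m : ℕ, ℓ.Prime → 1 ≤ a → d = ℓ ^ a * m → ¬ ℓ ∣ m → (z0 ^ 2) ^ m ≠ 1 := by
    intro ℓ a m h1 h2 h3 h4 h5
    have hVm := hprim' ℓ a m h1 h2 h3 h4
    have e1 : (derivative (dickson 1 (1 : K) m)).eval β = (((derivative (dickson 1
        (1 : V.valuationSubring) m)).eval bR : V.valuationSubring) : K) := by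
      have h6 := map_dickson (k := 1) (a := (1 : V.valuationSubring))
        (algebraMap V.valuationSubring K) m
      rw [map_one] at h6
      rw [← h6, derivative_map, ← hbR, eval_map_apply]
      rfl
    rw [e1] at hVm
    have hu := (unit_of_val V hVm).map (IsLocalRing.residue V.valuationSubring)
    apply hu.ne_zero
    apply (algebraMap (IsLocalRing.ResidueField V.valuationSubring)
      (AlgebraicClosure (IsLocalRing.ResidueField V.valuationSubring))).injective
    rw [map_zero]
    have h7 := map_dickson (k := 1) (a := (1 : V.valuationSubring))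
      (IsLocalRing.residue V.valuationSubring) m
    rw [map_one] at h7
    have h8 := map_dickson (k := 1) (a := (1 : IsLocalRing.ResidueField V.valuationSubring))
      (algebraMap (IsLocalRing.ResidueField V.valuationSubring)
        (AlgebraicClosure (IsLocalRing.ResidueField V.valuationSubring))) m
    rw [map_one] at h8
    rw [← eval_map_apply, ← derivative_map, h7, ← eval_map_apply, ← derivative_map, h8, ← hbk,
      hz0]
    have h9 := dick_der hz00 m
    have h10 : z0 ^ m - z0⁻¹ ^ m = 0 := by
      rw [inv_pow, sub_eq_zero]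
      apply eq_inv_of_mul_eq_one_left
      rw [← mul_pow, ← pow_two]
      exact h5
    rw [h10, mul_zero] at h9
    rcases mul_eq_zero.1 h9 with h11 | h11
    · exfalso
      apply hz1
      have h12 : z0 = z0⁻¹ := sub_eq_zero.1 h11
      rw [pow_two]
      nth_rewrite 2 [h12]
      exact mul_inv_cancel₀ hz00
    · exact h11
  refine ⟨Nat.card (IsLocalRing.ResidueField V.valuationSubring) ^ (2 * d.totient) - 1, ?_⟩
  intro n g hgm hgi hgd
  -- the lift of `RP`
  obtain ⟨R0, hR0⟩ : ∃ R0 : V.valuationSubring[X],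
      R0 = (lodPQ d pR qR n).1 - C bR * (lodPQ d pR qR n).2 := ⟨_, rfl⟩
  have hPQ : PQ p q n = ((lodPQ d pR qR n).1.map (algebraMap V.valuationSubring K),
      (lodPQ d pR qR n).2.map (algebraMap V.valuationSubring K)) := by
    rw [← lodPQ_map, hpR, hqR, ← hdeg, lodPQ_eq]
  have hR0K : R0.map (algebraMap V.valuationSubring K) = RP p q β n := by
    rw [hR0, RP, hPQ, Polynomial.map_sub, Polynomial.map_mul, map_C, hbR]
  have hR0k : R0.map (IsLocalRing.residue V.valuationSubring) =
      ((pR.map (IsLocalRing.residue V.valuationSubring)).comp)^[n] X - C bk := by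
    have hres : ((lodPQ d pR qR n).1.map (IsLocalRing.residue V.valuationSubring),
        (lodPQ d pR qR n).2.map (IsLocalRing.residue V.valuationSubring)) =
        (((pR.map (IsLocalRing.residue V.valuationSubring)).comp)^[n] X, 1) := by
      rw [← lodPQ_map, hredqk, lodPQ_comp hpkl.1.le]
    rw [Prod.mk.injEq] at hres
    rw [hR0, Polynomial.map_sub, Polynomial.map_mul, map_C, hres.1, hres.2, mul_one, hbk]
  have hd1 : 1 ≤ (pR.map (IsLocalRing.residue V.valuationSubring)).natDegree := by
    rw [hpkl.1]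
    exact hd
  obtain ⟨hI1, hI2⟩ := lc_iter hpkl.2 hd1 n
  have hpos : 0 < d ^ n := by positivity
  have hRdeg : R0.natDegree = d ^ n := by
    rw [← natDegree_map_eq_of_injective hinjK, hR0K, rp_deg hq, hdeg]
  have hR0l : IsUnit R0.leadingCoeff := by
    apply unit_of_val V
    refine lod_one _ ?_
    rw [leadingCoeff, ← coeff_map, hR0k, hRdeg, coeff_sub, coeff_C, if_neg hpos.ne', sub_zero]
    rw [leadingCoeff, hI1, hpkl.1] at hI2
    exact hI2.ne_zero
  obtain ⟨x, hx⟩ := IsAlgClosed.exists_aeval_eq_zero (AlgebraicClosure K) g hgi.degree_pos.ne'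
  have hgx : minpoly K x = g := (minpoly.eq_of_irreducible_of_monic hgi hx hgm).symm
  have hFx : aeval x R0 = 0 := by
    obtain ⟨g', hg'⟩ := hgd
    have h1 : aeval x (R0.map (algebraMap V.valuationSubring K)) = 0 := by
      rw [hR0K, hg', map_mul, hx, zero_mul]
    rwa [aeval_map_algebraMap] at h1
  obtain ⟨ξ, hξ, hξd⟩ := lift_root V hR0l hFx
  rw [hgx] at hξd
  obtain ⟨z, hz, rfl⟩ := exists_add_inv ξ
  obtain ⟨εc, hεc⟩ : ∃ x, x = algebraMap (IsLocalRing.ResidueField V.valuationSubring)
    (AlgebraicClosure (IsLocalRing.ResidueField V.valuationSubring)) εk := ⟨_, rfl⟩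
  have hεc2 : εc ^ 2 = 1 := by rw [hεc, ← map_pow, hεk2, map_one]
  obtain ⟨w, hw0, hw2, hwi⟩ := cheb_iter hεc2 d n hz
  have hfun : (fun y => εc * (dickson 1 (1 : AlgebraicClosure
      (IsLocalRing.ResidueField V.valuationSubring)) d).eval y) =
      fun y => aeval y (pR.map (IsLocalRing.residue V.valuationSubring)) := by
    funext y
    have h3 := map_dickson (k := 1) (a := (1 : IsLocalRing.ResidueField V.valuationSubring))
      (algebraMap (IsLocalRing.ResidueField V.valuationSubring)
        (AlgebraicClosure (IsLocalRing.ResidueField V.valuationSubring))) d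
    rw [map_one] at h3
    rw [hredk, map_mul, aeval_C, ← hεc, ← h3, eval_map_algebraMap]
  have hww : w + w⁻¹ = z0 + z0⁻¹ := by
    rw [← hwi, hfun, ← hz0]
    rw [hR0k, map_sub, aeval_C, sub_eq_zero] at hξ
    rw [← hξ]
    exact (aeval_iter' (pR.map (IsLocalRing.residue V.valuationSubring)) n (z + z⁻¹)).symm
  have hM : (z ^ 2) ^ (d ^ n) = z0 ^ 2 ∨ (z ^ 2) ^ (d ^ n) = (z0 ^ 2)⁻¹ := by
    rw [← hw2]
    rcases inv_eq_of_add hw0 hz00 hww with h | h
    · left; rw [h]
    · right; rw [h, inv_pow]
  have h9 := core3 hd hl1 hz2 hz3 n hz hM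
  exact h9.trans (Nat.mul_le_mul_left _ hξd)


/-- Chebyshev reduction of a rational map implies eventual stability -/
theorem cheb_esr' {K : Type} [Field K] [NumberField K] (v : HeightOneSpectrum (𝓞 K)) {p q : K[X]}
    {β ε : K} {d : ℕ} (hd : 1 ≤ d) (hv : v.valuation K (d : K) = 1)
    (hdeg : p.natDegree = d) (hq : q.natDegree < p.natDegree) (hε : ε ^ 2 = 1)
    (hred : ∀ i, v.valuation K ((p - C ε * dickson 1 (1 : K) d).coeff i) < 1)
    (hlc : v.valuation K p.leadingCoeff = 1)
    (hredq : ∀ i, v.valuation K ((q - 1).coeff i) < 1)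
    (hβ : v.valuation K β ≤ 1)
    (hcrit : (derivative p * q - p * derivative q).eval β = 0)
    (hprim : ∀ ℓ a m : ℕ, ℓ.Prime → 1 ≤ a → d = ℓ ^ a * m → ¬ ℓ ∣ m →
      v.valuation K ((derivative (dickson 1 (1 : K) m)).eval β) = 1) : ESR p q β := by
  classical
  obtain ⟨C0, hC⟩ := cheb_lower' v hd hv hdeg hq hε hred hlc hredq hβ hcrit hprim
  refine ⟨C0, fun n => ?_⟩
  have hne : RP p q β n ≠ 0 := rp_ne hq n
  have hfin := ELoc_fin hne
  rw [Set.ncard_eq_toFinset_card _ hfin]
  obtain ⟨s, hs⟩ : ∃ s, s = hfin.toFinset := ⟨_, rfl⟩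
  rw [← hs]
  have hmem : ∀ g ∈ s, g.Monic ∧ Irreducible g ∧ g ∣ RP p q β n := by
    intro g hg
    rw [hs, Set.Finite.mem_toFinset] at hg
    exact hg
  have hFdeg : (RP p q β n).natDegree = d ^ n := by
    rw [rp_deg hq, hdeg]
  have hprod : ∏ g ∈ s, g ∣ RP p q β n := by
    refine Finset.prod_dvd_of_coprime ?_ (fun g hg => (hmem g hg).2.2)
    intro g hg g' hg' hne'
    refine ((hmem g hg).2.1).coprime_iff_not_dvd.2 ?_
    intro hdv
    apply hne'
    exact eq_of_monic_of_associated (hmem g hg).1 (hmem g' hg').1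
      ((hmem g hg).2.1.associated_of_dvd (hmem g' hg').2.1 hdv)
  have hsum : ∑ g ∈ s, g.natDegree ≤ d ^ n := by
    rw [← natDegree_prod_of_monic s (fun g => g) (fun g hg => (hmem g hg).1), ← hFdeg]
    exact natDegree_le_of_dvd hprod hne
  have hcard : s.card * d ^ n ≤ C0 * d ^ n := by
    calc s.card * d ^ n = ∑ g ∈ s, d ^ n := by
          rw [Finset.sum_const, smul_eq_mul]
      _ ≤ ∑ g ∈ s, C0 * g.natDegree :=
          Finset.sum_le_sum fun g hg => hC n g (hmem g hg).1 (hmem g hg).2.1 (hmem g hg).2.2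
      _ = C0 * ∑ g ∈ s, g.natDegree := by rw [Finset.mul_sum]
      _ ≤ C0 * d ^ n := Nat.mul_le_mul_left _ hsum
  have hpos : 0 < d ^ n := by positivity
  exact Nat.le_of_mul_le_mul_right hcard hpos

end Pool.Agent.H42.QP
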