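import Pool.Agent.H42.QP.DickD
import Pool.Agent.H42.RM.LOa

/-! ROW ESab (helper69). Eventual stability of `(x^2 + c, 0)` at a prime `v` with `v c < 1`, resp. `v 2 < 1`, `v c ≤ 1` (the orbit of
`0` may be finite, so loc_A, loc_B of H42/RM/LOc, LOe, which assume an infinite orbit, cannot be cited; `fac_count` (RM/LOa) is
general). `F n = ((X^2 + C c).comp)^[n] X`, monic of degree `2^n`, `F (n+1) = F n ^ 2 + C c`. The minimal polynomials of the roots of `F n`
are its monic irreducible factors (they are monic, irreducible and divide `F n`: as in es_of_lower, DickD.lean; only this inclusion is needed).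
 (A) `V (c) = exp (-ν)`. For `i < 2^n`, `V ((F n).coeff i) < 1` (induction: `F n = X^N + S`, `S` small coefficients, `F n ^ 2 + c = X^(2N) + 2 X^N S + S^2 + c`).
   `V ((F n).eval 0) = V c` for `n ≥ 1` (`F (n+1) (0) = F n (0)^2 + c`, `V (c)^2 < V c`). fac_count with `b = 0` (`comp (X + C 0)` is the identity): at most `ν`
   factors for `n ≥ 1`. For `n = 0`: the set is contained in `{X}` (`minpoly K 0 = X`).
 (B) `F n = X^(2^n) + γ + small` with `γ` integral (induction, `V 2 < 1`). `f x - f y = (x - y)(x + y)`, `x + y = (x - y) + 2 y`: for `x, y` integral,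
   `V (x - y) < 1` iff `V (f x - f y) < 1` (`V (x+y) < 1` iff `V (x - y) < 1`), and then `V (f x - f y) < V (x - y)` if `x ≠ y`. The residue field is finite
   (finite_res, DickB.lean; or `LOe` proof: two of the `f^i(0)` are congruent), so there is `m ≥ 1` with `V (f^m 0) < 1`; `f^m(0) ≠ 0` by hper.
   `V (f^(jm) 0) = V (f^m 0) = exp (-ν)` for `j ≥ 1`: `f^((j+1)m)(0) - f^(jm)(0) = f^(jm)(f^m 0) - f^(jm)(0)` has value `< V (f^m 0)`. (See LOe_rigid in RM/LOe.lean.)
   For `n = jm`: `F n ≡ X^(2^n)`, fac_count with `b = 0`: at most `ν` factors. For arbitrary `n` take `n ≤ (n+1) m =: N`; the set of minimal polynomials of level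
   `n` is the image of that of level `N` under `minpoly x ↦ minpoly (f^(N-n) x)` (well defined: conjugate points, see LOb_wd / LOb_surj in RM/LOb.lean), so it has at
   most as many elements (Set.ncard_image_le, Set.ncard_le_ncard; the set of level `N` is finite). -/

set_option autoImplicit false

open Polynomial NumberField IsDedekindDomain

namespace Pool.Agent.H42.QP

section esab

open WithZero

variable {K : Type} [Field K]

/-- small coefficients -/
private def Sm (V : Valuation K ℤᵐ⁰) (f : K[X]) : Prop := ∀ i, V (f.coeff i) < 1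

/-- integral coefficients -/
private def In (V : Valuation K ℤᵐ⁰) (f : K[X]) : Prop := ∀ i, V (f.coeff i) ≤ 1

private theorem in_add {V : Valuation K ℤᵐ⁰} {f g : K[X]} (hf : In V f) (hg : In V g) :
    In V (f + g) := by
  intro i
  rw [coeff_add]
  exact Valuation.map_add_le _ (hf i) (hg i)

private theorem in_C {V : Valuation K ℤᵐ⁰} {a : K} (ha : V a ≤ 1) : In V (C a) := by
  intro i
  rw [coeff_C]
  split_ifs
  · exact ha
  · rw [map_zero]
    exact zero_le_one

private theorem in_Xpow {V : Valuation K ℤᵐ⁰} (n : ℕ) : In V ((X : K[X]) ^ n) := by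
  intro i
  rw [coeff_X_pow]
  split_ifs
  · rw [map_one]
  · rw [map_zero]
    exact zero_le_one

private theorem sm_add {V : Valuation K ℤᵐ⁰} {f g : K[X]} (hf : Sm V f) (hg : Sm V g) :
    Sm V (f + g) := by
  intro i
  rw [coeff_add]
  exact Valuation.map_add_lt _ (hf i) (hg i)

private theorem sm_mul {V : Valuation K ℤᵐ⁰} {f g : K[X]} (hf : Sm V f) (hg : In V g) :
    Sm V (f * g) := by
  intro i
  rw [coeff_mul]
  refine Valuation.map_sum_lt _ one_ne_zero fun x _ => ?_
  rw [map_mul]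
  exact mul_lt_one_of_lt_of_le (hf _) (hg _)

private theorem sm_C {V : Valuation K ℤᵐ⁰} {a : K} (ha : V a < 1) : Sm V (C a) := by
  intro i
  rw [coeff_C]
  split_ifs
  · exact ha
  · rw [map_zero]
    exact zero_lt_one

/-- the iterates of `X ^ 2 + c` -/
private noncomputable def Fn (c : K) (n : ℕ) : K[X] := ((X ^ 2 + C c : K[X]).comp)^[n] X

private theorem Fn_zero (c : K) : Fn c 0 = X := rfl

private theorem Fn_succ (c : K) (n : ℕ) : Fn c (n + 1) = Fn c n ^ 2 + C c := by
  unfold Fn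
  rw [Function.iterate_succ_apply']
  simp

private theorem Fn_monic (c : K) (n : ℕ) : (Fn c n).Monic ∧ (Fn c n).natDegree = 2 ^ n := by
  induction n with
  | zero => exact ⟨monic_X, by rw [Fn_zero, natDegree_X, pow_zero]⟩
  | succ n ih =>
    have h1 : (Fn c n ^ 2).natDegree = 2 ^ (n + 1) := by
      rw [natDegree_pow, ih.2, pow_succ, mul_comm]
    have h2 : (C c : K[X]).degree < (Fn c n ^ 2).degree := by
      refine lt_of_le_of_lt degree_C_le ?_
      rw [degree_eq_natDegree (ih.1.pow 2).ne_zero, h1]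
      exact_mod_cast (by positivity : 0 < 2 ^ (n + 1))
    rw [Fn_succ]
    refine ⟨(ih.1.pow 2).add_of_left h2, ?_⟩
    rw [natDegree_add_C, h1]

private theorem Fn_eval (c : K) (n : ℕ) (x : K) :
    (Fn c n).eval x = (fun y : K => y ^ 2 + c)^[n] x := by
  induction n with
  | zero => rw [Fn_zero, eval_X]; rfl
  | succ n ih =>
    rw [Fn_succ, Function.iterate_succ_apply', ← ih]
    simp

/-- form of the iterates if two is not a unit -/
private theorem Fn_form {V : Valuation K ℤᵐ⁰} {c : K} (h2 : V 2 < 1) (hc : V c ≤ 1) (n : ℕ) :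
    ∃ γ : K, V γ ≤ 1 ∧ Sm V (Fn c n - (X ^ (2 ^ n) + C γ)) := by
  induction n with
  | zero =>
    refine ⟨0, by rw [map_zero]; exact zero_le_one, ?_⟩
    intro i
    rw [Fn_zero]
    simp
  | succ n ih =>
    obtain ⟨γ, hγ, hs⟩ := ih
    have hG : In V (X ^ (2 ^ n) + C γ : K[X]) := in_add (in_Xpow _) (in_C hγ)
    have hF : In V (Fn c n) := by
      have e : Fn c n = (Fn c n - (X ^ (2 ^ n) + C γ)) + (X ^ (2 ^ n) + C γ) := by ring
      rw [e]
      exact in_add (fun i => (hs i).le) hG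
    refine ⟨γ ^ 2 + c, ?_, ?_⟩
    · refine Valuation.map_add_le _ ?_ hc
      rw [map_pow]
      exact pow_le_one' hγ 2
    · have e : Fn c (n + 1) - (X ^ (2 ^ (n + 1)) + C (γ ^ 2 + c)) =
          (Fn c n - (X ^ (2 ^ n) + C γ)) * (Fn c n + (X ^ (2 ^ n) + C γ)) +
            C (2 * γ) * X ^ (2 ^ n) := by
        rw [Fn_succ, pow_succ 2 n, pow_mul, C_add, C_pow, C_mul]
        have : (C (2 : K) : K[X]) = 2 := rfl
        rw [this]
        ring
      rw [e]
      refine sm_add (sm_mul hs (in_add hF hG)) (sm_mul (sm_C ?_) (in_Xpow _))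
      rw [map_mul]
      exact mul_lt_one_of_lt_of_le h2 hγ

private theorem Fn_formA {V : Valuation K ℤᵐ⁰} {c : K} (hc : V c < 1) (n : ℕ) :
    Sm V (Fn c n - X ^ (2 ^ n)) := by
  induction n with
  | zero =>
    intro i
    rw [Fn_zero]
    simp
  | succ n ih =>
    have hF : In V (Fn c n) := by
      have e : Fn c n = (Fn c n - X ^ (2 ^ n)) + X ^ (2 ^ n) := by ring
      rw [e]
      exact in_add (fun i => (ih i).le) (in_Xpow _)
    have e : Fn c (n + 1) - X ^ (2 ^ (n + 1)) =
        (Fn c n - X ^ (2 ^ n)) * (Fn c n + X ^ (2 ^ n)) + C c := by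
      rw [Fn_succ, pow_succ 2 n, pow_mul]
      ring
    rw [e]
    exact sm_add (sm_mul ih (in_add hF (in_Xpow _))) (sm_C hc)

private theorem low_of_form {V : Valuation K ℤᵐ⁰} {c : K} {n : ℕ} {γ : K} (hγ : V γ < 1)
    (hs : Sm V (Fn c n - (X ^ (2 ^ n) + C γ))) : ∀ i < 2 ^ n, V ((Fn c n).coeff i) < 1 := by
  intro i hi
  have h1 := hs i
  have h2 := sm_C (V := V) hγ i
  have e : (Fn c n).coeff i = (Fn c n - (X ^ (2 ^ n) + C γ)).coeff i + (C γ : K[X]).coeff i := by
    rw [coeff_sub, coeff_add, coeff_X_pow, if_neg hi.ne]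
    ring
  rw [e]
  exact Valuation.map_add_lt _ h1 h2

/-- the minimal polynomials of level `n` -/
private def Lv (c : K) (n : ℕ) : Set K[X] :=
  {g : K[X] | ∃ x : AlgebraicClosure K,
    (fun y => y ^ 2 + algebraMap K (AlgebraicClosure K) c)^[n] x = 0 ∧ g = minpoly K x}

private theorem Lv_root (c : K) (n : ℕ) (x : AlgebraicClosure K) :
    aeval x (Fn c n) = (fun y => y ^ 2 + algebraMap K (AlgebraicClosure K) c)^[n] x := by
  induction n with
  | zero => rw [Fn_zero, aeval_X]; rfl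
  | succ n ih =>
    rw [Fn_succ, Function.iterate_succ_apply', ← ih]
    simp

private theorem Lv_sub (c : K) (n : ℕ) :
    Lv c n ⊆ {g : K[X] | g.Monic ∧ Irreducible g ∧ g ∣ Fn c n} := by
  rintro g ⟨x, hx, rfl⟩
  have hint : IsIntegral K x := Algebra.IsIntegral.isIntegral x
  exact ⟨minpoly.monic hint, minpoly.irreducible hint, minpoly.dvd K x (by rw [Lv_root, hx])⟩

private theorem Lv_fin (c : K) (n : ℕ) : (Lv c n).Finite :=
  (Pool.Agent.H42.PC.ELoc_fin (Fn_monic c n).1.ne_zero).subset (Lv_sub c n)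

private theorem Lv_mono (c : K) (n : ℕ) : (Lv c n).ncard ≤ (Lv c (n + 1)).ncard := by
  classical
  have hfin := Lv_fin c (n + 1)
  obtain ⟨φ, hφ⟩ : ∃ φ : K[X] → K[X], ∀ x : AlgebraicClosure K,
      φ (minpoly K x) = minpoly K (x ^ 2 + algebraMap K (AlgebraicClosure K) c) := by
    refine ⟨fun g => if h : ∃ x : AlgebraicClosure K, minpoly K x = g then
      minpoly K (h.choose ^ 2 + algebraMap K (AlgebraicClosure K) c) else 0, fun x => ?_⟩
    have hex : ∃ y : AlgebraicClosure K, minpoly K y = minpoly K x := ⟨x, rfl⟩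
    show (if h : ∃ y : AlgebraicClosure K, minpoly K y = minpoly K x then
      minpoly K (h.choose ^ 2 + algebraMap K (AlgebraicClosure K) c) else 0) = _
    rw [dif_pos hex]
    obtain ⟨σ, hσ⟩ := (Normal.minpoly_eq_iff_mem_orbit (F := K) (AlgebraicClosure K)).1
      hex.choose_spec.symm
    have h1 : σ hex.choose = x := hσ
    have h2 : σ (hex.choose ^ 2 + algebraMap K (AlgebraicClosure K) c) =
        x ^ 2 + algebraMap K (AlgebraicClosure K) c := by
      rw [map_add, map_pow, h1, AlgEquiv.commutes]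
    rw [← h2]
    exact (minpoly.algEquiv_eq σ _).symm
  refine le_trans (Set.ncard_le_ncard ?_ (hfin.image φ)) (Set.ncard_image_le hfin)
  rintro g ⟨y, hy, rfl⟩
  obtain ⟨x, hx⟩ := IsAlgClosed.exists_pow_nat_eq (y - algebraMap K (AlgebraicClosure K) c)
    (n := 2) (by norm_num)
  have hxy : x ^ 2 + algebraMap K (AlgebraicClosure K) c = y := by
    rw [hx]
    ring
  refine ⟨minpoly K x, ⟨x, ?_, rfl⟩, ?_⟩
  · rw [Function.iterate_succ_apply]
    change (fun y => y ^ 2 + algebraMap K (AlgebraicClosure K) c)^[n]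
      (x ^ 2 + algebraMap K (AlgebraicClosure K) c) = 0
    rw [hxy]
    exact hy
  · rw [hφ, hxy]

private theorem Lv_le (c : K) {n m : ℕ} (h : n ≤ m) : (Lv c n).ncard ≤ (Lv c m).ncard := by
  induction m, h using Nat.le_induction with
  | base => exact le_rfl
  | succ m hm ih => exact ih.trans (Lv_mono c m)

private theorem es_key (V : Valuation K ℤᵐ⁰) {c : K} {ν : ℕ}
    (h : ∀ n : ℕ, ∃ N : ℕ, n ≤ N ∧ V ((Fn c N).eval 0) = exp (-(ν : ℤ)) ∧
      ∀ i < 2 ^ N, V ((Fn c N).coeff i) < 1) : EventuallyStable (X ^ 2 + C c) 1 0 := by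
  refine ⟨ν, fun n => ?_⟩
  have hset : {g : K[X] | ∃ x : AlgebraicClosure K,
      (rat (X ^ 2 + C c) 1 (AlgebraicClosure K))^[n] (some x) =
      some (algebraMap K (AlgebraicClosure K) 0) ∧ g = minpoly K x} = Lv c n := by
    ext g
    constructor
    · rintro ⟨x, hx, rfl⟩
      rw [rat_one, Option.some_inj, map_zero] at hx
      refine ⟨x, ?_, rfl⟩
      rw [← hx]
      congr 1
      funext y
      simp
    · rintro ⟨x, hx, rfl⟩
      refine ⟨x, ?_, rfl⟩
      rw [rat_one, Option.some_inj, map_zero, ← hx]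
      congr 1
      funext y
      simp
  rw [hset]
  obtain ⟨N, hnN, hν, hlow⟩ := h n
  refine (Lv_le c hnN).trans ?_
  have hfin := Lv_fin c N
  rw [Set.ncard_eq_toFinset_card _ hfin]
  refine Pool.Agent.H42.RM.fac_count V (R := Fn c N) (b := 0) ?_ ?_ hν _ fun g hg => ?_
  · rw [(Fn_monic c N).1.leadingCoeff, map_one]
  · intro i hi
    rw [(Fn_monic c N).2] at hi
    rw [C_0, add_zero, comp_X]
    exact hlow i hi
  · exact Lv_sub c N (hfin.mem_toFinset.1 hg)

private theorem exists_nu {V : Valuation K ℤᵐ⁰} {x : K} (h0 : x ≠ 0) (h1 : V x < 1) :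
    ∃ ν : ℕ, V x = exp (-(ν : ℤ)) := by
  have hval0 : V x ≠ 0 := by
    rw [Valuation.ne_zero_iff]
    exact h0
  rw [← WithZero.exp_log hval0, ← WithZero.exp_zero, WithZero.exp_lt_exp] at h1
  refine ⟨(-WithZero.log (V x)).toNat, ?_⟩
  rw [Int.toNat_of_nonneg (by omega), neg_neg, WithZero.exp_log hval0]

/-- the map `x ^ 2 + c` on integral points if two is not a unit -/
private theorem sq_int {V : Valuation K ℤᵐ⁰} {c : K} (hc : V c ≤ 1) {x : K} (hx : V x ≤ 1) (n : ℕ) :
    V ((fun y : K => y ^ 2 + c)^[n] x) ≤ 1 := by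
  induction n with
  | zero => exact hx
  | succ n ih =>
    rw [Function.iterate_succ_apply']
    refine Valuation.map_add_le _ ?_ hc
    rw [map_pow]
    exact pow_le_one' ih 2

private theorem sq_sub {V : Valuation K ℤᵐ⁰} {c : K} (x y : K) :
    V ((x ^ 2 + c) - (y ^ 2 + c)) = V (x - y) * V (x + y) := by
  rw [← map_mul]
  congr 1
  ring

private theorem sq_back {V : Valuation K ℤᵐ⁰} {c : K} (h2 : V 2 < 1) {x y : K} (hx : V x ≤ 1)
    (hy : V y ≤ 1) (h : V ((x ^ 2 + c) - (y ^ 2 + c)) < 1) : V (x - y) < 1 := by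
  have hle : V (x - y) ≤ 1 := Valuation.map_sub_le _ hx hy
  rcases hle.lt_or_eq with h1 | h1
  · exact h1
  · exfalso
    rw [sq_sub, h1, one_mul] at h
    have e : x + y = (x - y) + 2 * y := by ring
    have h3 : V (2 * y) < 1 := by
      rw [map_mul]
      exact mul_lt_one_of_lt_of_le h2 hy
    rw [e, Valuation.map_add_eq_of_lt_left _ (by rw [h1]; exact h3), h1] at h
    exact lt_irrefl _ h

private theorem sq_lt {V : Valuation K ℤᵐ⁰} {c : K} (h2 : V 2 < 1) {x y : K}
    (hy : V y ≤ 1) (h : V (x - y) < 1) (hne : x ≠ y) :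
    V ((x ^ 2 + c) - (y ^ 2 + c)) < V (x - y) := by
  rw [sq_sub]
  have e : x + y = (x - y) + 2 * y := by ring
  have h3 : V (2 * y) < 1 := by
    rw [map_mul]
    exact mul_lt_one_of_lt_of_le h2 hy
  have h4 : V (x + y) < 1 := by
    rw [e]
    exact Valuation.map_add_lt _ h h3
  have h5 : 0 < V (x - y) := by
    rw [zero_lt_iff, Valuation.ne_zero_iff]
    exact sub_ne_zero.2 hne
  calc V (x - y) * V (x + y) < V (x - y) * 1 := mul_lt_mul_of_pos_left h4 h5
    _ = V (x - y) := mul_one _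

private theorem sq_le {V : Valuation K ℤᵐ⁰} {c : K} (h2 : V 2 < 1) {x y : K}
    (hy : V y ≤ 1) (h : V (x - y) < 1) :
    V ((x ^ 2 + c) - (y ^ 2 + c)) ≤ V (x - y) := by
  by_cases hne : x = y
  · rw [hne, sub_self, sub_self]
  · exact (sq_lt h2 hy h hne).le

private theorem it_back {V : Valuation K ℤᵐ⁰} {c : K} (h2 : V 2 < 1) (hc : V c ≤ 1) (i : ℕ) :
    ∀ {x y : K}, V x ≤ 1 → V y ≤ 1 →
      V ((fun y : K => y ^ 2 + c)^[i] x - (fun y : K => y ^ 2 + c)^[i] y) < 1 → V (x - y) < 1 := by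
  induction i with
  | zero => intro x y _ _ h; exact h
  | succ i ih =>
    intro x y hx hy h
    rw [Function.iterate_succ_apply, Function.iterate_succ_apply] at h
    exact sq_back h2 hx hy (ih (sq_int hc hx 1) (sq_int hc hy 1) h)

private theorem it_le {V : Valuation K ℤᵐ⁰} {c : K} (h2 : V 2 < 1) (hc : V c ≤ 1) (i : ℕ) {x y : K}
    (hy : V y ≤ 1) (h : V (x - y) < 1) :
    V ((fun y : K => y ^ 2 + c)^[i] x - (fun y : K => y ^ 2 + c)^[i] y) ≤ V (x - y) := by
  induction i with
  | zero => exact le_rfl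
  | succ i ih =>
    rw [Function.iterate_succ_apply', Function.iterate_succ_apply']
    exact (sq_le h2 (sq_int hc hy i) (lt_of_le_of_lt ih h)).trans ih

private theorem it_lt {V : Valuation K ℤᵐ⁰} {c : K} (h2 : V 2 < 1) (hc : V c ≤ 1) {i : ℕ}
    (hi : i ≠ 0) {x y : K} (hy : V y ≤ 1) (h : V (x - y) < 1) (hne : x ≠ y) :
    V ((fun y : K => y ^ 2 + c)^[i] x - (fun y : K => y ^ 2 + c)^[i] y) < V (x - y) := by
  obtain ⟨k, rfl⟩ : ∃ k, i = k + 1 := ⟨i - 1, by omega⟩
  rw [Function.iterate_succ_apply, Function.iterate_succ_apply]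
  have h1 := sq_lt (c := c) h2 hy h hne
  exact lt_of_le_of_lt (it_le h2 hc k (sq_int hc hy 1) (h1.trans h)) h1

private theorem rigid {V : Valuation K ℤᵐ⁰} {c : K} (h2 : V 2 < 1) (hc : V c ≤ 1) {m : ℕ}
    (hm : m ≠ 0) (h : V ((fun y : K => y ^ 2 + c)^[m] 0) < 1)
    (hne : (fun y : K => y ^ 2 + c)^[m] 0 ≠ 0) {j : ℕ} (hj : 1 ≤ j) :
    V ((fun y : K => y ^ 2 + c)^[j * m] 0) = V ((fun y : K => y ^ 2 + c)^[m] 0) := by
  have h00 : V (0 : K) ≤ 1 := by rw [map_zero]; exact zero_le_one
  induction j, hj using Nat.le_induction with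
  | base => rw [one_mul]
  | succ j hj ih =>
    have h1 := it_lt (i := j * m) h2 hc (Nat.mul_ne_zero (by omega) hm) h00
      (x := (fun y : K => y ^ 2 + c)^[m] 0) (by rw [sub_zero]; exact h) hne
    rw [← Function.iterate_add_apply, show j * m + m = (j + 1) * m by ring, sub_zero, ← ih] at h1
    have e : (fun y : K => y ^ 2 + c)^[(j + 1) * m] 0 = (fun y : K => y ^ 2 + c)^[j * m] 0 +
        ((fun y : K => y ^ 2 + c)^[(j + 1) * m] 0 - (fun y : K => y ^ 2 + c)^[j * m] 0) := by ring
    rw [e, Valuation.map_add_eq_of_lt_left _ h1, ih]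

end esab

theorem quad_es_A {K : Type} [Field K] [NumberField K] {c : K} (hc : c ≠ 0)
    {v : HeightOneSpectrum (𝓞 K)} (hv : v.valuation K c < 1) :
    EventuallyStable (X ^ 2 + C c) 1 0 := by
  obtain ⟨ν, hν⟩ := exists_nu hc hv
  refine es_key (v.valuation K) (ν := ν) fun n => ⟨n + 1, by omega, ?_, ?_⟩
  · rw [← hν]
    have hval : ∀ n : ℕ, v.valuation K ((Fn c (n + 1)).eval 0) = v.valuation K c := by
      intro n
      induction n with
      | zero =>
        rw [Fn_succ, Fn_zero]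
        simp
      | succ n ih =>
        rw [Fn_succ, eval_add, eval_pow, eval_C]
        refine Valuation.map_add_eq_of_lt_right _ ?_
        rw [map_pow, ih, pow_two]
        have h0 : 0 < v.valuation K c := by
          rw [zero_lt_iff, Valuation.ne_zero_iff]
          exact hc
        calc v.valuation K c * v.valuation K c < 1 * v.valuation K c :=
              mul_lt_mul_of_pos_right hv h0
          _ = v.valuation K c := one_mul _
    exact hval n
  · refine low_of_form (γ := 0) (by rw [map_zero]; exact zero_lt_one) ?_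
    rw [C_0, add_zero]
    exact Fn_formA hv (n + 1)

theorem quad_es_B {K : Type} [Field K] [NumberField K] {c : K}
    (hper : ∀ n, 1 ≤ n → (fun x : K => x ^ 2 + c)^[n] 0 ≠ 0)
    {v : HeightOneSpectrum (𝓞 K)} (hv2 : v.valuation K ((2 : ℕ) : K) < 1)
    (hv : v.valuation K c ≤ 1) :
    EventuallyStable (X ^ 2 + C c) 1 0 := by
  classical
  have h2 : v.valuation K 2 < 1 := by exact_mod_cast hv2
  have h00 : v.valuation K (0 : K) ≤ 1 := by rw [map_zero]; exact zero_le_one
  obtain ⟨o, ho⟩ : ∃ o : ℕ → K, o = fun n => (fun x : K => x ^ 2 + c)^[n] 0 := ⟨_, rfl⟩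
  have hoi : ∀ n, v.valuation K (o n) ≤ 1 := fun n => by
    rw [ho]
    exact sq_int hv h00 n
  have hap : ∀ n : ℕ, ∃ a : 𝓞 K, v.valuation K (algebraMap (𝓞 K) K a - o n) < 1 := fun n => by
    obtain ⟨a, ha⟩ := v.exists_valuation_sub_lt_of_integer (hoi n) 1
    refine ⟨a, ?_⟩
    simpa using ha
  choose a ha using hap
  have hfin : Finite (𝓞 K ⧸ v.asIdeal) := Ring.HasFiniteQuotients.finiteQuotient v.ne_bot
  obtain ⟨i, j, hij, he⟩ := Finite.exists_ne_map_eq_of_infinite
    (fun i : ℕ => Ideal.Quotient.mk v.asIdeal (a i))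
  have hclose : ∀ i j : ℕ, Ideal.Quotient.mk v.asIdeal (a i) = Ideal.Quotient.mk v.asIdeal (a j) →
      v.valuation K (o i - o j) < 1 := by
    intro i j he
    have he1 : v.valuation K (algebraMap (𝓞 K) K (a i - a j)) < 1 :=
      (v.valuation_lt_one_iff_mem _).2 (Ideal.Quotient.eq.1 he)
    rw [map_sub] at he1
    have e1 : o i - o j =
        (algebraMap (𝓞 K) K (a i) - algebraMap (𝓞 K) K (a j)) -
        (algebraMap (𝓞 K) K (a i) - o i) +
        (algebraMap (𝓞 K) K (a j) - o j) := by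
      ring
    rw [e1]
    exact (v.valuation K).map_add_lt ((v.valuation K).map_sub_lt he1 (ha i)) (ha j)
  obtain ⟨i, m, hm, him⟩ : ∃ i m : ℕ, m ≠ 0 ∧ v.valuation K (o (i + m) - o i) < 1 := by
    rcases Nat.lt_or_gt_of_ne hij with h | h
    · refine ⟨i, j - i, by omega, ?_⟩
      rw [show i + (j - i) = j by omega]
      exact hclose j i he.symm
    · refine ⟨j, i - j, by omega, ?_⟩
      rw [show j + (i - j) = i by omega]
      exact hclose i j he
  have hm1 : v.valuation K ((fun x : K => x ^ 2 + c)^[m] 0) < 1 := by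
    have h3 := it_back h2 hv i (x := (fun x : K => x ^ 2 + c)^[m] 0) (y := 0)
      (sq_int hv h00 m) h00 (by
        rw [← Function.iterate_add_apply]
        rw [ho] at him
        exact him)
    rwa [sub_zero] at h3
  have hmne : (fun x : K => x ^ 2 + c)^[m] 0 ≠ 0 := hper m (by omega)
  obtain ⟨ν, hν⟩ := exists_nu hmne hm1
  refine es_key (v.valuation K) (ν := ν) fun n => ⟨(n + 1) * m, ?_, ?_, ?_⟩
  · nlinarith [Nat.pos_of_ne_zero hm]
  · rw [Fn_eval, rigid h2 hv hm hm1 hmne (by omega), hν]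
  · obtain ⟨γ, hγ, hs⟩ := Fn_form h2 hv ((n + 1) * m)
    refine low_of_form (γ := γ) ?_ hs
    have h3 : v.valuation K ((Fn c ((n + 1) * m)).eval 0) < 1 := by
      rw [Fn_eval, rigid h2 hv hm hm1 hmne (by omega)]
      exact hm1
    have h4 := hs 0
    rw [← coeff_zero_eq_eval_zero] at h3
    have e : γ = (Fn c ((n + 1) * m)).coeff 0 -
        (Fn c ((n + 1) * m) - (X ^ (2 ^ ((n + 1) * m)) + C γ)).coeff 0 := by
      rw [coeff_sub, coeff_add, coeff_X_pow, if_neg (by positivity), coeff_C_zero]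
      ring
    rw [e]
    exact (v.valuation K).map_sub_lt h3 h4

end Pool.Agent.H42.QP
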