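import Pool.Agent.H42.QP.Quad
import Pool.Agent.H42.QP.ESab

/-! General quadratic polynomials. -/

set_option autoImplicit false

open Polynomial NumberField IsDedekindDomain Filter Topology

namespace Pool.Agent.H42.QP

section conj

variable {K : Type} [Field K] {f : K[X]} {β : K}

/-- `f (x) - β` in the coordinate centered at the critical point -/
theorem quad_form (hf : f.natDegree = 2) (hβ : (derivative f).eval β = 0) {A : Type} [Field A]
    [Algebra K A] (x : A) :
    aeval x f - algebraMap K A (f.eval β) =
      algebraMap K A f.leadingCoeff * (x - algebraMap K A β) ^ 2 := by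
  obtain ⟨a, b, e, hfe⟩ : ∃ a b e, f = C a * X ^ 2 + C b * X + C e := by
    refine ⟨f.coeff 2, f.coeff 1, f.coeff 0, ?_⟩
    have := f.as_sum_range_C_mul_X_pow
    rw [hf] at this
    rw [this]
    simp [Finset.sum_range_succ]
    ring
  have ha : f.leadingCoeff = a := by
    rw [leadingCoeff, hf, hfe]
    simp [coeff_X, coeff_C]
  have hd : 2 * a * β + b = 0 := by
    rw [hfe] at hβ
    simp at hβ
    linear_combination hβ
  have hd' : 2 * algebraMap K A a * algebraMap K A β + algebraMap K A b = 0 := by
    have := congrArg (algebraMap K A) hd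
    rw [map_add, map_mul, map_mul, map_zero, map_ofNat] at this
    exact this
  rw [ha, hfe]
  simp only [map_add, map_mul, aeval_C, aeval_X, map_pow, eval_add, eval_mul, eval_C, eval_X,
    eval_pow]
  linear_combination (x - algebraMap K A β) * hd'

theorem quad_conj (hf : f.natDegree = 2) (hβ : (derivative f).eval β = 0) {A : Type} [Field A]
    [Algebra K A] (n : ℕ) (x : A) :
    algebraMap K A f.leadingCoeff * ((fun y : A => aeval y f)^[n] x - algebraMap K A β) =
      (fun y : A => y ^ 2 + algebraMap K A (f.leadingCoeff * (f.eval β - β)))^[n]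
        (algebraMap K A f.leadingCoeff * (x - algebraMap K A β)) := by
  induction n with
  | zero => rfl
  | succ n ih =>
    rw [Function.iterate_succ_apply', Function.iterate_succ_apply', ← ih]
    have h := quad_form hf hβ ((fun y : A => aeval y f)^[n] x)
    rw [map_mul, map_sub]
    linear_combination (algebraMap K A f.leadingCoeff) * h

end conj

theorem aeval_self_fun {K : Type} [Field K] (f : K[X]) :
    (fun y : K => aeval y f) = fun y => f.eval y := by
  funext y
  rw [coe_aeval_eq_eval]

theorem aeval_iter_sub {K : Type} [Field K] (f : K[X]) (β : K) (n : ℕ) (x : AlgebraicClosure K) :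
    aeval x ((f.comp)^[n] X - C β) =
      (fun y => aeval y f)^[n] x - algebraMap K (AlgebraicClosure K) β := by
  rw [map_sub, aeval_C]
  congr 1
  have h3 : aeval x ((f.comp)^[n] X) = (((f.map (algebraMap K (AlgebraicClosure K))).comp)^[n]
      X).eval x := by
    rw [← map_iter, eval_map_algebraMap]
  rw [h3, iterate_comp_eval, eval_X]
  congr 1
  funext y
  rw [eval_map_algebraMap]

/-- the minimal polynomials of the roots of `f^n - β` are its monic irreducible factors -/
theorem facs_iff {K : Type} [Field K] {f : K[X]} {β : K} (n : ℕ) :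
    {g : K[X] | g.Monic ∧ Irreducible g ∧ g ∣ (f.comp)^[n] X - C β} =
      {g : K[X] | ∃ x : AlgebraicClosure K, (fun y => aeval y f)^[n] x =
        algebraMap K (AlgebraicClosure K) β ∧ g = minpoly K x} := by
  have hev := aeval_iter_sub f β n
  ext g
  constructor
  · rintro ⟨h1, h2, h3⟩
    obtain ⟨x, hx⟩ := IsAlgClosed.exists_aeval_eq_zero (AlgebraicClosure K) g h2.degree_pos.ne'
    refine ⟨x, ?_, minpoly.eq_of_irreducible_of_monic h2 hx h1⟩
    obtain ⟨q, hq⟩ := h3
    have h4 := hev x
    rw [hq, map_mul, hx, zero_mul] at h4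
    exact (sub_eq_zero.1 h4.symm)
  · rintro ⟨x, hx, rfl⟩
    have hint : IsIntegral K x := Algebra.IsIntegral.isIntegral x
    refine ⟨minpoly.monic hint, minpoly.irreducible hint, minpoly.dvd K x ?_⟩
    rw [hev, hx, sub_self]

/-- transfer of eventual stability to a general quadratic polynomial -/
theorem es_conj {K : Type} [Field K] [NumberField K] {f : K[X]} {β : K} (hf : f.natDegree = 2)
    (hβ : (derivative f).eval β = 0)
    (h : EventuallyStable (X ^ 2 + C (f.leadingCoeff * (f.eval β - β))) 1 0) :
    ∃ B : ℕ, ∀ n, {g : K[X] | g.Monic ∧ Irreducible g ∧ g ∣ (f.comp)^[n] X - C β}.ncard ≤ B := by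
  classical
  obtain ⟨B, hB⟩ := h
  refine ⟨B, fun n => (le_trans ?_ (hB n))⟩
  rw [facs_iff]
  have ha : algebraMap K (AlgebraicClosure K) f.leadingCoeff ≠ 0 := by
    have h0 : f ≠ 0 := by
      rintro rfl
      simp at hf
    simpa using h0
  obtain ⟨c, hc⟩ : ∃ c, c = f.leadingCoeff * (f.eval β - β) := ⟨_, rfl⟩
  rw [← hc]
  -- the finite target set
  have hfin : {g : K[X] | ∃ x : AlgebraicClosure K,
      (rat (X ^ 2 + C c) 1 (AlgebraicClosure K))^[n] (some x) =
      some (algebraMap K (AlgebraicClosure K) 0) ∧ g = minpoly K x}.Finite := by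
    have h1 : {g : K[X] | ∃ x : AlgebraicClosure K,
        (rat (X ^ 2 + C c) 1 (AlgebraicClosure K))^[n] (some x) =
        some (algebraMap K (AlgebraicClosure K) 0) ∧ g = minpoly K x} =
        {g : K[X] | g.Monic ∧ Irreducible g ∧ g ∣ ((X ^ 2 + C c).comp)^[n] X - C 0} := by
      rw [facs_iff]
      ext g
      constructor
      · rintro ⟨x, hx, hg⟩
        rw [rat_one] at hx
        exact ⟨x, Option.some_inj.1 hx, hg⟩
      · rintro ⟨x, hx, hg⟩
        refine ⟨x, ?_, hg⟩
        rw [rat_one, hx]
    rw [h1]
    have hne : ((X ^ 2 + C c : K[X]).comp)^[n] X - C 0 ≠ 0 := by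
      have h2 := (lc_iter (f := (X ^ 2 + C c : K[X])) (by rw [quad_lc]; exact isUnit_one)
        (by rw [quad_deg]; norm_num) n)
      intro h3
      rw [C_0, sub_zero] at h3
      rw [h3, leadingCoeff_zero] at h2
      exact not_isUnit_zero h2.2
    exact Pool.Agent.H42.PC.ELoc_fin hne
  rw [← facs_iff]
  have hch : ∀ g : K[X], g.Monic ∧ Irreducible g ∧ g ∣ (f.comp)^[n] X - C β →
      ∃ x : AlgebraicClosure K, g = minpoly K x := by
    rintro g ⟨h1, h2, _⟩
    obtain ⟨x, hx⟩ := IsAlgClosed.exists_aeval_eq_zero (AlgebraicClosure K) g h2.degree_pos.ne'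
    exact ⟨x, minpoly.eq_of_irreducible_of_monic h2 hx h1⟩
  refine Set.ncard_le_ncard_of_injOn (fun g => if hg : ∃ x : AlgebraicClosure K, g = minpoly K x
    then minpoly K (algebraMap K (AlgebraicClosure K) f.leadingCoeff *
      (hg.choose - algebraMap K (AlgebraicClosure K) β)) else 0) ?_ ?_ hfin
  · intro g hg
    have hx := hch g hg
    rw [dif_pos hx]
    refine ⟨_, ?_, rfl⟩
    have h1 : (fun y => aeval y f)^[n] hx.choose = algebraMap K (AlgebraicClosure K) β := by
      have h2 := aeval_iter_sub f β n hx.choose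
      obtain ⟨q, hq⟩ := hg.2.2
      rw [hq, map_mul] at h2
      have h3 : aeval hx.choose g = 0 := by
        have h4 := minpoly.aeval K hx.choose
        rwa [← hx.choose_spec] at h4
      rw [h3, zero_mul] at h2
      exact sub_eq_zero.1 h2.symm
    rw [rat_one, quad_aeval, hc, ← quad_conj hf hβ, h1, sub_self, mul_zero, map_zero]
  · intro g hg g' hg' heq
    have hx := hch g hg
    have hx' := hch g' hg'
    dsimp only at heq
    rw [dif_pos hx, dif_pos hx'] at heq
    obtain ⟨σ, hσ⟩ := (Normal.minpoly_eq_iff_mem_orbit (F := K) (AlgebraicClosure K)).1 heq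
    have h1 : σ (algebraMap K (AlgebraicClosure K) f.leadingCoeff *
        (hx'.choose - algebraMap K (AlgebraicClosure K) β)) =
        algebraMap K (AlgebraicClosure K) f.leadingCoeff *
        (hx.choose - algebraMap K (AlgebraicClosure K) β) := hσ
    rw [map_mul, map_sub, AlgEquiv.commutes, AlgEquiv.commutes] at h1
    have h2 : σ hx'.choose = hx.choose := by
      have h3 := mul_left_cancel₀ ha h1
      linear_combination h3
    have h4 : minpoly K hx.choose = minpoly K hx'.choose := by
      rw [← h2]
      exact minpoly.algEquiv_eq σ _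
    rw [hx.choose_spec, hx'.choose_spec, h4]

end Pool.Agent.H42.QP
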