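import Pool.Agent.H42.QP.Fin

/-! Density for general quadratic polynomials; the case of the rational numbers. -/

set_option autoImplicit false

open Polynomial NumberField IsDedekindDomain Filter Topology

namespace Pool.Agent.H42.QP

theorem quad_dens {K : Type} [Field K] [NumberField K] {f : K[X]} {β : K} (hf : f.natDegree = 2)
    (hβ : (derivative f).eval β = 0)
    (hper : ∀ n, 1 ≤ n → (fun x => f.eval x)^[n] β ≠ β)
    (hu : ∀ u : (𝓞 K)ˣ, ((u : 𝓞 K) : K) = 1 + 2 / (f.leadingCoeff * (f.eval β - β)) →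
      ∃ n : ℕ, 1 ≤ n ∧ u ^ n = 1) :
    Pool.Agent.H42.PC.EFinSm K
      {v | ∃ n, 1 ≤ n ∧ v.valuation K ((fun x => f.eval x)^[n] β - β) < 1} := by
  have ha : f.leadingCoeff ≠ 0 := by
    have h0 : f ≠ 0 := by
      rintro rfl
      simp at hf
    simpa using h0
  obtain ⟨c, hc⟩ : ∃ c, c = f.leadingCoeff * (f.eval β - β) := ⟨_, rfl⟩
  have hcj : ∀ n, f.leadingCoeff * ((fun x => f.eval x)^[n] β - β) =
      (fun y : K => y ^ 2 + c)^[n] 0 := by
    intro n
    have h := quad_conj (A := K) hf hβ n β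
    rw [aeval_self_fun, Algebra.algebraMap_self] at h
    simp only [RingHom.id_apply, sub_self, mul_zero] at h
    rw [h, hc]
  have key := quad_key (K := K) (c := c) (fun n hn h0 => by
    rw [← hcj n] at h0
    rcases mul_eq_zero.1 h0 with h1 | h1
    · exact ha h1
    · exact hper n hn (sub_eq_zero.1 h1)) (fun u h => hu u (by rw [h, hc]))
  refine Pool.Agent.H42.PC.EFin_mono ?_ (Pool.Agent.H42.PC.EFin_union key
    (Pool.Agent.H42.PC.EFin_fin (Pool.Agent.H42.PC.pith K)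
      (Pool.Agent.H42.PC.val_ne_one_finite ha)))
  rintro v ⟨n, hn, hv⟩
  by_cases hva : v.valuation K f.leadingCoeff = 1
  · refine Or.inl ⟨n, hn, ?_⟩
    rw [← hcj n, map_mul, hva, one_mul]
    exact hv
  · exact Or.inr hva

theorem quad_es {K : Type} [Field K] [NumberField K] {f : K[X]} {β : K} (hf : f.natDegree = 2)
    (hβ : (derivative f).eval β = 0)
    (hper : ∀ n, 1 ≤ n → (fun x => f.eval x)^[n] β ≠ β)
    (hu : ∀ u : (𝓞 K)ˣ, ((u : 𝓞 K) : K) = 1 + 2 / (f.leadingCoeff * (f.eval β - β)) →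
      ∃ n : ℕ, 1 ≤ n ∧ u ^ n = 1) :
    ∃ B : ℕ, ∀ n, {g : K[X] | g.Monic ∧ Irreducible g ∧ g ∣ (f.comp)^[n] X - C β}.ncard ≤ B := by
  have ha : f.leadingCoeff ≠ 0 := by
    have h0 : f ≠ 0 := by
      rintro rfl
      simp at hf
    simpa using h0
  apply es_conj hf hβ
  obtain ⟨c, hc⟩ : ∃ c, c = f.leadingCoeff * (f.eval β - β) := ⟨_, rfl⟩
  have hcj : ∀ n, f.leadingCoeff * ((fun x => f.eval x)^[n] β - β) =
      (fun y : K => y ^ 2 + c)^[n] 0 := by
    intro n
    have h := quad_conj (A := K) hf hβ n β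
    rw [aeval_self_fun, Algebra.algebraMap_self] at h
    simp only [RingHom.id_apply, sub_self, mul_zero] at h
    rw [h, hc]
  have hperc : ∀ n, 1 ≤ n → (fun y : K => y ^ 2 + c)^[n] 0 ≠ 0 := fun n hn h0 => by
    rw [← hcj n] at h0
    rcases mul_eq_zero.1 h0 with h1 | h1
    · exact ha h1
    · exact hper n hn (sub_eq_zero.1 h1)
  have hc0 : c ≠ 0 := by
    intro h0
    apply hperc 1 le_rfl
    simp [h0]
  rw [← hc]
  by_cases hA : ∃ v : HeightOneSpectrum (𝓞 K), v.valuation K c < 1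
  · obtain ⟨v, hv⟩ := hA
    exact quad_es_A hc0 hv
  by_cases hB : ∃ v : HeightOneSpectrum (𝓞 K), v.valuation K ((2 : ℕ) : K) < 1 ∧
      v.valuation K c ≤ 1
  · obtain ⟨v, hv2, hv⟩ := hB
    exact quad_es_B hperc hv2 hv
  rcases quad_stab hc0 (fun u h => hu u (by rw [h, hc])) with h | ⟨v, h1, h2, h3, h4⟩
  · exact h
  · exfalso
    push Not at hA hB
    rcases h4 with ⟨-, -, h5⟩ | ⟨-, -, ⟨-, -, l, r, hl, hlr, hvl⟩ | h6⟩
    · have h6 := h5 0 (by rw [quad_deg]; norm_num)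
      rw [map_zero, zero_mul, sub_zero, add_zero, comp_X, quad_coeff] at h6
      simp at h6
      exact absurd h6 (not_lt.2 (hA v))
    · rw [quad_deg] at hlr
      have hl2 : l = 2 := by
        have h7 : l ∣ 2 := by
          rw [hlr]
          apply dvd_pow_self
          rintro rfl
          simp at hlr
        exact (Nat.prime_dvd_prime_iff_eq hl Nat.prime_two).1 h7
      subst hl2
      have h7 := h1 0
      rw [quad_coeff] at h7
      simp at h7
      exact absurd h7 (not_le.2 (hB v hvl))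
    · rw [map_zero] at h6
      exact absurd h6 (not_lt.2 zero_le)

theorem unit_rat (u : (𝓞 ℚ)ˣ) : u ^ 2 = 1 := by
  have h1 : (Units.mapEquiv (Rat.ringOfIntegersEquiv : 𝓞 ℚ ≃* ℤ)) (u ^ 2) = 1 := by
    rw [map_pow]
    exact Int.units_sq _
  exact (Units.mapEquiv (Rat.ringOfIntegersEquiv : 𝓞 ℚ ≃* ℤ)).injective (by rw [h1, map_one])

end Pool.Agent.H42.QP
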