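import Pool.Agent.H42.QP.PenDefs
import Pool.Agent.H42.RM.LOc

/-! ROW PenA (helper71). Power reduction of `f = μ D_d` at a prime `v` with `v μ < 1` (any `d ≥ 2`; `D_d = dickson 1 1 d`). PROOF. Let `C` be an
algebraic closure of `K`, `λ ∈ C` with `λ^(d-1) = μ⁻¹`, `L = K(λ)` (IntermediateField.adjoin, a number field; or take any number field `L`
containing such a `λ`, e.g. by `exists` a splitting field / `AdjoinRoot`; see PCM or ES files for how number field structures on adjoin are obtained: grep
`NumberField (IntermediateField.adjoin` or ES/XCb setup_ex, RM/EDa). Take a prime `w` of `L` over `v`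
(tools: grep LiesOver / `valuation.*LiesOver` in H42/RM, H42/ES, H42/PCM: what is needed is only `w (μ) < 1`, e.g. from: `w` any prime of `L` containing
the image of `v.asIdeal`; for `x : 𝓞 K` in `v.asIdeal` its image is in `w.asIdeal`; write `μ = a / b`, `a ∈ v`, `b ∉ v`: v.valuation... or: simply choose any
prime `w` of `L` with `w.valuation L (algebraMap K L μ) < 1`: it exists because otherwise `μ⁻¹` would be integral over `𝓞 L`, hence in `𝓞 L`
(HeightOneSpectrum.mem_integers_of_valuation_le_one), hence `μ⁻¹ ∈ 𝓞 K` (integral over ℤ), so `v (μ⁻¹) ≤ 1`, contradiction with `v μ < 1`. This is the shortest way.)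
 `w λ > 1` as `(w λ)^(d-1) = (w μ)⁻¹`. Let `P = λ⁻¹ • (f.map).comp (C λ * X)` over `L`, i.e. coefficient `j` of `P` is `μ λ^(j-1) c_j = λ^(j-d) c_j`,
`c_j = (dickson 1 (1 : L) d).coeff j` (integral: map_dickson from 𝓞 L), `c_d = 1`, natDegree `d` (dick_top, ChebFin.lean): so `P` is monic of degree `d` and the other
coefficients have `w < 1`. `b = β / λ`, `w b < 1` (`w β ≤ 1`: hβi is given for all primes of all number fields, see the hypothesis). `P' (b) = 0`; `P^n (b) = λ⁻¹ f^n (β)`, so `b` is not
periodic. loc_A (RM/LOc.lean) with `p = P`, `q = 1`, `V = w.valuation L`: gives `RB P 1 b → ESR P 1 b` (hlow: modulo `w`, `P ≡ X^d`, `b ≡ 0`, so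
`(P - C b).comp (X + C b) ≡ X^d`: map to the residue field of the valuation ring (lod_lift, ELoc_res), or copy `lsm_comp` from LOc.lean). pz_of_es over `L` gives `PZ L P b`: a number field
`K'` over `L`. It is a `K`-algebra through `L` (take `((algebraMap L K').comp (algebraMap K L)).toAlgebra`). The claim: if `w' (f^n β - β) < 1` then `w' (λ (P^n b - b)) < 1`, so
`w' (P^n b - b) < 1` or `w' λ ≠ 1` (finitely many: val_ne_one_finite, PCM/E1; EFin_union, EFin_fin, EFin_mono as in `quad_dens`, Fin2.lean). -/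

set_option autoImplicit false

open Polynomial NumberField IsDedekindDomain

namespace Pool.Agent.H42.QP

open Pool.Agent.H42.RM Pool.Agent.H42.PC

/-- the rescaled polynomial -/
private noncomputable def PenA_P {L : Type} [Field L] (m l : L) (d : ℕ) : L[X] :=
  C l⁻¹ * (C m * dickson 1 (1 : L) d).comp (C l * X)

private theorem PenA_coeff {L : Type} [Field L] (m l : L) (d j : ℕ) :
    (PenA_P m l d).coeff j = l⁻¹ * (m * (dickson 1 (1 : L) d).coeff j * l ^ j) := by
  unfold PenA_P
  rw [coeff_C_mul, comp_C_mul_X_coeff, coeff_C_mul]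

private theorem PenA_eval {L : Type} [Field L] (m l : L) (d : ℕ) (x : L) :
    (PenA_P m l d).eval x = l⁻¹ * (C m * dickson 1 (1 : L) d).eval (l * x) := by
  unfold PenA_P
  have e : (C l * X : L[X]).eval x = l * x := by simp
  rw [eval_mul, eval_C, eval_comp, e]

private theorem PenA_iter {L : Type} [Field L] {m l : L} (hl : l ≠ 0) (d : ℕ) (x : L) (n : ℕ) :
    (fun y => (PenA_P m l d).eval y)^[n] (l⁻¹ * x) =
      l⁻¹ * (fun y => (C m * dickson 1 (1 : L) d).eval y)^[n] x := by
  induction n with
  | zero => rfl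
  | succ n ih =>
    rw [Function.iterate_succ_apply', Function.iterate_succ_apply', ih, PenA_eval,
      ← mul_assoc, mul_inv_cancel₀ hl, one_mul]

private theorem PenA_l {L : Type} [Field L] {m l : L} {d : ℕ} (hd : 2 ≤ d) (h : l ^ (d - 1) * m = 1) :
    l ≠ 0 := by
  rintro rfl
  rw [zero_pow (by omega), zero_mul] at h
  exact zero_ne_one h

private theorem PenA_top {L : Type} [Field L] {m l : L} {d : ℕ} (hd : 2 ≤ d)
    (h : l ^ (d - 1) * m = 1) : (PenA_P m l d).coeff d = 1 := by
  have hl := PenA_l hd h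
  rw [PenA_coeff, (dick_top (R := L) d).2 (by omega), mul_one]
  have e : l ^ d = l ^ (d - 1) * l := by
    rw [← pow_succ]
    congr 1
    omega
  rw [e]
  have e2 : l⁻¹ * (m * (l ^ (d - 1) * l)) = (l ^ (d - 1) * m) * (l⁻¹ * l) := by ring
  rw [e2, h, inv_mul_cancel₀ hl, one_mul]

private theorem PenA_deg {L : Type} [Field L] {m l : L} {d : ℕ} (hd : 2 ≤ d)
    (h : l ^ (d - 1) * m = 1) : (PenA_P m l d).natDegree = d := by
  apply natDegree_eq_of_le_of_coeff_ne_zero
  · rw [natDegree_le_iff_coeff_eq_zero]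
    intro j hj
    rw [PenA_coeff, coeff_eq_zero_of_natDegree_lt (lt_of_le_of_lt (dick_top (R := L) d).1 hj),
      mul_zero, zero_mul, mul_zero]
  · rw [PenA_top hd h]
    exact one_ne_zero

private theorem PenA_core {L : Type} [Field L] [NumberField L] {m l b0 : L} {d : ℕ} (hd : 2 ≤ d)
    (hml : l ^ (d - 1) * m = 1) (w : HeightOneSpectrum (𝓞 L)) (hw : w.valuation L m < 1)
    (hb0 : w.valuation L b0 ≤ 1) (hcrit : (derivative (dickson 1 (1 : L) d)).eval b0 = 0)
    (hper : ∀ n, 1 ≤ n → (fun x => (C m * dickson 1 (1 : L) d).eval x)^[n] b0 ≠ b0) :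
    PZ L (PenA_P m l d) (l⁻¹ * b0) := by
  have hl := PenA_l hd hml
  have hdeg := PenA_deg hd hml
  have hlc : (PenA_P m l d).leadingCoeff = 1 := by
    rw [leadingCoeff, hdeg, PenA_top hd hml]
  have hwl : 1 < w.valuation L l := by
    by_contra hcon
    have h1 : w.valuation L l ^ (d - 1) ≤ 1 := pow_le_one' (not_lt.1 hcon) _
    have h2 : w.valuation L l ^ (d - 1) * w.valuation L m = 1 := by
      rw [← map_pow, ← map_mul, hml, map_one]
    have h3 : w.valuation L l ^ (d - 1) * w.valuation L m < 1 := by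
      rw [mul_comm]
      exact mul_lt_one_of_lt_of_le hw h1
    exact absurd h2 h3.ne
  have hwl0 : w.valuation L l ≠ 0 := (zero_lt_one.trans hwl).ne'
  have hwli : w.valuation L l⁻¹ < 1 := by
    rw [map_inv₀]
    exact inv_lt_one_of_one_lt₀ hwl
  have hint : ∀ i, w.valuation L ((dickson 1 (1 : L) d).coeff i) ≤ 1 := by
    intro i
    have h1 := map_dickson (k := 1) (a := (1 : 𝓞 L)) (algebraMap (𝓞 L) L) d
    rw [map_one] at h1
    rw [← h1, coeff_map]
    exact w.valuation_le_one _
  have hlow0 : ∀ i < d, w.valuation L ((PenA_P m l d).coeff i) < 1 := by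
    intro i hi
    have e : (PenA_P m l d).coeff i = (dickson 1 (1 : L) d).coeff i * (l⁻¹) ^ (d - i) := by
      have h1 : (PenA_P m l d).coeff i * l ^ (d - i) = (dickson 1 (1 : L) d).coeff i := by
        rw [PenA_coeff]
        have e1 : l ^ i * l ^ (d - i) = l ^ (d - 1) * l := by
          rw [← pow_add, ← pow_succ]
          congr 1
          omega
        have e2 : l⁻¹ * (m * (dickson 1 (1 : L) d).coeff i * l ^ i) * l ^ (d - i) =
            (dickson 1 (1 : L) d).coeff i * (l⁻¹ * m * (l ^ i * l ^ (d - i))) := by ring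
        rw [e2, e1]
        have e3 : l⁻¹ * m * (l ^ (d - 1) * l) = (l ^ (d - 1) * m) * (l⁻¹ * l) := by ring
        rw [e3, hml, inv_mul_cancel₀ hl, one_mul, mul_one]
      rw [← h1, mul_assoc, ← mul_pow, mul_inv_cancel₀ hl, one_pow, mul_one]
    rw [e, map_mul, map_pow, mul_comm]
    exact mul_lt_one_of_lt_of_le (pow_lt_one₀ zero_le hwli (by omega)) (hint i)
  have hcoef : ∀ i, w.valuation L ((PenA_P m l d).coeff i) ≤ 1 := by
    intro i
    rcases lt_trichotomy i d with h | h | h
    · exact (hlow0 i h).le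
    · rw [h, PenA_top hd hml, map_one]
    · rw [coeff_eq_zero_of_natDegree_lt (by rw [hdeg]; exact h), map_zero]
      exact zero_le_one
  have hb : w.valuation L (l⁻¹ * b0) < 1 := by
    rw [map_mul]
    exact mul_lt_one_of_lt_of_le hwli hb0
  apply pz_of_es
  · rw [hdeg]
    exact hd
  · unfold PenA_P
    have e1 : (derivative (C m * dickson 1 (1 : L) d)).eval b0 = 0 := by
      rw [derivative_C_mul, eval_mul, hcrit, mul_zero]
    have e2 : (C l * X : L[X]).eval (l⁻¹ * b0) = b0 := by
      rw [eval_mul, eval_C, eval_X, ← mul_assoc, mul_inv_cancel₀ hl, one_mul]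
    rw [derivative_C_mul, derivative_comp, eval_mul, eval_mul, eval_comp, e2, e1, mul_zero, mul_zero]
  · intro n hn h
    rw [PenA_iter hl] at h
    exact hper n hn (mul_left_cancel₀ (inv_ne_zero hl) h)
  · intro hB
    refine loc_A hB (w.valuation L) hcoef ?_ hb.le ?_ ?_ ?_
    · intro i
      rw [coeff_one]
      split_ifs <;> simp
    · rw [hlc, map_one]
    · simp
    · intro i hi
      rw [hdeg] at hi
      obtain ⟨b, hbdef⟩ : ∃ b, b = l⁻¹ * b0 := ⟨_, rfl⟩
      rw [← hbdef] at hb ⊢
      obtain ⟨S, hS⟩ : ∃ S, S = PenA_P m l d - X ^ d := ⟨_, rfl⟩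
      have hSs : ∀ j, w.valuation L (S.coeff j) < 1 := by
        intro j
        rw [hS, coeff_sub, coeff_X_pow]
        rcases lt_trichotomy j d with h | h | h
        · rw [if_neg h.ne, sub_zero]
          exact hlow0 j h
        · rw [if_pos h, h, PenA_top hd hml, sub_self, map_zero]
          exact zero_lt_one
        · rw [if_neg h.ne', sub_zero, coeff_eq_zero_of_natDegree_lt (by rw [hdeg]; exact h),
            map_zero]
          exact zero_lt_one
      have hxb : ∀ e j : ℕ, w.valuation L (((X + C b) ^ e).coeff j) ≤ 1 := by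
        intro e j
        rw [coeff_X_add_C_pow, map_mul, map_pow]
        refine mul_le_one' (pow_le_one' hb.le _) ?_
        have h1 := w.valuation_le_one (K := L) ((e.choose j : ℕ) : 𝓞 L)
        simpa using h1
      have e1 : (PenA_P m l d - C b * 1 : L[X]).comp (X + C b) =
          (X + C b) ^ d + (S.comp (X + C b) - C b) := by
        have h1 : PenA_P m l d = X ^ d + S := by rw [hS]; ring
        rw [h1, mul_one, sub_comp, add_comp, pow_comp, X_comp, C_comp]
        ring
      rw [e1, coeff_add, coeff_sub]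
      refine (w.valuation L).map_add_lt ?_ ((w.valuation L).map_sub_lt ?_ ?_)
      · rw [coeff_X_add_C_pow, map_mul, map_pow]
        refine mul_lt_one_of_lt_of_le (pow_lt_one₀ zero_le hb (by omega)) ?_
        have h1 := w.valuation_le_one (K := L) ((d.choose i : ℕ) : 𝓞 L)
        simpa using h1
      · rw [comp_eq_sum_left, Polynomial.sum, finsetSum_coeff]
        refine Valuation.map_sum_lt _ one_ne_zero fun e _ => ?_
        rw [coeff_C_mul, map_mul]
        exact mul_lt_one_of_lt_of_le (hSs e) (hxb e i)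
      · rw [coeff_C]
        split_ifs
        · exact hb
        · rw [map_zero]
          exact zero_lt_one

private theorem PenA_prime {K : Type} [Field K] [NumberField K] {L : Type} [Field L] [NumberField L]
    [Algebra K L] {μ : K} (hμ : μ ≠ 0) {v : HeightOneSpectrum (𝓞 K)} (hv : v.valuation K μ < 1) :
    ∃ w : HeightOneSpectrum (𝓞 L), w.valuation L (algebraMap K L μ) < 1 := by
  by_contra hcon
  push Not at hcon
  have h1 : ∀ w : HeightOneSpectrum (𝓞 L), w.valuation L ((algebraMap K L μ)⁻¹) ≤ 1 := by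
    intro w
    rw [map_inv₀]
    exact inv_le_one_of_one_le₀ (hcon w)
  obtain ⟨z, hz⟩ := HeightOneSpectrum.mem_integers_of_valuation_le_one L _ h1
  have h5 : IsIntegral ℤ (algebraMap K L μ⁻¹) := by
    rw [map_inv₀, ← hz]
    exact RingOfIntegers.isIntegral_coe z
  have h6 : IsIntegral ℤ μ⁻¹ :=
    (isIntegral_algebraMap_iff (algebraMap K L).injective).1 h5
  have h7 : v.valuation K μ⁻¹ ≤ 1 := v.valuation_le_one (K := K) (⟨μ⁻¹, h6⟩ : 𝓞 K)
  rw [map_inv₀] at h7
  have h9 : v.valuation K μ ≠ 0 := by
    rw [ne_eq, map_eq_zero]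
    exact hμ
  have h10 : 1 < (v.valuation K μ)⁻¹ := (one_lt_inv₀ (zero_lt_iff.2 h9)).2 hv
  exact absurd h7 (not_le.2 h10)

private theorem PenA_root {K : Type} [Field K] [NumberField K] {μ : K} (hμ : μ ≠ 0) {d : ℕ}
    (hd : 2 ≤ d) : ∃ (L : Type) (_ : Field L) (_ : NumberField L) (_ : Algebra K L) (l : L),
      l ^ (d - 1) * algebraMap K L μ = 1 := by
  obtain ⟨z, hz⟩ := IsAlgClosed.exists_pow_nat_eq ((algebraMap K (AlgebraicClosure K)) μ⁻¹)
    (show 0 < d - 1 by omega)
  have hfin : FiniteDimensional K (IntermediateField.adjoin K {z}) :=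
    IntermediateField.adjoin.finiteDimensional (Algebra.IsIntegral.isIntegral z)
  refine ⟨IntermediateField.adjoin K {z}, inferInstance, NumberField.of_module_finite K _,
    inferInstance, IntermediateField.AdjoinSimple.gen K z, ?_⟩
  apply (algebraMap (IntermediateField.adjoin K {z}) (AlgebraicClosure K)).injective
  rw [map_mul, map_pow, IntermediateField.AdjoinSimple.algebraMap_gen, hz, map_one,
    ← IsScalarTower.algebraMap_apply, ← map_mul, inv_mul_cancel₀ hμ, map_one]

theorem pencil_A {K : Type} [Field K] [NumberField K] {μ β : K} (hμ : μ ≠ 0) {d : ℕ} (hd : 2 ≤ d)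
    {v : HeightOneSpectrum (𝓞 K)} (hv : v.valuation K μ < 1)
    (hβi : IsIntegral ℤ β)
    (hβ : (derivative (dickson 1 (1 : K) d)).eval β = 0)
    (hper : ∀ n, 1 ≤ n → (fun x => (C μ * dickson 1 (1 : K) d).eval x)^[n] β ≠ β) :
    PZ K (C μ * dickson 1 (1 : K) d) β := by
  obtain ⟨L, i1, i2, i3, l, hl⟩ := PenA_root hμ hd
  obtain ⟨w, hw⟩ := PenA_prime (L := L) hμ hv
  have hdk : (dickson 1 (1 : K) d).map (algebraMap K L) = dickson 1 (1 : L) d := by
    rw [map_dickson, map_one]
  have hbi : w.valuation L (algebraMap K L β) ≤ 1 := by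
    have h1 : IsIntegral ℤ (algebraMap K L β) := hβi.algebraMap
    have h2 := w.valuation_le_one (K := L) (⟨algebraMap K L β, h1⟩ : 𝓞 L)
    exact h2
  have hit : ∀ n, (fun x => (C (algebraMap K L μ) * dickson 1 (1 : L) d).eval x)^[n] (algebraMap K L β) =
      algebraMap K L ((fun x => (C μ * dickson 1 (1 : K) d).eval x)^[n] β) := by
    intro n
    induction n with
    | zero => rfl
    | succ n ih =>
      rw [Function.iterate_succ_apply', Function.iterate_succ_apply', ih]
      rw [← hdk, eval_mul, eval_C, eval_mul, eval_C, map_mul, eval_map_algebraMap, aeval_algebraMap_apply]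
      rfl
  obtain ⟨K', j1, j2, j3, hZ⟩ := PenA_core hd hl w hw hbi (by
      rw [← hdk, derivative_map, eval_map_algebraMap, aeval_algebraMap_apply, coe_aeval_eq_eval, hβ,
        map_zero])
    (fun n hn h => by
      rw [hit] at h
      exact hper n hn ((algebraMap K L).injective h))
  have hl0 : l ≠ 0 := PenA_l hd hl
  have hl1 : algebraMap L K' l ≠ 0 := by
    rw [ne_eq, map_eq_zero]
    exact hl0
  letI a1 : Algebra K K' := ((algebraMap L K').comp (algebraMap K L)).toAlgebra
  haveI : IsScalarTower K L K' := IsScalarTower.of_algebraMap_eq' rfl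
  refine ⟨K', j1, j2, a1, ?_⟩
  refine Pool.Agent.H42.PC.EFin_mono ?_ (Pool.Agent.H42.PC.EFin_union hZ
    (Pool.Agent.H42.PC.EFin_fin (Pool.Agent.H42.PC.pith K')
      (Pool.Agent.H42.PC.val_ne_one_finite hl1)))
  rintro u ⟨n, hn, hu⟩
  by_cases h1 : u.valuation K' (algebraMap L K' l) = 1
  · left
    refine ⟨n, hn, ?_⟩
    have e1 : ∀ k, (fun x => aeval x (C μ * dickson 1 (1 : K) d))^[k] (algebraMap K K' β) =
        algebraMap K K' ((fun x => (C μ * dickson 1 (1 : K) d).eval x)^[k] β) := by
      intro k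
      induction k with
      | zero => rfl
      | succ k ih =>
        rw [Function.iterate_succ_apply', Function.iterate_succ_apply', ih, aeval_algebraMap_apply]
        rfl
    have e2 : ∀ k, (fun x => aeval x (PenA_P (algebraMap K L μ) l d))^[k]
        (algebraMap L K' (l⁻¹ * algebraMap K L β)) =
        algebraMap L K' (l⁻¹ * algebraMap K L ((fun x => (C μ * dickson 1 (1 : K) d).eval x)^[k] β)) := by
      intro k
      rw [← hit, ← PenA_iter hl0]
      induction k with
      | zero => rfl
      | succ k ih =>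
        rw [Function.iterate_succ_apply', Function.iterate_succ_apply', ih, aeval_algebraMap_apply]
        rfl
    rw [e1] at hu
    rw [e2]
    rw [map_mul, map_mul, ← mul_sub, map_mul]
    have e3 : u.valuation K' (algebraMap L K' l⁻¹) = 1 := by
      rw [map_inv₀, map_inv₀, h1, inv_one]
    rw [e3, one_mul]
    exact hu
  · right
    exact h1

end Pool.Agent.H42.QP
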