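import Pool.Agent.H42.QP.PenDefs
import Pool.Agent.H42.RM.LOe

/-! ROW PenB (helper69). Inseparable reduction of `f = μ D_d`, `d = ℓ^e`, at a prime `v` with `v ℓ < 1`, `v μ = 1`. PROOF. In characteristic `ℓ`,
`dickson 1 1 ℓ = X^ℓ` (Mathlib: dickson_one_one_charP), so `dickson 1 1 (ℓ^e) = X^(ℓ^e)` (dick_iter, DickC.lean: `((dickson 1 1 ℓ).comp)^[e] X = dickson 1 1 (ℓ^e)`). Hence for
`1 ≤ i < d` the coefficient `i` of `dickson 1 (1 : K) d` has value `< 1` at `v` (it is the image of the integer coefficient, divisible by `ℓ`; or work in the residue field of `V.valuationSubring`,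
which has characteristic `ℓ`, with map_dickson, as in DickC.lean). natDegree and leading coefficient: dick_top (ChebFin.lean). Then
`pencil_B` is `loc_B` (RM/LOe.lean) with `l = ℓ`, `r = e`, `q = 1`, `hL : LocB ...` (fields: see `RationalMaps` / Dens.lean: ⟨hlp, hdl, hvl, hl, hpi', hpi 0, hqi', hq0⟩), through pz_of_es. -/

set_option autoImplicit false

open Polynomial NumberField IsDedekindDomain

namespace Pool.Agent.H42.QP

open Pool.Agent.H42.RM Pool.Agent.H42.PC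

theorem PenB_zmod (ℓ e : ℕ) [Fact ℓ.Prime] : dickson 1 (1 : ZMod ℓ) (ℓ ^ e) = X ^ (ℓ ^ e) := by
  rw [← dick_iter, dickson_one_one_zmod_p]
  induction e with
  | zero => simp
  | succ e ih =>
    rw [Function.iterate_succ_apply', ih, X_pow_comp, pow_succ, pow_mul]

/-- the integer coefficients in the middle are divisible by `ℓ` -/
theorem PenB_dvd {ℓ : ℕ} (hℓ : ℓ.Prime) (e i : ℕ) (hi : i < ℓ ^ e) :
    (ℓ : ℤ) ∣ (dickson 1 (1 : ℤ) (ℓ ^ e)).coeff i := by
  have := Fact.mk hℓ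
  have h1 : (dickson 1 (1 : ℤ) (ℓ ^ e)).map (Int.castRingHom (ZMod ℓ)) =
      dickson 1 (1 : ZMod ℓ) (ℓ ^ e) := by
    rw [map_dickson, map_one]
  rw [← ZMod.intCast_zmod_eq_zero_iff_dvd]
  have h2 := congrArg (fun p => p.coeff i) h1
  simp only [coeff_map] at h2
  rw [PenB_zmod, coeff_X_pow, if_neg (by omega)] at h2
  simpa using h2

theorem pencil_B {K : Type} [Field K] [NumberField K] {μ β : K} (hμ : μ ≠ 0) {ℓ e : ℕ}
    (hℓ : ℓ.Prime) (he : 1 ≤ e)
    {v : HeightOneSpectrum (𝓞 K)} (hv : v.valuation K μ = 1) (hvℓ : v.valuation K (ℓ : K) < 1)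
    (hβi : v.valuation K β ≤ 1)
    (hβ : (derivative (dickson 1 (1 : K) (ℓ ^ e))).eval β = 0)
    (hper : ∀ n, 1 ≤ n → (fun x => (C μ * dickson 1 (1 : K) (ℓ ^ e)).eval x)^[n] β ≠ β) :
    PZ K (C μ * dickson 1 (1 : K) (ℓ ^ e)) β := by
  have hd : 2 ≤ ℓ ^ e := hℓ.two_le.trans (Nat.le_self_pow (by omega) ℓ)
  have htop := dick_top (R := K) (ℓ ^ e)
  have hnd : (dickson 1 (1 : K) (ℓ ^ e)).natDegree = ℓ ^ e := by
    refine le_antisymm htop.1 (le_natDegree_of_ne_zero ?_)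
    rw [htop.2 (by omega)]
    exact one_ne_zero
  have hdeg : (C μ * dickson 1 (1 : K) (ℓ ^ e)).natDegree = ℓ ^ e := by
    rw [natDegree_C_mul hμ, hnd]
  have hint : ∀ z : ℤ, v.valuation K (z : K) ≤ 1 := by
    intro z
    have := v.valuation_le_one (K := K) ((z : ℤ) : 𝓞 K)
    simpa using this
  have hco : ∀ i, (dickson 1 (1 : K) (ℓ ^ e)).coeff i =
      (((dickson 1 (1 : ℤ) (ℓ ^ e)).coeff i : ℤ) : K) := by
    intro i
    have h1 : (dickson 1 (1 : ℤ) (ℓ ^ e)).map (Int.castRingHom K) =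
        dickson 1 (1 : K) (ℓ ^ e) := by
      rw [map_dickson, map_one]
    rw [← h1, coeff_map]
    simp
  have hlow : ∀ i, i < ℓ ^ e →
      v.valuation K ((C μ * dickson 1 (1 : K) (ℓ ^ e)).coeff i) < 1 := by
    intro i hi
    obtain ⟨z, hz⟩ := PenB_dvd hℓ e i hi
    rw [coeff_C_mul, hco, hz, map_mul, hv, one_mul]
    push_cast
    rw [map_mul]
    exact mul_lt_one_of_lt_of_le hvℓ (hint z)
  refine pz_of_es (by rw [hdeg]; exact hd) ?_ hper fun hB => ?_
  · rw [derivative_C_mul, eval_mul, hβ, mul_zero]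
  · refine loc_B (l := ℓ) (r := e) hB v ⟨hℓ, hdeg, hvℓ, ?_, ?_, ?_, ?_, ?_⟩ hβi
    · rw [leadingCoeff, hdeg, coeff_C_mul, htop.2 (by omega), mul_one, hv]
    · intro i _ hi
      rw [hdeg] at hi
      exact hlow i hi
    · exact (hlow 0 (by omega)).le
    · intro i hi
      rw [coeff_one, if_neg (by omega), map_zero]
      exact zero_lt_one
    · rw [coeff_one_zero, map_one]

end Pool.Agent.H42.QP
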