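import Pool.Agent.H42.QP.ChebFin2
import Pool.Agent.H42.QP.DickD

/-! The pencil `μ D_d` (scaled Chebyshev polynomials): definitions and the general principle. -/

set_option autoImplicit false

open Polynomial NumberField IsDedekindDomain Filter Topology

namespace Pool.Agent.H42.QP

open Pool.Agent.H42.RM Pool.Agent.H42.PC

/-- over some finite extension `K'` of `K` the set of primes modulo which `β` is periodic under `f` is small
(density zero) -/
def PZ (K : Type) [Field K] [NumberField K] (f : K[X]) (β : K) : Prop :=
  ∃ (K' : Type) (_ : Field K') (_ : NumberField K') (_ : Algebra K K'),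
    EFinSm K' {w | ∃ n, 1 ≤ n ∧ w.valuation K' ((fun x => aeval x f)^[n] (algebraMap K K' β) -
      algebraMap K K' β) < 1}

theorem pz_of_es {K : Type} [Field K] [NumberField K] {f : K[X]} {β : K} (hd : 2 ≤ f.natDegree)
    (hcrit : (derivative f).eval β = 0)
    (hper : ∀ n, 1 ≤ n → (fun x => f.eval x)^[n] β ≠ β)
    (hES : RB f 1 β → ESR f 1 β) : PZ K f β := by
  have hR : ∀ (A : Type) [Field A] [Algebra K A], rat f 1 A = ratMap f 1 A := by
    intro A _ _
    funext x
    cases x <;> rfl
  obtain ⟨K', i1, i2, i3, h⟩ := Pool.Agent.H42.ES.x_main (p := f) (q := 1) (b := β)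
    (fun E [Field E] [NumberField E] => pith E) isCoprime_one_right hd
    (by rw [natDegree_one]; omega) (by unfold wr; simp [hcrit])
    (fun n hn => by
      rw [← hR K, rat_one]
      intro h
      have h1 := Option.some_inj.1 h
      have h2 : (fun y : K => aeval y f) = fun y => f.eval y := by
        funext y
        rw [coe_aeval_eq_eval]
      rw [h2] at h1
      exact hper n hn h1) hES
  refine ⟨K', i1, i2, i3, EFin_mono ?_ h⟩
  rintro w ⟨n, hn, hw⟩
  refine ⟨n, hn, _, ?_, hw⟩
  rw [← hR K', rat_one]

end Pool.Agent.H42.QP
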