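import Pool.Agent.H42.QP.DickC

/-! ROW PenU (helper5).
 * crit_int: a zero `β` of `derivative (dickson 1 1 d)` is an algebraic integer. In `C = AlgebraicClosure K` write `β = z + z⁻¹` (exists_add_inv, DickA.lean). dick_der (DickC.lean): `(z - z⁻¹) D_d'(β) = d (z^d - z⁻¹^d)`, so `z^(2d) = 1`
   (`d ≠ 0` in characteristic `0`) and `z`, `z⁻¹` are integral over ℤ. So `β` is (`isIntegral_algebraMap_iff`).
 * two_units: `q` prime, `μ ≠ 0`: for all `v`: `1 ≤ v μ`; `v q < 1 → 1 < v μ`; `v q = 1 → 1 ≤ v (μ - 1)` and `1 ≤ v (μ + 1)`. Then `1 + μ⁻¹` and `1 - μ⁻¹` are units of `𝓞 K`: `v (1 ± μ⁻¹) = v (μ ± 1) / v μ = 1` for all `v`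
   (as in unit_of_bad, Unit.lean).
 * rat_units: `r ∈ ℚ`, `r ≠ 0`: `1 + 1/r` and `1 - 1/r` are not both units of `𝓞 K`: a unit of `𝓞 K` which lies in `ℚ` is `± 1` (it and its inverse are integral over ℤ, so integers), `1 + 1/r = ±1`, `1 - 1/r = ±1` give `1/r ∈ {0,-2} ∩ {0,2}`. -/

set_option autoImplicit false

open Polynomial NumberField IsDedekindDomain

namespace Pool.Agent.H42.QP

private theorem penU_int_le {K : Type} [Field K] [NumberField K] (v : HeightOneSpectrum (𝓞 K)) (n : ℤ) :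
    v.valuation K (n : K) ≤ 1 := by
  have h := v.valuation_le_one (K := K) (n : 𝓞 K)
  simpa using h

private theorem penU_rat {K : Type} [Field K] [NumberField K] {s : ℚ}
    (h : IsIntegral ℤ (algebraMap ℚ K s)) : ∃ y : ℤ, (y : ℚ) = s := by
  have h6 : IsIntegral ℤ s := (isIntegral_algebraMap_iff (algebraMap ℚ K).injective).1 h
  obtain ⟨y, hy⟩ := IsIntegrallyClosed.isIntegral_iff.1 h6
  exact ⟨y, hy⟩

private theorem penU_exists {K : Type} [Field K] [NumberField K] {q : ℕ} (hq : q.Prime) :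
    ∃ v : HeightOneSpectrum (𝓞 K), v.valuation K (q : K) < 1 := by
  by_contra hcon
  push Not at hcon
  have h1 : ∀ v : HeightOneSpectrum (𝓞 K), v.valuation K ((q : K)⁻¹) ≤ 1 := by
    intro v
    have h3 := penU_int_le v (q : ℤ)
    rw [Int.cast_natCast] at h3
    rw [map_inv₀, le_antisymm h3 (hcon v), inv_one]
  obtain ⟨z, hz⟩ := HeightOneSpectrum.mem_integers_of_valuation_le_one K _ h1
  have h5 : IsIntegral ℤ (algebraMap ℚ K ((q : ℚ)⁻¹)) := by
    rw [map_inv₀, map_natCast, ← hz]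
    exact RingOfIntegers.isIntegral_coe z
  obtain ⟨y, hy⟩ := penU_rat h5
  have hq0 : (q : ℚ) ≠ 0 := by exact_mod_cast hq.ne_zero
  have h8 : (y : ℚ) * (q : ℚ) = 1 := by rw [hy, inv_mul_cancel₀ hq0]
  have h9 : y * (q : ℤ) = 1 := by exact_mod_cast h8
  have h10 : (q : ℤ) ∣ 1 := ⟨y, by rw [mul_comm]; exact h9.symm⟩
  have h11 : q ∣ 1 := by exact_mod_cast h10
  exact hq.one_lt.ne' (Nat.dvd_one.1 h11)

private theorem penU_unit {K : Type} [Field K] [NumberField K] {x : K} (hx0 : x ≠ 0)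
    (hxv : ∀ v : HeightOneSpectrum (𝓞 K), v.valuation K x = 1) :
    ∃ u : (𝓞 K)ˣ, ((u : 𝓞 K) : K) = x := by
  obtain ⟨z, hz⟩ := HeightOneSpectrum.mem_integers_of_valuation_le_one K x fun v => (hxv v).le
  obtain ⟨z', hz'⟩ := HeightOneSpectrum.mem_integers_of_valuation_le_one K x⁻¹ fun v => by
    rw [map_inv₀, hxv v, inv_one]
  have hzz : z * z' = 1 := by
    apply FaithfulSMul.algebraMap_injective (𝓞 K) K
    rw [map_mul, hz, hz', map_one, mul_inv_cancel₀ hx0]
  exact ⟨Units.mkOfMulEqOne z z' hzz, hz⟩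

theorem crit_int {K : Type} [Field K] [NumberField K] {β : K} {d : ℕ} (hd : 1 ≤ d)
    (hβ : (derivative (dickson 1 (1 : K) d)).eval β = 0) : IsIntegral ℤ β := by
  set C := AlgebraicClosure K
  have hb : (derivative (dickson 1 (1 : C) d)).eval (algebraMap K C β) = 0 := by
    have e : dickson 1 (1 : C) d = (dickson 1 (1 : K) d).map (algebraMap K C) := by
      rw [map_dickson, map_one]
    rw [e, derivative_map, eval_map_algebraMap, aeval_algebraMap_apply, coe_aeval_eq_eval, hβ, map_zero]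
  obtain ⟨z, hz, hbz⟩ := exists_add_inv (algebraMap K C β)
  rw [hbz] at hb
  have h1 := dick_der hz d
  rw [hb, mul_zero] at h1
  have hd0 : (d : C) ≠ 0 := by
    have : CharZero C := charZero_of_injective_algebraMap (algebraMap K C).injective
    exact_mod_cast (by omega : d ≠ 0)
  have h2 : z ^ d = z⁻¹ ^ d := by
    rcases mul_eq_zero.1 h1.symm with h | h
    · exact absurd h hd0
    · exact sub_eq_zero.1 h
  have h3 : z ^ (2 * d) = 1 := by
    have e : z ^ (2 * d) = z ^ d * z ^ d := by ring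
    rw [e]
    nth_rewrite 2 [h2]
    rw [← mul_pow, mul_inv_cancel₀ hz, one_pow]
  have h4 : IsIntegral ℤ z := by
    refine IsIntegral.of_pow (n := 2 * d) (by omega) ?_
    rw [h3]
    exact isIntegral_one
  have h5 : IsIntegral ℤ z⁻¹ := by
    refine IsIntegral.of_pow (n := 2 * d) (by omega) ?_
    rw [inv_pow, h3, inv_one]
    exact isIntegral_one
  have h6 : IsIntegral ℤ (algebraMap K C β) := by
    rw [hbz]
    exact h4.add h5
  exact (isIntegral_algebraMap_iff (algebraMap K C).injective).1 h6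

theorem two_units {K : Type} [Field K] [NumberField K] {q : ℕ} (hq : q.Prime) {μ : K}
    (hμ : μ ≠ 0)
    (h1 : ∀ v : HeightOneSpectrum (𝓞 K), 1 ≤ v.valuation K μ)
    (h2 : ∀ v : HeightOneSpectrum (𝓞 K), v.valuation K (q : K) < 1 → 1 < v.valuation K μ)
    (h3 : ∀ v : HeightOneSpectrum (𝓞 K), v.valuation K (q : K) = 1 →
      1 ≤ v.valuation K (μ - 1) ∧ 1 ≤ v.valuation K (μ + 1)) :
    ∃ u u' : (𝓞 K)ˣ, ((u : 𝓞 K) : K) = 1 + μ⁻¹ ∧ ((u' : 𝓞 K) : K) = 1 - μ⁻¹ := by
  obtain ⟨v₀, -⟩ := penU_exists (K := K) hq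
  have hvle : ∀ v : HeightOneSpectrum (𝓞 K), v.valuation K (q : K) ≤ 1 := by
    intro v
    have h := penU_int_le v (q : ℤ)
    rw [Int.cast_natCast] at h
    exact h
  have key : ∀ e : K, (∀ v : HeightOneSpectrum (𝓞 K), v.valuation K e = 1) →
      (∀ v : HeightOneSpectrum (𝓞 K), v.valuation K (q : K) = 1 → 1 ≤ v.valuation K (μ + e)) →
      ∃ u : (𝓞 K)ˣ, ((u : 𝓞 K) : K) = (μ + e) / μ := by
    intro e he h4
    have hval : ∀ v : HeightOneSpectrum (𝓞 K), v.valuation K (μ + e) = v.valuation K μ := by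
      intro v
      rcases (hvle v).lt_or_eq with h | h
      · exact Valuation.map_add_eq_of_lt_left _ (by rw [he v]; exact h2 v h)
      · rcases (h1 v).lt_or_eq with h5 | h5
        · exact Valuation.map_add_eq_of_lt_left _ (by rw [he v]; exact h5)
        · refine le_antisymm ?_ ?_
          · rw [← h5]
            exact ((v.valuation K).map_add _ _).trans (max_le h5.symm.le (he v).le)
          · rw [← h5]
            exact h4 v h
    have hx : ∀ v : HeightOneSpectrum (𝓞 K), v.valuation K ((μ + e) / μ) = 1 := by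
      intro v
      rw [map_div₀, hval v, div_self ((Valuation.ne_zero_iff _).2 hμ)]
    refine penU_unit ?_ hx
    intro h
    have h5 := hx v₀
    rw [h, map_zero] at h5
    exact zero_ne_one h5
  obtain ⟨u, hu⟩ := key 1 (fun v => map_one _) (fun v h => (h3 v h).2)
  obtain ⟨u', hu'⟩ := key (-1) (fun v => by rw [Valuation.map_neg, map_one])
    (fun v h => by rw [← sub_eq_add_neg]; exact (h3 v h).1)
  refine ⟨u, u', ?_, ?_⟩
  · rw [hu]
    field_simp
  · rw [hu']
    field_simp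
    ring

private theorem penU_pm {K : Type} [Field K] [NumberField K] {s : ℚ} {u : (𝓞 K)ˣ}
    (h : ((u : 𝓞 K) : K) = algebraMap ℚ K s) : s = 1 ∨ s = -1 := by
  have h1 : IsIntegral ℤ (algebraMap ℚ K s) := by
    rw [← h]
    exact RingOfIntegers.isIntegral_coe _
  have h2 : IsIntegral ℤ (algebraMap ℚ K s⁻¹) := by
    have e : algebraMap ℚ K s⁻¹ = (((u⁻¹ : (𝓞 K)ˣ) : 𝓞 K) : K) := by
      rw [map_inv₀, ← h]
      have h3 : (((u : 𝓞 K) : K)) * (((u⁻¹ : (𝓞 K)ˣ) : 𝓞 K) : K) = 1 := by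
        have h4 : (u : 𝓞 K) * ((u⁻¹ : (𝓞 K)ˣ) : 𝓞 K) = 1 := Units.mul_inv u
        have h5 := congrArg (algebraMap (𝓞 K) K) h4
        rw [map_mul, map_one] at h5
        exact h5
      exact inv_eq_of_mul_eq_one_right h3
    rw [e]
    exact RingOfIntegers.isIntegral_coe _
  obtain ⟨y, hy⟩ := penU_rat h1
  obtain ⟨y', hy'⟩ := penU_rat h2
  have hs : s ≠ 0 := by
    intro h0
    rw [h0, map_zero] at h
    have h4 : (u : 𝓞 K) = 0 := by
      apply FaithfulSMul.algebraMap_injective (𝓞 K) K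
      rw [map_zero]
      exact h
    exact u.ne_zero h4
  have h5 : (y : ℚ) * (y' : ℚ) = 1 := by rw [hy, hy', mul_inv_cancel₀ hs]
  have h6 : y * y' = 1 := by exact_mod_cast h5
  rcases Int.eq_one_or_neg_one_of_mul_eq_one h6 with h7 | h7
  · left
    rw [← hy, h7]
    norm_num
  · right
    rw [← hy, h7]
    norm_num

theorem rat_units {K : Type} [Field K] [NumberField K] {r : ℚ} (hr : r ≠ 0) {u u' : (𝓞 K)ˣ}
    (h1 : ((u : 𝓞 K) : K) = 1 + (algebraMap ℚ K r)⁻¹)
    (h2 : ((u' : 𝓞 K) : K) = 1 - (algebraMap ℚ K r)⁻¹) : False := by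
  have e1 : ((u : 𝓞 K) : K) = algebraMap ℚ K (1 + r⁻¹) := by
    rw [h1, map_add, map_one, map_inv₀]
  have e2 : ((u' : 𝓞 K) : K) = algebraMap ℚ K (1 - r⁻¹) := by
    rw [h2, map_sub, map_one, map_inv₀]
  have hr' : r⁻¹ ≠ 0 := inv_ne_zero hr
  rcases penU_pm e1 with h3 | h3
  · exact hr' (by linarith)
  · rcases penU_pm e2 with h4 | h4
    · exact hr' (by linarith)
    · linarith

end Pool.Agent.H42.QP
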