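import Pool.Agent.H42.QP.PenA
import Pool.Agent.H42.QP.PenB
import Pool.Agent.H42.QP.PenU

/-! The pencil `μ D_d`, `d` a prime power: all cases. -/

set_option autoImplicit false

open Polynomial NumberField IsDedekindDomain

namespace Pool.Agent.H42.QP

open Pool.Agent.H42.RM Pool.Agent.H42.PC

theorem dick_natDegree {K : Type} [Field K] {d : ℕ} (hd : 1 ≤ d) :
    (dickson 1 (1 : K) d).natDegree = d := by
  obtain ⟨h1, h2⟩ := dick_top (R := K) d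
  refine le_antisymm h1 (le_natDegree_of_ne_zero ?_)
  rw [h2 hd]
  exact one_ne_zero

theorem dick_coeff_int {K : Type} [Field K] [NumberField K] (v : HeightOneSpectrum (𝓞 K))
    (n i : ℕ) : v.valuation K ((dickson 1 (1 : K) n).coeff i) ≤ 1 := by
  have h1 := map_dickson (k := 1) (a := (1 : 𝓞 K)) (algebraMap (𝓞 K) K) n
  rw [map_one] at h1
  rw [← h1, coeff_map]
  exact v.valuation_le_one _

theorem val_int {K : Type} [Field K] [NumberField K] {x : K} (hx : IsIntegral ℤ x)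
    (v : HeightOneSpectrum (𝓞 K)) : v.valuation K x ≤ 1 := by
  have h1 := v.valuation_le_one (K := K) (⟨x, hx⟩ : 𝓞 K)
  exact h1

theorem pencil_C {K : Type} [Field K] [NumberField K] {μ β : K} (hμ : μ ≠ 0) {ℓ e : ℕ}
    (hℓ : ℓ.Prime) (he : 1 ≤ e) {ε : K} (hε : ε ^ 2 = 1)
    {v : HeightOneSpectrum (𝓞 K)} (hv : v.valuation K (μ - ε) < 1)
    (hvℓ : v.valuation K (ℓ : K) = 1)
    (hβi : v.valuation K β ≤ 1)
    (hβ : (derivative (dickson 1 (1 : K) (ℓ ^ e))).eval β = 0)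
    (hper : ∀ n, 1 ≤ n → (fun x => (C μ * dickson 1 (1 : K) (ℓ ^ e)).eval x)^[n] β ≠ β) :
    PZ K (C μ * dickson 1 (1 : K) (ℓ ^ e)) β := by
  have hd1 : 1 ≤ ℓ ^ e := Nat.one_le_pow _ _ hℓ.pos
  have hd2 : 2 ≤ ℓ ^ e := by
    calc 2 ≤ ℓ := hℓ.two_le
      _ = ℓ ^ 1 := (pow_one _).symm
      _ ≤ ℓ ^ e := Nat.pow_le_pow_right hℓ.pos he
  have hdeg : (C μ * dickson 1 (1 : K) (ℓ ^ e)).natDegree = ℓ ^ e := by
    rw [natDegree_C_mul hμ, dick_natDegree hd1]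
  have hVε : v.valuation K ε = 1 := by
    have h1 : v.valuation K ε ^ 2 = 1 := by rw [← map_pow, hε, map_one]
    exact (pow_eq_one_iff_of_nonneg zero_le two_ne_zero).1 h1
  have hVμ : v.valuation K μ = 1 := by
    have h2 : μ = (μ - ε) + ε := by ring
    rw [h2, Valuation.map_add_eq_of_lt_right]
    · exact hVε
    · rw [hVε]; exact hv
  refine pz_of_es (by rw [hdeg]; exact hd2) (by rw [derivative_C_mul, eval_C_mul, hβ, mul_zero])
    hper (fun _ => ?_)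
  refine cheb_esr v hℓ hvℓ hdeg (by rw [hdeg, natDegree_one]; omega) hε ?_ ?_ ?_ hβi ?_
  · intro i
    rw [← sub_mul, ← C_sub, coeff_C_mul, map_mul]
    exact mul_lt_one_of_lt_of_le hv (dick_coeff_int v _ _)
  · rw [leadingCoeff_mul, leadingCoeff_C, leadingCoeff, dick_natDegree hd1,
      (dick_top (R := K) (ℓ ^ e)).2 hd1, mul_one]
    exact hVμ
  · intro i
    simp
  · rw [derivative_C_mul]
    simp [hβ]

theorem pencil_main {K : Type} [Field K] [NumberField K] {μ β : K} (hμ : μ ≠ 0) {ℓ e : ℕ}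
    (hℓ : ℓ.Prime) (he : 1 ≤ e)
    (hβ : (derivative (dickson 1 (1 : K) (ℓ ^ e))).eval β = 0)
    (hper : ∀ n, 1 ≤ n → (fun x => (C μ * dickson 1 (1 : K) (ℓ ^ e)).eval x)^[n] β ≠ β)
    (hu : ¬ ∃ u u' : (𝓞 K)ˣ, ((u : 𝓞 K) : K) = 1 + μ⁻¹ ∧ ((u' : 𝓞 K) : K) = 1 - μ⁻¹) :
    PZ K (C μ * dickson 1 (1 : K) (ℓ ^ e)) β := by
  have hd1 : 1 ≤ ℓ ^ e := Nat.one_le_pow _ _ hℓ.pos
  have hd2 : 2 ≤ ℓ ^ e := by
    calc 2 ≤ ℓ := hℓ.two_le
      _ = ℓ ^ 1 := (pow_one _).symm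
      _ ≤ ℓ ^ e := Nat.pow_le_pow_right hℓ.pos he
  have hβi := crit_int hd1 hβ
  by_cases hA : ∃ v : HeightOneSpectrum (𝓞 K), v.valuation K μ < 1
  · obtain ⟨v, hv⟩ := hA
    exact pencil_A hμ hd2 hv hβi hβ hper
  by_cases hB : ∃ v : HeightOneSpectrum (𝓞 K), v.valuation K (ℓ : K) < 1 ∧ v.valuation K μ ≤ 1
  · obtain ⟨v, hvℓ, hv⟩ := hB
    push Not at hA
    exact pencil_B hμ hℓ he (le_antisymm hv (hA v)) hvℓ (val_int hβi v) hβ hper
  by_cases hC : ∃ v : HeightOneSpectrum (𝓞 K), v.valuation K (ℓ : K) = 1 ∧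
      v.valuation K (μ - 1) < 1
  · obtain ⟨v, hvℓ, hv⟩ := hC
    exact pencil_C hμ hℓ he (one_pow 2) hv hvℓ (val_int hβi v) hβ hper
  by_cases hD : ∃ v : HeightOneSpectrum (𝓞 K), v.valuation K (ℓ : K) = 1 ∧
      v.valuation K (μ + 1) < 1
  · obtain ⟨v, hvℓ, hv⟩ := hD
    exact pencil_C hμ hℓ he (ε := -1) (by norm_num) (by rwa [sub_neg_eq_add]) hvℓ
      (val_int hβi v) hβ hper
  · exfalso
    push Not at hA hB hC hD
    exact hu (two_units hℓ hμ hA hB fun v hv => ⟨hC v hv, hD v hv⟩)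

end Pool.Agent.H42.QP
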