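import Pool.Agent.H42.QP.DickD
import Pool.Agent.H42.QP.Unit
import Pool.Agent.H42.PCM.E1

/-! Quadratic polynomials. -/

set_option autoImplicit false

open Polynomial NumberField IsDedekindDomain

namespace Pool.Agent.H42.QP

section quad

variable {K : Type} [Field K] [NumberField K] {c : K}

theorem quad_deg (c : K) : (X ^ 2 + C c : K[X]).natDegree = 2 := natDegree_X_pow_add_C

theorem quad_lc (c : K) : (X ^ 2 + C c : K[X]).leadingCoeff = 1 :=
  leadingCoeff_X_pow_add_C (by norm_num)

theorem quad_coeff (c : K) (i : ℕ) :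
    (X ^ 2 + C c : K[X]).coeff i = (if i = 2 then 1 else 0) + if i = 0 then c else 0 := by
  rw [coeff_add, coeff_X_pow, coeff_C]

theorem quad_aeval (c : K) (A : Type) [Field A] [Algebra K A] :
    (fun y : A => aeval y (X ^ 2 + C c : K[X])) = fun y => y ^ 2 + algebraMap K A c := by
  funext y
  simp

/-- the local conditions for `x^2 + c` -/
theorem quad_stab (hc : c ≠ 0)
    (hu : ∀ u : (𝓞 K)ˣ, ((u : 𝓞 K) : K) = 1 + 2 / c → ∃ n : ℕ, 1 ≤ n ∧ u ^ n = 1) :
    EventuallyStable (X ^ 2 + C c) 1 0 ∨ LocalCondition (X ^ 2 + C c) 1 0 := by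
  by_cases hA : ∃ v : HeightOneSpectrum (𝓞 K), v.valuation K c < 1
  · obtain ⟨v, hv⟩ := hA
    refine Or.inr ⟨v, ?_, ?_, ?_, Or.inl ⟨?_, ?_, ?_⟩⟩
    · intro i
      rw [quad_coeff]
      refine (v.valuation K).map_add_le ?_ ?_
      · split_ifs <;> simp
      · split_ifs
        · exact hv.le
        · simp
    · intro i
      rw [coeff_one]
      split_ifs <;> simp
    · rw [quad_lc, map_one]
    · simp
    · simp
    · intro i hi
      rw [quad_deg] at hi
      have h1 : (X ^ 2 + C c - C 0 * 1 : K[X]).comp (X + C 0) = X ^ 2 + C c := by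
        rw [map_zero, zero_mul, sub_zero, add_zero, comp_X]
      rw [h1, quad_coeff, if_neg (by omega), zero_add]
      split_ifs
      · exact hv
      · simp
  by_cases hB : ∃ v : HeightOneSpectrum (𝓞 K), v.valuation K ((2 : ℕ) : K) < 1 ∧
      v.valuation K c ≤ 1
  · obtain ⟨v, hv2, hv⟩ := hB
    refine Or.inr ⟨v, ?_, ?_, ?_, Or.inr ⟨?_, ?_, Or.inl ⟨?_, ?_, 2, 1, Nat.prime_two, ?_, ?_⟩⟩⟩
    · intro i
      rw [quad_coeff]
      refine (v.valuation K).map_add_le ?_ ?_
      · split_ifs <;> simp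
      · split_ifs
        · exact hv
        · simp
    · intro i
      rw [coeff_one]
      split_ifs <;> simp
    · rw [quad_lc, map_one]
    · simp
    · intro i hi
      rw [coeff_one, if_neg (by omega)]
      simp
    · simp
    · intro i hi hi2
      rw [quad_deg] at hi2
      rw [quad_coeff, if_neg (by omega), if_neg (by omega)]
      simp
    · rw [quad_deg, pow_one]
    · exact hv2
  by_cases hC : ∃ v : HeightOneSpectrum (𝓞 K), v.valuation K ((2 : ℕ) : K) = 1 ∧
      v.valuation K (c + (2 : ℕ)) < 1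
  · obtain ⟨v, hv2, hv⟩ := hC
    refine Or.inl (dick_stable v (ℓ := 2) (e := 1) Nat.prime_two hv2 ?_ ?_ ?_ ?_ ?_)
    · rw [quad_deg, pow_one]
    · rw [quad_lc, map_one]
    · intro i
      have h1 : (X ^ 2 + C c - dickson 1 (1 : K) (2 ^ 1) : K[X]) = C (c + (2 : ℕ)) := by
        rw [pow_one, dickson_two]
        have : (3 - ((1 : ℕ) : K[X])) = C (2 : K) := by
          rw [show (C (2 : K) : K[X]) = 2 from rfl]
          push_cast
          norm_num
        rw [this, map_one, one_mul, map_add]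
        push_cast
        rw [show (C (2 : K) : K[X]) = 2 from rfl]
        ring
      rw [h1, coeff_C]
      split_ifs
      · exact hv
      · simp
    · simp
    · simp
  · exfalso
    push Not at hA hB hC
    obtain ⟨u, hu1, hu2⟩ := unit_of_bad (K := K) Nat.prime_two hc
      (fun v _ => hA v) (fun v hv => hB v hv) (fun v hv => hC v hv)
    obtain ⟨n, hn, hun⟩ := hu u (by rw [hu1]; push_cast; rfl)
    exact hu2 n hn hun

theorem quad_key (hper : ∀ n, 1 ≤ n → (fun x : K => x ^ 2 + c)^[n] 0 ≠ 0)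
    (hu : ∀ u : (𝓞 K)ˣ, ((u : 𝓞 K) : K) = 1 + 2 / c → ∃ n : ℕ, 1 ≤ n ∧ u ^ n = 1) :
    Pool.Agent.H42.PC.EFinSm K
      {v | ∃ n, 1 ≤ n ∧ v.valuation K ((fun x : K => x ^ 2 + c)^[n] 0) < 1} := by
  have hc : c ≠ 0 := by
    intro h0
    apply hper 1 le_rfl
    simp [h0]
  have hiter : ∀ n, (rat (X ^ 2 + C c) 1 K)^[n] (some 0) =
      some ((fun x : K => x ^ 2 + c)^[n] 0) := by
    intro n
    rw [rat_one, quad_aeval]
    rfl
  have hcr : ∀ z : AlgebraicClosure K, aeval z (derivative (X ^ 2 + C c : K[X]) * 1 -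
      (X ^ 2 + C c) * derivative 1) = 0 → z = 0 := by
    intro z hz
    have h2 : (2 : AlgebraicClosure K) ≠ 0 := two_ne_zero
    simpa using hz
  have key := dens_key K (X ^ 2 + C c) 1 0 isCoprime_one_right (by rw [quad_deg])
    (by rw [quad_deg, natDegree_one]; norm_num) (by simp)
    (fun n hn => by
      rw [hiter]
      intro h
      exact hper n hn (Option.some_inj.1 h))
    (fun z hz _ hd => by
      have hz0 := hcr z hz
      subst hz0
      have h1 : (C (aeval (0 : AlgebraicClosure K) (1 : K[X])) *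
          (X ^ 2 + C c : K[X]).map (algebraMap K (AlgebraicClosure K)) -
          C (aeval (0 : AlgebraicClosure K) (X ^ 2 + C c : K[X])) *
          (1 : K[X]).map (algebraMap K (AlgebraicClosure K))) = X ^ 2 := by
        simp
      rw [h1, C_0, sub_zero] at hd
      have h2 := natDegree_le_of_dvd hd (pow_ne_zero _ X_ne_zero)
      rw [natDegree_X_pow, natDegree_X_pow] at h2
      omega)
    (fun z z' hz hz' _ _ hne => by
      exact absurd ((hcr z hz).trans (hcr z' hz').symm) hne)
    (quad_stab hc hu)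
  refine Pool.Agent.H42.PC.EFin_mono ?_ key
  rintro v ⟨n, hn, hv⟩
  exact ⟨n, hn, _, hiter n, by rw [sub_zero]; exact hv⟩

end quad

end Pool.Agent.H42.QP
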